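import Mathlib
import Pool.Agent.W484.CH.Fin

/-!
# Dual systems of products of divisors, and the Kunneth formula with the dual system
-/

set_option autoImplicit false
set_option linter.unusedSectionVars false

open CategoryTheory AlgebraicGeometry

universe u v w

namespace Pool.Agent.W484.CH

open Module Polynomial Pool.Agent.H914 Pool.Agent.H914.VarClass Pool.Agent.H914.VarClass.Obj
  Pool.Agent.W492.BB Pool.Agent.W550.Corr Pool.Agent.W484.TB Pool.Agent.W484.HS
  Pool.Agent.W521.Frob Pool.Agent.W521.Count Pool.Agent.W521.Bad Pool.Agent.W521.Descent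
  Pool.Agent.W521.Density

section general

variable {k : Type u} [Field k] {𝒱 : VarClass k} {C : TheoryData.{u, v, 0} 𝒱 ℚ} {K : Type w}
  [Field K] [CharZero K] {H : WeilTheoryData.{u, v, w} C K} [hC : IsChow C] [hH : IsWeil H]
  (hS : IsStandard H) {A Z X Y : 𝒱.Obj}

include hS

variable {π : A ⟶ A} {Q : ℕ} (hπ : IsFrobenius C π Q) (hQ : 1 < Q) {r : ℕ}
  (b : Basis (Fin r) K (H.A A)) (α : Fin r → K) (hb : ∀ t, H.pull π (b t) = α t • b t)
  (h1 : ∀ t (c : ℤ), α t = (Q : K) ^ c → ∃ k : ℕ, α t = (Q : K) ^ k ∧ b t ∈ NK H A k)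

include hπ hQ hb h1

/-- The dual system in one codimension. -/
theorem exists_dual_one2 (Z : 𝒱.Obj) {n : ℕ} (hn : n ≤ A.dim) :
    ∃ (m : ℕ) (D E : Fin m → C.A A), (∀ t, D t ∈ DivProd C A n) ∧
      (∀ t, E t ∈ Submodule.span ℚ (DivProd C A (A.dim - n))) ∧
      (∀ t u, C.push (snd A Z) (C.pull (fst A Z) (D t * E u)) = if t = u then 1 else 0) ∧
      NK H A n ≤ Submodule.span K (Set.range fun t => H.cl (D t)) := by
  classical
  have := hS.finite A
  obtain ⟨deg, hdeg⟩ := exists_deg hS A Z
  -- a basis of classes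
  obtain ⟨S, hS1, hS2, hS3⟩ := exists_linearIndependent K {c | ∃ D ∈ DivProd C A n, c = H.cl D}
  have hfin : S.Finite := hS3.setFinite
  have hft := hfin.fintype
  let e := Fintype.equivFin S
  have hD : ∀ t : Fin (Fintype.card S), ∃ D ∈ DivProd C A n, (e.symm t : H.A A) = H.cl D :=
    fun t => hS1 (e.symm t).2
  choose D hDm hDcl using hD
  have hDg : ∀ t, D t ∈ C.gr A n := fun t => divProd_mem (hDm t)
  have hli : LinearIndependent K (fun t => H.cl (D t)) := by
    have h2 : (fun t => H.cl (D t)) = (fun x : S => (x : H.A A)) ∘ e.symm := by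
      funext t
      exact (hDcl t).symm
    rw [h2]
    exact hS3.comp _ e.symm.injective
  have hspan : NK H A n ≤ Submodule.span K (Set.range fun t => H.cl (D t)) := by
    unfold NK
    rw [← hS2]
    refine Submodule.span_mono ?_
    intro x hx
    refine ⟨e ⟨x, hx⟩, ?_⟩
    beta_reduce
    rw [← hDcl, Equiv.symm_apply_apply]
  -- the pairing
  let 𝒮 : Submodule ℚ (C.A A) := Submodule.span ℚ (DivProd C A (A.dim - n))
  have h𝒮 : 𝒮 ≤ C.gr A (A.dim - n : ℕ) := Submodule.span_le.2 fun x hx => divProd_mem hx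
  let ψ : 𝒮 →ₗ[ℚ] (Fin (Fintype.card S) → ℚ) :=
    LinearMap.pi fun t => deg ∘ₗ LinearMap.mulLeft ℚ (D t) ∘ₗ 𝒮.subtype
  have hψ : ∀ E t, ψ E t = deg (D t * E) := fun _ _ => rfl
  have hmem : ∀ t (E : 𝒮), D t * E ∈ C.gr A A.dim := by
    intro t E
    have h2 := C.mul_mem (hDg t) (h𝒮 E.2)
    rwa [show (n : ℤ) + ((A.dim - n : ℕ) : ℤ) = A.dim by omega] at h2
  have hsurj : LinearMap.range ψ = ⊤ := by
    by_contra hne
    obtain ⟨f, hf0, hf⟩ := Submodule.exists_le_ker_of_lt_top _ (lt_top_iff_ne_top.2 hne)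
    apply hf0
    -- the class
    set c : H.A A := ∑ t, ((f (Pi.single t 1) : ℚ) : K) • H.cl (D t) with hc
    set z : C.A A := ∑ t, f (Pi.single t 1) • D t with hz
    have hcz : c = H.cl z := by
      rw [hc, hz, map_sum]
      exact Finset.sum_congr rfl fun t _ => (cl_smul _ _).symm
    have hcm : c ∈ NK H A n :=
      Submodule.sum_mem _ fun t _ => Submodule.smul_mem _ _ (Submodule.subset_span
        ⟨D t, hDm t, rfl⟩)
    have hc0 : c = 0 := by
      refine NK_nondeg hπ hQ b α hb h1 hn hcm ?_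
      intro c' hc'
      unfold NK at hc'
      induction hc' using Submodule.span_induction with
      | mem c' hc' =>
        obtain ⟨E, hE, rfl⟩ := hc'
        apply tr_eq_zero_of_push Z
        rw [hcz, ← map_mul, ← H.cl_pull, ← H.cl_push]
        have hE' : E ∈ 𝒮 := Submodule.subset_span hE
        have h2 : C.push (snd A Z) (C.pull (fst A Z) (z * E)) = 0 := by
          have h3 : z * E ∈ C.gr A A.dim := by
            rw [hz, Finset.sum_mul]
            refine Submodule.sum_mem _ fun t _ => ?_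
            rw [smul_mul_assoc]
            exact Submodule.smul_mem _ _ (hmem t ⟨E, hE'⟩)
          rw [hdeg _ h3]
          have h4 : f (ψ ⟨E, hE'⟩) = 0 := hf ⟨_, rfl⟩
          have h5 : deg (z * E) = f (ψ ⟨E, hE'⟩) := by
            have h6 : ψ ⟨E, hE'⟩ = ∑ t, deg (D t * E) • Pi.single (M := fun _ => ℚ) t 1 := by
              funext t
              rw [hψ, Finset.sum_apply]
              simp [Pi.single_apply]
            rw [h6, map_sum, hz, Finset.sum_mul, map_sum]
            refine Finset.sum_congr rfl fun t _ => ?_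
            rw [smul_mul_assoc, map_smul, map_smul, smul_eq_mul, smul_eq_mul, mul_comm]
          rw [h5, h4, zero_smul]
        rw [h2, map_zero]
      | zero => rw [mul_zero, map_zero]
      | add x y _ _ hx hy => rw [mul_add, map_add, hx, hy, add_zero]
      | smul a x _ hx => rw [mul_smul_comm, map_smul, hx, smul_zero]
    have h2 := Fintype.linearIndependent_iff.1 hli (fun t => ((f (Pi.single t 1) : ℚ) : K))
      (by rw [← hc, hc0])
    ext t
    have h3 := h2 t
    have h4 : f (Pi.single t 1) = 0 := by exact_mod_cast h3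
    simpa using h4
  have hE : ∀ u, ∃ E : 𝒮, ψ E = Pi.single u 1 := by
    intro u
    have h2 : (Pi.single u 1 : Fin (Fintype.card S) → ℚ) ∈ LinearMap.range ψ := by
      rw [hsurj]
      exact Submodule.mem_top
    exact h2
  choose E hE using hE
  refine ⟨Fintype.card S, D, fun u => E u, hDm, fun u => (E u).2, fun t u => ?_, hspan⟩
  rw [hdeg _ (hmem t (E u)), ← hψ, hE, Pi.single_apply]
  split_ifs
  · rw [one_smul]
  · rw [zero_smul]

/-- **The dual system.** -/
theorem exists_dual2 (Z : 𝒱.Obj) : ∃ (J : Type) (_ : Fintype J) (deg : J → ℕ) (D E : J → C.A A),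
    IsDual A Z deg D E ∧ (∀ j, D j ∈ DivProd C A (deg j)) ∧
    (∀ j, E j ∈ Submodule.span ℚ (DivProd C A (A.dim - deg j))) ∧
    ∀ n, NK H A n ≤ Submodule.span K {c | ∃ j, deg j = n ∧ c = H.cl (D j)} := by
  classical
  choose m D E hD hE hDE hspan using fun n : Fin (A.dim + 1) =>
    exists_dual_one2 hS hπ hQ b α hb h1 Z (n := n) (by omega)
  have hEg : ∀ (n : Fin (A.dim + 1)) (t : Fin (m n)), E n t ∈ C.gr A (A.dim - (n : ℕ) : ℕ) :=
    fun n t => (Submodule.span_le.2 fun x hx => divProd_mem hx :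
      Submodule.span ℚ (DivProd C A (A.dim - n)) ≤ C.gr A (A.dim - (n : ℕ) : ℕ)) (hE n t)
  refine ⟨Σ n : Fin (A.dim + 1), Fin (m n), inferInstance, fun j => j.1, fun j => D j.1 j.2,
    fun j => E j.1 j.2, ⟨fun j => by omega, fun j => divProd_mem (hD j.1 j.2), fun j => ?_,
    fun j => ?_, fun i j hij => ?_⟩, fun j => hD j.1 j.2, fun j => hE j.1 j.2, fun n => ?_⟩
  · have h2 := hEg j.1 j.2
    have h3 : ((A.dim - (j.1 : ℕ) : ℕ) : ℤ) = (A.dim : ℤ) - (j.1 : ℕ) := by omega
    rw [h3] at h2
    exact h2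
  · rw [hDE, if_pos rfl]
  · have hDi := divProd_mem (hD i.1 i.2)
    by_cases h2 : i.1 = j.1
    · obtain ⟨n, t⟩ := i
      obtain ⟨n', u⟩ := j
      dsimp only at h2
      subst h2
      rw [hDE, if_neg]
      intro h3
      dsimp only at h3
      subst h3
      exact hij rfl
    · have h3 := C.mul_mem hDi (hEg j.1 j.2)
      rcases lt_or_gt_of_ne h2 with h4 | h4
      · have h5 := C.push_mem (snd A Z) (C.pull_mem (fst A Z) h3)
        rw [C.gr_neg _ _ (by
          rw [Obj.dim_prod]
          push_cast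
          have : (i.1 : ℕ) < (j.1 : ℕ) := h4
          omega)] at h5
        exact (Submodule.mem_bot _).1 h5
      · rw [hS.chow_top _ _ (by
          have : (j.1 : ℕ) < (i.1 : ℕ) := h4
          omega)] at h3
        rw [(Submodule.mem_bot _).1 h3, map_zero, map_zero]
  · rcases Nat.lt_or_ge A.dim n with h2 | h2
    · have h3 : NK H A n ≤ ⊥ := by
        refine Submodule.span_le.2 ?_
        rintro _ ⟨D', hD', rfl⟩
        have h4 := divProd_mem hD'
        rw [hS.chow_top _ _ (by exact_mod_cast h2)] at h4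
        rw [(Submodule.mem_bot _).1 h4, map_zero]
        exact Submodule.zero_mem _
      exact h3.trans bot_le
    · refine (hspan ⟨n, by omega⟩).trans (Submodule.span_mono ?_)
      rintro _ ⟨t, rfl⟩
      exact ⟨⟨⟨n, by omega⟩, t⟩, rfl, rfl⟩


/-- The classes of the dual system span. -/
theorem span_dual {J : Type} [Fintype J] {deg : J → ℕ} {D E : J → C.A A} (Z : 𝒱.Obj)
    (h : IsDual A Z deg D E) (hE : ∀ j, E j ∈ Submodule.span ℚ (DivProd C A (A.dim - deg j)))
    (hN : ∀ n, NK H A n ≤ Submodule.span K {c | ∃ j, deg j = n ∧ c = H.cl (D j)}) (n : ℕ) :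
    NK H A n ≤ Submodule.span K {c | ∃ j, A.dim - deg j = n ∧ c = H.cl (E j)} := by
  classical
  obtain ⟨dg, hdg⟩ := exists_deg hS A Z
  rcases Nat.lt_or_ge A.dim n with h2 | hn
  · have h3 : NK H A n ≤ ⊥ := by
      refine Submodule.span_le.2 ?_
      rintro _ ⟨D', hD', rfl⟩
      have h4 := divProd_mem hD'
      rw [hS.chow_top _ _ (by exact_mod_cast h2)] at h4
      rw [(Submodule.mem_bot _).1 h4, map_zero]
      exact Submodule.zero_mem _
    exact h3.trans bot_le
  have hEN : ∀ j, H.cl (E j) ∈ NK H A (A.dim - deg j) := by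
    have key : ∀ (l : ℕ) (z : C.A A), z ∈ Submodule.span ℚ (DivProd C A l) →
        H.cl z ∈ NK H A l := by
      intro l z hz
      induction hz using Submodule.span_induction with
      | mem z hz => exact Submodule.subset_span ⟨z, hz, rfl⟩
      | zero => rw [map_zero]; exact Submodule.zero_mem _
      | add x y _ _ hx hy => rw [map_add]; exact Submodule.add_mem _ hx hy
      | smul c x _ hx => rw [cl_smul]; exact Submodule.smul_mem _ _ hx
    exact fun j => key _ _ (hE j)
  refine Submodule.span_le.2 ?_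
  rintro _ ⟨G, hG, rfl⟩
  -- the combination of the `E j`
  set S : Finset J := Finset.univ.filter fun j => A.dim - deg j = n with hSdef
  set w : C.A A := ∑ j ∈ S, dg (D j * G) • E j with hw
  have hwN : H.cl w ∈ NK H A n := by
    rw [hw, map_sum]
    refine Submodule.sum_mem _ fun j hj => ?_
    rw [cl_smul]
    have h2 : A.dim - deg j = n := (Finset.mem_filter.1 hj).2
    have h3 := hEN j
    rw [h2] at h3
    exact Submodule.smul_mem _ _ h3
  have hGm : G ∈ C.gr A n := divProd_mem hG
  have hEm : ∀ j ∈ S, E j ∈ C.gr A n := by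
    intro j hj
    have h2 : A.dim - deg j = n := (Finset.mem_filter.1 hj).2
    have h3 := h.right j
    have h4 := h.le j
    rwa [show (A.dim : ℤ) - deg j = n by omega] at h3
  have hwm : w ∈ C.gr A n :=
    Submodule.sum_mem _ fun j hj => Submodule.smul_mem _ _ (hEm j hj)
  have hz : H.cl (G - w) = 0 := by
    refine NK_nondeg hπ hQ b α hb h1 hn ?_ ?_
    · rw [map_sub]
      exact Submodule.sub_mem _ (Submodule.subset_span ⟨G, hG, rfl⟩) hwN
    · intro c' hc'
      have hc2 := hN _ hc'
      clear hc'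
      induction hc2 using Submodule.span_induction with
      | mem c' hc' =>
        obtain ⟨l, hl, rfl⟩ := hc'
        apply tr_eq_zero_of_push Z
        rw [← map_mul, ← H.cl_pull, ← H.cl_push]
        have hDl : D l ∈ C.gr A (A.dim - n : ℕ) := by
          have h2 := h.left l
          rwa [hl] at h2
        have hmem : ∀ x ∈ C.gr A n, x * D l ∈ C.gr A A.dim := by
          intro x hx
          have h2 := C.mul_mem hx hDl
          rwa [show (n : ℤ) + ((A.dim - n : ℕ) : ℤ) = A.dim by omega] at h2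
        have hlS : l ∈ S := by
          rw [hSdef, Finset.mem_filter]
          have := h.le l
          exact ⟨Finset.mem_univ _, by omega⟩
        have h3 : dg ((G - w) * D l) = 0 := by
          have hdE : ∀ j ∈ S, dg (E j * D l) = if j = l then 1 else 0 := by
            intro j hj
            have h4 := hdg _ (hmem _ (hEm j hj))
            have h5 : C.push (snd A Z) (C.pull (fst A Z) (E j * D l)) =
                (if j = l then (1 : ℚ) else 0) • (1 : C.A Z) := by
              rw [chow_mul_comm (E j) (D l)]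
              by_cases hjl : j = l
              · subst hjl
                rw [h.eq, if_pos rfl, one_smul]
              · rw [h.ne l j (Ne.symm hjl), if_neg hjl, zero_smul]
            rw [h5] at h4
            have h6 : (1 : C.A Z) ≠ 0 := by
              intro h0
              have := hS.nontrivial Z
              have h2 := congrArg (H.cl (X := Z)) h0
              rw [map_one, map_zero] at h2
              exact one_ne_zero h2
            have h7 : ((if j = l then (1 : ℚ) else 0) - dg (E j * D l)) • (1 : C.A Z) = 0 := by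
              rw [sub_smul, ← h4, sub_self]
            exact (sub_eq_zero.1 ((smul_eq_zero.1 h7).resolve_right h6)).symm
          rw [sub_mul, map_sub, hw, Finset.sum_mul, map_sum,
            Finset.sum_congr rfl fun j hj => by
              rw [smul_mul_assoc, map_smul, hdE j hj, smul_eq_mul, mul_ite, mul_one, mul_zero],
            Finset.sum_ite_eq' S l, if_pos hlS, chow_mul_comm G (D l), sub_self]
        rw [hdg _ (hmem _ (Submodule.sub_mem _ hGm hwm)), h3, zero_smul, map_zero]
      | zero => rw [mul_zero, map_zero]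
      | add x y _ _ hx hy => rw [mul_add, map_add, hx, hy, add_zero]
      | smul a x _ hx => rw [mul_smul_comm, map_smul, hx, smul_zero]
  have hfinal : H.cl G = H.cl w := by
    rw [map_sub, sub_eq_zero] at hz
    exact hz
  change H.cl G ∈ _
  rw [hfinal, hw, map_sum]
  refine Submodule.sum_mem _ fun j hj => ?_
  rw [cl_smul]
  exact Submodule.smul_mem _ _ (Submodule.subset_span ⟨j, (Finset.mem_filter.1 hj).2, rfl⟩)

omit hS hπ hQ b hb h1 in
/-- The dual of a dual system. -/
theorem IsDual.symm {J : Type} {deg : J → ℕ} {D E : J → C.A A} (h : IsDual A Z deg D E) :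
    IsDual A Z (fun j => A.dim - deg j) E D where
  le := fun j => Nat.sub_le _ _
  left := fun j => by
    have h2 := h.right j
    have h3 := h.le j
    rwa [show (A.dim : ℤ) - deg j = ((A.dim - deg j : ℕ) : ℤ) by omega] at h2
  right := fun j => by
    have h2 := h.left j
    have h3 := h.le j
    rwa [show (deg j : ℤ) = (A.dim : ℤ) - ((A.dim - deg j : ℕ) : ℤ) by omega] at h2
  eq := fun i => by rw [chow_mul_comm, h.eq]
  ne := fun i j hij => by rw [chow_mul_comm, h.ne j i (Ne.symm hij)]

end general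

variable {k : Type u} [Field k] {𝒱 : VarClass k} {C : TheoryData.{u, v, 0} 𝒱 ℚ} {K : Type w}
  [Field K] [CharZero K] {H : WeilTheoryData.{u, v, w} C K} [hC : IsChow C] [hH : IsWeil H]
  {A Z X Y : 𝒱.Obj}

variable {I : Type} [Finite I] (g : I → ℕ) (E : IntermediateField ℚ ℂ) [FiniteDimensional ℚ E]
  {q : ℕ} (hq : 1 < q) (r : ℕ) (hr : ∀ i, r < g i)
  (x : (Σ i, Fin (g i)) → ℤ) (hx : GoodU (splitPrimes E) g q x)

include hq hr hx in
/-- **The Kunneth formula with both systems.** -/
theorem kunneth_both [IsAlgClosed K] (hS : IsStandard H) {s : ℕ} (hs : 0 < s) {πA : A ⟶ A}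
    {πZ : Z ⟶ Z} (hA : IsAbelian H πA q s (fun i => weil q (polys g x i)))
    (hZ : EigenRankLE E r (frob H πZ)) (hnil : Nilpotence H (A.prod Z)) :
    ∃ (J : Type) (_ : Fintype J) (deg : J → ℕ) (D E : J → C.A A), Nonempty J ∧
      IsDual A Z deg D E ∧
      (∀ j, D j ∈ DivProd C A (deg j)) ∧
      (∀ j, E j ∈ Submodule.span ℚ (DivProd C A (A.dim - deg j))) ∧
      ∀ T : CorrData C, IsCorrTheory T → ActsAsPower T (prodMap πA πZ) (q ^ s) →
        ∀ (i : ℤ) (m : T.M (A.prod Z)), m ∈ T.gr (A.prod Z) i →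
          m = ∑ j, T.act (extBy C Z (D j)) (T.act (pairBy C Z (E j)) m) ∧
          m = ∑ j, T.act (extBy C Z (E j)) (T.act (pairBy C Z (D j)) m) := by
  obtain ⟨n, b, α, hb, hα, hgood⟩ := exists_good_basis g E hq r hr x hx hS hs hA
  have hQ1 : 1 < q ^ s := Nat.one_lt_pow hs.ne' hq
  have hX1 : (Polynomial.X - 1 : ℚ[X]) ≠ 0 := by
    have := Polynomial.X_sub_C_ne_zero (1 : ℚ)
    rwa [map_one] at this
  have h1 : ∀ t (c : ℤ), α t = ((q ^ s : ℕ) : K) ^ c →
      ∃ l : ℕ, α t = ((q ^ s : ℕ) : K) ^ l ∧ b t ∈ NK H A l := by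
    intro t c hc
    exact hgood _ hX1 (rank_one E r) 1 (by rw [map_sub, aeval_X, map_one, sub_self]) t c
      (by rw [mul_one]; exact hc)
  obtain ⟨J, hJ, deg, D, E', hdual, hD, hE, hN⟩ :=
    exists_dual2 hS hA.frobenius hQ1 b α hb h1 Z
  have hN' := span_dual hS hA.frobenius hQ1 b α hb h1 Z hdual hE hN
  have hne : Nonempty J := by
    by_contra hne
    rw [not_nonempty_iff] at hne
    have h2 := hN 0 (one_mem_NK (H := H) (A := A))
    have h3 : {c : H.A A | ∃ j, deg j = 0 ∧ c = H.cl (D j)} = ∅ := by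
      ext c
      constructor
      · rintro ⟨j, -⟩
        exact hne.elim j
      · intro h
        exact h.elim
    rw [h3, Submodule.span_empty, Submodule.mem_bot] at h2
    have := hS.nontrivial A
    exact one_ne_zero h2
  refine ⟨J, hJ, deg, D, E', hne, hdual, hD, hE, fun T hT hπ i m hm => ?_⟩
  obtain ⟨χ, hχ, hχe, hrank⟩ := hZ
  have hfinX : Module.Finite K (H.A (A.prod Z)) := hS.finite _
  obtain ⟨P, hP, m', hPm⟩ := exists_poly (frob H (prodMap πA πZ)) (((q ^ s : ℕ) : ℚ) ^ i) (by
    intro μ v hv0 hv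
    refine integral_eigen hS b α hb hα ?_ μ v hv0 hv
    intro ρ v hv0 hv
    exact (isAlgebraic_iff_isIntegral).1 ⟨χ, hχ, hχe ρ v hv0 hv⟩)
  have hmix : ∀ w : H.A (A.prod Z), H.act (H.cl (polyC (prodMap πA πZ) P)) w ∈ mix H A Z := by
    intro w
    rw [act_cl_polyC]
    refine mem_mix (πZ := πZ) hS b α hb (Q := q ^ s) (by omega) i ?_ m' _ ?_
    · intro t ρ v hv0 hv hc
      obtain ⟨l, -, hl⟩ := hgood χ hχ hrank ρ (hχe ρ v hv0 hv) t i hc
      exact ⟨l, hl⟩
    · have h2 := hPm w
      push_cast at h2 ⊢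
      exact h2
  exact ⟨kunneth_core hdual hT hπ hnil i P hP (fun w => act_proj_mix hdual hN (hmix w)) hm,
    kunneth_core hdual.symm hT hπ hnil i P hP (fun w => act_proj_mix hdual.symm hN' (hmix w)) hm⟩

end Pool.Agent.W484.CH
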