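import Mathlib
import Pool.Agent.W492.BB.Defs

/-!
# Chow groups of products with abelian varieties over finite fields: statements
-/

set_option autoImplicit false

open CategoryTheory AlgebraicGeometry

universe u v w

namespace Pool.Agent.W484.CK

open Polynomial Pool.Agent.H914 Pool.Agent.H914.VarClass Pool.Agent.H914.VarClass.Obj
  Pool.Agent.W492.BB

variable {k : Type u} [Field k] {𝒱 : VarClass k}

section chow

variable (C : TheoryData.{u, v, 0} 𝒱 ℚ) {A X Y Z : 𝒱.Obj}

/-- The composition of correspondences. -/
noncomputable def compose (Γ : C.A (X.prod Y)) (Δ : C.A (Y.prod Z)) : C.A (X.prod Z) :=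
  C.down (prodMap (fst X Y) (𝟙 Z))
    (C.mul (C.up (prodMap (snd X Y) (𝟙 Z)) Δ) (C.up (fst (X.prod Y) Z) Γ))

/-- The class of the diagonal: the identity correspondence. -/
noncomputable def diagonal (X : 𝒱.Obj) : C.A (X.prod X) := C.down (Obj.lift (𝟙 X) (𝟙 X)) 1

/-- The iterates of a self-correspondence. -/
noncomputable def iterate (Γ : C.A (X.prod X)) : ℕ → C.A (X.prod X)
  | 0 => diagonal C X
  | n + 1 => compose C (iterate Γ n) Γ

/-- `D` is a product of `n` divisor classes. -/
def DivisorProduct (n : ℕ) (D : C.A A) : Prop :=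
  ∃ L : List (C.A A), L.length = n ∧ (∀ x ∈ L, C.Deg 1 x) ∧ D = L.prod

/-- The external product `z × z'`. -/
noncomputable def times (z : C.A X) (z' : C.A Y) : C.A (X.prod Y) :=
  C.mul (C.up (fst X Y) z) (C.up (snd X Y) z')

/-- The endomorphism `π` acts on the Chow groups like the Frobenius endomorphism relative to
the field with `Q` elements: `π^*` is multiplication by `Q ^ i` on `CH^i(X)`, and `π` has degree
`Q ^ dim X`. -/
structure IsFrobenius (π : X ⟶ X) (Q : ℕ) : Prop where
  chow : ∀ (i : ℕ) (z : C.A X), C.Deg i z → C.up π z = (Q : ℚ) ^ i • z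
  degree : C.down π 1 = (Q : ℚ) ^ X.dim • (1 : C.A X)

/-- The Kunneth formula for the Chow groups of `A × Z` with rational coefficients: there are
products `D j` of `deg j` divisor classes on `A`, finitely many, such that every class in
`CH^i(A × Z)` can be written in a unique way as `∑ D j × z j` with `z j` in `CH^(i - deg j)(Z)`. -/
def ChowKunneth (A Z : 𝒱.Obj) : Prop :=
  ∃ (J : Type) (_ : Fintype J) (deg : J → ℕ) (D : J → C.A A),
    (∀ j, DivisorProduct C (deg j) (D j)) ∧
    ∀ (i : ℤ) (x : C.A (A.prod Z)), C.Deg i x → ∃! z : J → C.A Z,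
      (∀ j, C.Deg (i - deg j) (z j)) ∧ x = ∑ j, times C (D j) (z j)

end chow

variable {C : TheoryData.{u, v, 0} 𝒱 ℚ} {K : Type w} [Field K]
  (H : WeilTheoryData.{u, v, w} C K) {A X Y Z : 𝒱.Obj}

/-- Standard properties which are not recorded in `IsChow` and `IsWeil`: the cohomology is
finite-dimensional, not zero, vanishes in degrees above `2 dim X`, and `H^0(X) = K`; the groups
`CH^i(X)` vanish for `i > dim X`, and `CH^0(X) = ℚ` (the varieties are geometrically
irreducible). -/
structure IsStandard : Prop where
  finite : ∀ X, Module.Finite K (H.A X)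
  nontrivial : ∀ X, Nontrivial (H.A X)
  coh_top : ∀ (X : 𝒱.Obj) (i : ℤ) (a : H.A X), 2 * (X.dim : ℤ) < i → H.Deg i a → a = 0
  coh_zero : ∀ (X : 𝒱.Obj) (a : H.A X), H.Deg 0 a → ∃ c : K, a = c • 1
  chow_top : ∀ (X : 𝒱.Obj) (i : ℤ) (z : C.A X), (X.dim : ℤ) < i → C.Deg i z → z = 0
  chow_zero : ∀ (X : 𝒱.Obj) (z : C.A X), C.Deg 0 z → ∃ c : ℚ, z = c • 1

/-- The cohomology of `A` is generated by `H^1(A)`. -/
def IsGenerated (A : 𝒱.Obj) : Prop :=
  ∀ S : Subalgebra K (H.A A), (∀ a : H.A A, H.Deg 1 a → a ∈ S) → ∀ a : H.A A, a ∈ S

/-- The elements of `H^1(A)` anticommute. -/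
def IsAnticommutative (A : 𝒱.Obj) : Prop :=
  ∀ a b : H.A A, H.Deg 1 a → H.Deg 1 b → H.mul a b = -(H.mul b a)

/-- `c` is an eigenvector of `π` in `H^1(A)` with an eigenvalue `z ^ s`, where `z` is a root of one
of the `f i`. -/
def IsRootVector (π : A ⟶ A) (s : ℕ) {I : Type} (f : I → ℤ[X]) (c : H.A A) : Prop :=
  H.Deg 1 c ∧ ∃ i, ∃ z : K, aeval z (f i) = 0 ∧ H.up π c = z ^ s • c

/-- `c` is the class of a divisor, with rational coefficients. -/
def IsDivisorClass (c : H.A A) : Prop := ∃ D : C.A A, C.Deg 1 D ∧ c = H.cl D

/-- `c` is a linear combination of elements with the property `P`. -/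
def InSpan (P : H.A X → Prop) (c : H.A X) : Prop := c ∈ Submodule.span K {a | P a}

/-- The abelian variety `A` over the field with `Q = q ^ s` elements, with Frobenius endomorphism
`π`, is isogenous to a product of powers of abelian varieties which come from the field with `q`
elements and have characteristic polynomials of Frobenius `f i` over this field: the cohomology of
`A` is generated by `H^1(A)`, whose elements anticommute, and which is spanned by eigenvectors of
Frobenius with eigenvalues `z ^ s`, `z` a root of some `f i`; moreover Tate's theorem on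
divisors holds: the classes in `H^2(A)` on which `π` acts as multiplication by `Q` are
linear combinations of classes of divisors. -/
structure IsAbelian (π : A ⟶ A) (q s : ℕ) {I : Type} (f : I → ℤ[X]) : Prop where
  frobenius : IsFrobenius C π (q ^ s)
  generated : IsGenerated H A
  anticomm : IsAnticommutative H A
  spanned : ∀ c : H.A A, H.Deg 1 c → InSpan H (IsRootVector H π s f) c
  tate : ∀ c : H.A A, H.Deg 2 c → H.up π c = ((q ^ s : ℕ) : K) • c →
    InSpan H (IsDivisorClass H) c

/-- Up to powers, the numbers in the set `S` lie in a group generated by the nonzero elements of the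
number field `E` and `r` numbers. -/
def GroupOfRank (E : IntermediateField ℚ ℂ) (r : ℕ) (S : Set ℂ) : Prop :=
  ∃ u : Fin r → ℂ, (∀ j, u j ≠ 0) ∧ ∀ ρ ∈ S, ∃ (N : ℕ) (y : ℂ) (m : Fin r → ℤ), 0 < N ∧ y ∈ E ∧
    y ≠ 0 ∧ ρ ^ N = y * ∏ j, u j ^ m j

/-- The eigenvalues of `π` on the cohomology of `Z` are roots of a nonzero rational polynomial all
of whose roots in `ℂ` lie, up to powers, in a group generated by the nonzero elements of the number
field `E` and `r` numbers. -/
def EigenvaluesOfRank [CharZero K] (E : IntermediateField ℚ ℂ) (r : ℕ) (π : Z ⟶ Z) : Prop :=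
  ∃ χ : ℚ[X], χ ≠ 0 ∧ (∀ (ρ : K) (v : H.A Z), v ≠ 0 → H.up π v = ρ • v → aeval ρ χ = 0) ∧
    GroupOfRank E r {ρ : ℂ | aeval ρ χ = 0}

/-- Every self-correspondence of degree zero of `X` which acts as zero on the cohomology is
nilpotent. This holds if the motive of `X` is finite-dimensional in the sense of Kimura and
O'Sullivan, for instance if `X` is dominated by a product of curves. -/
def Nilpotence (X : 𝒱.Obj) : Prop :=
  ∀ Γ : C.A (X.prod X), C.Deg X.dim Γ → (∀ a : H.A X, H.act (H.cl Γ) a = 0) →
    ∃ n : ℕ, iterate C Γ n = 0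

/-- Rational and numerical equivalence coincide on `X`, with rational coefficients. (The
intersection number of cycles `z`, `w` is the value of the orientation at the class of `z · w`, up
to a nonzero constant.) -/
def RatEqNum (X : 𝒱.Obj) : Prop :=
  ∀ (i : ℕ) (z : C.A X), C.Deg i z →
    (∀ (j : ℕ) (w : C.A X), i + j = X.dim → C.Deg j w → H.tr X (H.cl (C.mul z w)) = 0) → z = 0

/-- Rational and homological equivalence coincide on `X`, with rational coefficients. -/
def RatEqHom (X : 𝒱.Obj) : Prop :=
  ∀ (i : ℕ) (z : C.A X), C.Deg i z → H.cl z = 0 → z = 0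

/-- The situation of the theorems: `πA` is the Frobenius endomorphism of an abelian variety `A` over
the field with `q ^ s` elements, isogenous to a product of powers of abelian varieties coming from
the field with `q` elements with characteristic polynomials `f i`; `Z` is any variety over the field
with `q ^ s` elements, such that the eigenvalues of its Frobenius endomorphism `πZ` on the cohomology
lie up to powers in a group generated by the elements of the number field `E` and `r` numbers, and
such that homologically trivial self-correspondences of `A × Z` of degree zero are nilpotent. -/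
structure IsSituation [CharZero K] (E : IntermediateField ℚ ℂ) (q r s : ℕ) {I : Type} (f : I → ℤ[X])
    (πA : A ⟶ A) (πZ : Z ⟶ Z) : Prop where
  standard : IsStandard H
  pos : 0 < s
  abelian : IsAbelian H πA q s f
  rank : EigenvaluesOfRank H E r πZ
  nilpotence : Nilpotence H (A.prod Z)

end Pool.Agent.W484.CK
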