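import Mathlib
import Pool.Agent.W484.CK.Stm

/-!
# Chow groups of products with abelian varieties over finite fields: the property
-/

set_option autoImplicit false

open CategoryTheory AlgebraicGeometry

namespace Pool.Agent.W484.CK

open Polynomial Pool.Agent.H914 Pool.Agent.H914.VarClass Pool.Agent.H914.VarClass.Obj
  Pool.Agent.W492.BB

/-- `ChowForRankOver E q r f`: the following holds for the Chow groups `C` with rational
coefficients of all classes `𝒱` of varieties over fields `k` (finite, in the intended use),
every Weil cohomology theory `H` with coefficients in an algebraically closed field `K` of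
characteristic zero and all `A`, `Z` as in `IsSituation`, where the Frobenius endomorphism
`πA × πZ` of `A × Z` acts on its Chow groups in the usual way: the Kunneth formula holds for
the Chow groups of `A × Z`, and rational and numerical equivalence coincide on `A × Z` if and only
if they coincide on `Z`; similarly for rational and homological equivalence. -/
def ChowForRankOver (E : IntermediateField ℚ ℂ) (q r : ℕ) {I : Type} (f : I → ℤ[X]) : Prop :=
  ∀ (k : Type) [Field k] (𝒱 : VarClass k) (C : TheoryData.{0, 0, 0} 𝒱 ℚ) [IsChow C]
    (K : Type) [Field K] [IsAlgClosed K] [CharZero K] (H : WeilTheoryData.{0, 0, 0} C K)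
    [IsWeil H] (s : ℕ) (A Z : 𝒱.Obj) (πA : A ⟶ A) (πZ : Z ⟶ Z),
      IsSituation H E q r s f πA πZ → IsFrobenius C (prodMap πA πZ) (q ^ s) →
        ChowKunneth C A Z ∧ (RatEqNum H (A.prod Z) ↔ RatEqNum H Z) ∧
          (RatEqHom H (A.prod Z) ↔ RatEqHom H Z)

end Pool.Agent.W484.CK
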