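import Mathlib
import Pool.Agent.W484.CK.Stm

/-!
# Theories on which correspondences act: the property
-/

set_option autoImplicit false

open CategoryTheory AlgebraicGeometry

universe u v w

namespace Pool.Agent.W484.CK

open Polynomial Pool.Agent.H914 Pool.Agent.H914.VarClass Pool.Agent.H914.VarClass.Obj
  Pool.Agent.W492.BB

variable {k : Type u} [Field k] {𝒱 : VarClass k}

/-- Data of a theory on which correspondences act: vector spaces `M(X)` over `ℚ` with subspaces
`M^i(X)`, and an action of the classes in `CH(X × Y)` as maps `M(X) → M(Y)`. -/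
structure MotivicData (C : TheoryData.{u, v, 0} 𝒱 ℚ) where
  /-- the space `M(X)` -/
  M : 𝒱.Obj → Type v
  [group : ∀ X, AddCommGroup (M X)]
  [module : ∀ X, Module ℚ (M X)]
  /-- the space `M^i(X)` -/
  gr : ∀ X, ℤ → Submodule ℚ (M X)
  /-- the action of correspondences -/
  act : ∀ {X Y : 𝒱.Obj}, C.A (X.prod Y) →ₗ[ℚ] M X →ₗ[ℚ] M Y

attribute [instance] MotivicData.group MotivicData.module

namespace MotivicData

variable {C : TheoryData.{u, v, 0} 𝒱 ℚ} (T : MotivicData C) {X Y : 𝒱.Obj}

/-- The element `m` lies in `M^i(X)`. -/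
abbrev Deg (i : ℤ) (m : T.M X) : Prop := m ∈ T.gr X i

/-- The action of the correspondence `Γ`. -/
noncomputable abbrev app (Γ : C.A (X.prod Y)) (m : T.M X) : T.M Y := T.act Γ m

/-- `M^i(X) = 0` for all `i ≤ n`. -/
def Vanishes (X : 𝒱.Obj) (n : ℤ) : Prop := ∀ i ≤ n, ∀ m : T.M X, T.Deg i m → m = 0

end MotivicData

/-- The action of correspondences shifts the degrees as usual, and is compatible with composition
and identities. Examples: the Chow groups, the higher Chow groups `CH^i(X, m)` and the `K`-groups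
`K_m(X)^(i)`, for fixed `m`, all with rational coefficients. -/
structure IsMotivic {C : TheoryData.{u, v, 0} 𝒱 ℚ} (T : MotivicData C) : Prop where
  app_mem : ∀ {X Y : 𝒱.Obj} {i j : ℤ} {Γ : C.A (X.prod Y)} {m : T.M X}, C.Deg (X.dim + j) Γ →
    T.Deg i m → T.Deg (i + j) (T.app Γ m)
  app_comp : ∀ {X Y Z : 𝒱.Obj} (Γ : C.A (X.prod Y)) (Δ : C.A (Y.prod Z)) (m : T.M X),
    T.app (compose C Γ Δ) m = T.app Δ (T.app Γ m)
  app_id : ∀ {X : 𝒱.Obj} (m : T.M X), T.app (diagonal C X) m = m

/-- The endomorphism `π` acts on `M^i(X)` as multiplication by `Q ^ i`; here `π^*` is the action of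
the transposed graph. -/
def ActsAsPower {C : TheoryData.{u, v, 0} 𝒱 ℚ} (T : MotivicData C) {X : 𝒱.Obj} (π : X ⟶ X)
    (Q : ℕ) : Prop :=
  ∀ (i : ℤ) (m : T.M X), T.Deg i m → T.app (C.down (Obj.lift π (𝟙 X)) 1) m = (Q : ℚ) ^ i • m

/-- The correspondence `z ↦ b × z` from `Z` to `A × Z`. -/
noncomputable def timesCorr (C : TheoryData.{u, v, 0} 𝒱 ℚ) {A : 𝒱.Obj} (Z : 𝒱.Obj) (b : C.A A) :
    C.A (Z.prod (A.prod Z)) :=
  C.down (Obj.lift (snd A Z) (𝟙 (A.prod Z))) (C.up (fst A Z) b)

/-- The Kunneth formula for the theory `T` and the product `A × Z` with the classes `D j` on `A`: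
every element of `M^i(A × Z)` can be written in a unique way as the sum of the products of the
`D j` with elements `z j` of `M^(i - deg j)(Z)`. -/
def HasKunneth {C : TheoryData.{u, v, 0} 𝒱 ℚ} (T : MotivicData C) (A Z : 𝒱.Obj) {J : Type}
    [Fintype J] (deg : J → ℕ) (D : J → C.A A) : Prop :=
  ∀ (i : ℤ) (m : T.M (A.prod Z)), T.Deg i m → ∃! z : J → T.M Z,
    (∀ j, T.Deg (i - deg j) (z j)) ∧ m = ∑ j, T.app (timesCorr C Z (D j)) (z j)

/-- `MotivicForRankOver E q r f`: for the Chow groups `C` with rational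
coefficients of all classes `𝒱` of varieties over fields `k` (finite, in the intended use),
every Weil cohomology theory `H` with coefficients in an algebraically closed field `K` of
characteristic zero and all `A`, `Z` as in `IsSituation` there are products `D j`
of `deg j` divisor classes on `A`, finitely many, such that the following holds for all theories
`T` with rational coefficients on which correspondences act and such that the Frobenius
endomorphism of `A × Z` acts on `T^i(A × Z)` as multiplication by `q ^ (s i)`, for instance the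
`K`-groups `K_m` with their Adams decompositions, for every `m`: the Kunneth formula
`T^i(A × Z) = ⨁ D j × T^(i - deg j)(Z)` holds, and `T^i(A × Z) = 0` for all `i ≤ n` if and only if
`T^i(Z) = 0` for all `i ≤ n`. -/
def MotivicForRankOver (E : IntermediateField ℚ ℂ) (q r : ℕ) {I : Type} (f : I → ℤ[X]) : Prop :=
  ∀ (k : Type) [Field k] (𝒱 : VarClass k) (C : TheoryData.{0, 0, 0} 𝒱 ℚ) [IsChow C]
    (K : Type) [Field K] [IsAlgClosed K] [CharZero K] (H : WeilTheoryData.{0, 0, 0} C K)
    [IsWeil H] (s : ℕ) (A Z : 𝒱.Obj) (πA : A ⟶ A) (πZ : Z ⟶ Z),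
      IsSituation H E q r s f πA πZ →
        ∃ (J : Type) (_ : Fintype J) (deg : J → ℕ) (D : J → C.A A),
          (∀ j, DivisorProduct C (deg j) (D j)) ∧ ∀ T : MotivicData C, IsMotivic T →
            ActsAsPower T (prodMap πA πZ) (q ^ s) → HasKunneth T A Z deg D ∧
              ∀ n : ℤ, T.Vanishes (A.prod Z) n ↔ T.Vanishes Z n

end Pool.Agent.W484.CK
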