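import Mathlib
import Pool.Agent.W484.CK.Chow
import Pool.Agent.W484.CK.Motivic
import Pool.Agent.W484.CH.Conj

/-!
# The properties hold for almost all abelian varieties
-/

set_option autoImplicit false
set_option linter.unusedSectionVars false

open CategoryTheory AlgebraicGeometry

universe u v w

namespace Pool.Agent.W484.CK

open Module Polynomial Pool.Agent.H914 Pool.Agent.H914.VarClass Pool.Agent.H914.VarClass.Obj
  Pool.Agent.W492.BB Pool.Agent.W550.Corr Pool.Agent.W484.TB Pool.Agent.W484.HS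
  Pool.Agent.W521.Frob Pool.Agent.W521.Count Pool.Agent.W521.Bad Pool.Agent.W521.Descent
  Pool.Agent.W521.Density

section bridge

variable {k : Type u} [Field k] {𝒱 : VarClass k} {C : TheoryData.{u, v, 0} 𝒱 ℚ} {K : Type w}
  [Field K] {H : WeilTheoryData.{u, v, w} C K} {A X Y Z : 𝒱.Obj}

theorem isStandard_bridge (h : IsStandard H) : CH.IsStandard H where
  finite := h.finite
  nontrivial := h.nontrivial
  coh_top := fun X i hi => (Submodule.eq_bot_iff _).2 fun a ha => h.coh_top X i a hi ha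
  coh_zero := h.coh_zero
  chow_top := fun X i hi => (Submodule.eq_bot_iff _).2 fun a ha => h.chow_top X i a hi ha
  chow_zero := h.chow_zero

theorem isFrobenius_bridge {π : X ⟶ X} {Q : ℕ} (h : IsFrobenius C π Q) : CH.IsFrobenius C π Q where
  chow := h.chow
  degree := h.degree

theorem isAbelian_bridge {π : A ⟶ A} {q s : ℕ} {I : Type} {f : I → ℤ[X]}
    (h : IsAbelian H π q s f) : CH.IsAbelian H π q s f where
  frobenius := isFrobenius_bridge h.frobenius
  isGenerated := by
    rw [CH.IsGenerated, eq_top_iff]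
    intro a _
    exact h.generated _ (fun b hb => Algebra.subset_adjoin hb) a
  isAnticommutative := h.anticomm
  isSpanned := by
    refine le_antisymm (Submodule.span_le.2 fun c hc => hc.1) fun c hc => h.spanned c hc
  hasTateDivisors := fun c hc hπ => h.tate c hc hπ

theorem iterate_eq (Γ : C.A (X.prod X)) (n : ℕ) : iterate C Γ n = CH.powC C Γ n := by
  induction n with
  | zero => rfl
  | succ n ih =>
    rw [iterate, CH.powC, ih]
    rfl

theorem nilpotence_bridge (h : Nilpotence H X) : CH.Nilpotence H X := by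
  intro Γ h1 h2
  obtain ⟨n, hn⟩ := h Γ h1 h2
  exact ⟨n, by rw [← iterate_eq, hn]⟩

/-- The old form of the data. -/
noncomputable def toCorr (T : MotivicData C) : CH.CorrData C where
  M := T.M
  gr := T.gr
  act := T.act

theorem toCorr_isCorrTheory {T : MotivicData C} (h : IsMotivic T) :
    CH.IsCorrTheory (toCorr T) where
  app_mem := fun h1 h2 => h.app_mem h1 h2
  app_comp := fun Γ Δ m => h.app_comp Γ Δ m
  app_id := fun m => h.app_id m

theorem toCorr_actsAsPower {T : MotivicData C} {π : X ⟶ X} {Q : ℕ} (h : ActsAsPower T π Q) :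
    CH.ActsAsPower (toCorr T) π Q := fun i m hm => h i m hm

theorem vanishes_iff (T : MotivicData C) (X : 𝒱.Obj) (n : ℤ) :
    T.Vanishes X n ↔ ∀ i ≤ n, (toCorr T).gr X i = ⊥ := by
  constructor
  · intro h i hi
    exact (Submodule.eq_bot_iff _).2 fun m hm => h i hi m hm
  · intro h i hi m hm
    exact (Submodule.eq_bot_iff _).1 (h i hi) m hm

end bridge

section

variable {I : Type} [Finite I] (g : I → ℕ) (E : IntermediateField ℚ ℂ) [FiniteDimensional ℚ E]
  {q : ℕ} (hq : 1 < q) (r : ℕ) (hr : ∀ i, r < g i)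
  (x : (Σ i, Fin (g i)) → ℤ) (hx : GoodU (splitPrimes E) g q x)

include hq hr hx

theorem chowForRankOver_of_good : ChowForRankOver E q r (fun i => weil q (polys g x i)) := by
  intro k _ 𝒱 C _ K _ _ _ H _ s A Z πA πZ hsit hF
  obtain ⟨J, hJ, deg, D, E', hdual, hD, hK⟩ := CH.kunneth_main g E hq r hr x hx
    (isStandard_bridge hsit.standard) hsit.pos (isAbelian_bridge hsit.abelian)
    (πZ := πZ) hsit.rank (nilpotence_bridge hsit.nilpotence)
  have h1 : CH.HasKunneth (CH.chowData C) A Z deg D := CH.hasKunneth_of hdual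
    CH.chowData_isCorrTheory (hK (CH.chowData C) CH.chowData_isCorrTheory
      (CH.chowData_actsAsPower (isFrobenius_bridge hF)))
  refine ⟨⟨J, hJ, deg, D, hD, fun i y hy => ?_⟩, CH.ratEqNum_iff hdual h1,
    CH.ratEqHom_iff hdual h1⟩
  obtain ⟨z, ⟨hz1, hz2⟩, hz3⟩ := h1 i y hy
  have h2 : ∀ z' : J → C.A Z, ∑ j, times C (D j) (z' j) =
      ∑ j, (CH.chowData C).act (CH.extBy C Z (D j)) (z' j) := fun z' =>
    Finset.sum_congr rfl fun j _ => (CH.act_extBy C (D j) (z' j)).symm
  refine ⟨z, ⟨hz1, ?_⟩, fun z' hz' => hz3 z' ⟨hz'.1, ?_⟩⟩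
  · rw [h2 z]
    exact hz2
  · rw [← h2 z']
    exact hz'.2

theorem motivicForRankOver_of_good :
    MotivicForRankOver E q r (fun i => weil q (polys g x i)) := by
  intro k _ 𝒱 C _ K _ _ _ H _ s A Z πA πZ hsit
  obtain ⟨J, hJ, deg, D, E', hdual, hD, hK⟩ := CH.kunneth_main g E hq r hr x hx
    (isStandard_bridge hsit.standard) hsit.pos (isAbelian_bridge hsit.abelian)
    (πZ := πZ) hsit.rank (nilpotence_bridge hsit.nilpotence)
  refine ⟨J, hJ, deg, D, hD, fun T hT hπ => ?_⟩
  have h1 : CH.HasKunneth (toCorr T) A Z deg D := CH.hasKunneth_of hdual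
    (toCorr_isCorrTheory hT) (hK (toCorr T) (toCorr_isCorrTheory hT) (toCorr_actsAsPower hπ))
  refine ⟨h1, fun n => ?_⟩
  rw [vanishes_iff, vanishes_iff]
  exact CH.vanish_iff (toCorr_isCorrTheory hT) h1 n

end

end Pool.Agent.W484.CK
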