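import Mathlib
import Pool.Agent.W484.CK.Motivic

/-!
# Noncommutative motives: the properties
-/

set_option autoImplicit false

open CategoryTheory AlgebraicGeometry

universe u v w

namespace Pool.Agent.W484.CK

open Polynomial Pool.Agent.H914 Pool.Agent.H914.VarClass Pool.Agent.H914.VarClass.Obj
  Pool.Agent.W492.BB

variable {k : Type u} [Field k] {𝒱 : VarClass k}

/-- `e` is an idempotent in the ring of self-correspondences of `Z` of arbitrary degree, that is,
in `K_0(Z × Z)_ℚ`, identified with the Chow groups with rational coefficients by the Chern character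
multiplied by the square root of the Todd class. The pairs `(Z, e)` are the direct summands of the
noncommutative Chow motive of `Z` with rational coefficients. -/
def IsIdempotent (C : TheoryData.{u, v, 0} 𝒱 ℚ) {Z : 𝒱.Obj} (e : C.A (Z.prod Z)) : Prop :=
  compose C e e = e

/-- The self-correspondence `1 × e` of `A × Z`: the tensor product of the identity of `A` with the
self-correspondence `e` of `Z`. The pair `(A × Z, 1 × e)` is the tensor product of `A` and
`(Z, e)`. -/
noncomputable def relative (C : TheoryData.{u, v, 0} 𝒱 ℚ) (A : 𝒱.Obj) {Z : 𝒱.Obj}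
    (e : C.A (Z.prod Z)) : C.A ((A.prod Z).prod (A.prod Z)) :=
  C.down (Obj.lift (prodMap (𝟙 A) (fst Z Z)) (prodMap (𝟙 A) (snd Z Z))) (C.up (snd A (Z.prod Z)) e)

/-- Push-forwards along isomorphisms preserve the fundamental class. -/
def IsoInvariant (C : TheoryData.{u, v, 0} 𝒱 ℚ) : Prop :=
  ∀ {X Y : 𝒱.Obj} (f : X ⟶ Y) (g : Y ⟶ X), f ≫ g = 𝟙 X → g ≫ f = 𝟙 Y → C.down f 1 = 1

variable {C : TheoryData.{u, v, 0} 𝒱 ℚ}

namespace MotivicData

/-- The element `m` lies in the summand `M(Z, e)` of `M(Z)`, the image of the idempotent `e`. -/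
def Fixed (T : MotivicData C) {Z : 𝒱.Obj} (e : C.A (Z.prod Z)) (m : T.M Z) : Prop :=
  T.app e m = m

/-- `M(Z, e) = 0`. -/
def Trivial (T : MotivicData C) {Z : 𝒱.Obj} (e : C.A (Z.prod Z)) : Prop :=
  ∀ m : T.M Z, T.Fixed e m → m = 0

/-- Every element of `M(X)` is a finite sum of elements of the `M^i(X)`. -/
def IsExhausted (T : MotivicData C) : Prop :=
  ∀ (X : 𝒱.Obj) (m : T.M X), ∃ (S : Finset ℤ) (f : ℤ → T.M X), (∀ i, T.Deg i (f i)) ∧
    m = ∑ i ∈ S, f i

/-- The Kunneth formula `M(A × Z, 1 × e) = ⨁ D j × M(Z, e)`: the elements on the left are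
the sums of the products of the `D j` with elements `z j` of `M(Z, e)`, which are unique. -/
structure KunnethFor (T : MotivicData C) (A : 𝒱.Obj) {Z : 𝒱.Obj} (e : C.A (Z.prod Z)) {J : Type}
    [Fintype J] (D : J → C.A A) : Prop where
  fixed : ∀ (j : J) (z : T.M Z), T.Fixed e z →
    T.Fixed (relative C A e) (T.app (timesCorr C Z (D j)) z)
  unique : ∀ m : T.M (A.prod Z), T.Fixed (relative C A e) m →
    ∃! z : J → T.M Z, (∀ j, T.Fixed e (z j)) ∧ m = ∑ j, T.app (timesCorr C Z (D j)) (z j)

end MotivicData

/-- `NCForRankOver E q r f`: for the Chow groups `C` with rational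
coefficients of all classes `𝒱` of varieties over fields `k` (finite, in the intended use),
every Weil cohomology theory `H` with coefficients in an algebraically closed field `K` of
characteristic zero and all `A`, `Z` as in `IsSituation` there are products `D j`
of `deg j` divisor classes on `A`, finitely many, such that the following holds for all theories
`T` with rational coefficients on which correspondences act, which are exhausted by the `T^i`, and
such that the Frobenius endomorphism of `A × Z` acts on `T^i(A × Z)` as multiplication by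
`q ^ (s i)`, for instance the `K`-groups `K_n` with their Adams decompositions, for every `n`, and
all direct summands `(Z, e)` of the noncommutative motive of `Z`: the Kunneth formula
`T(A × Z, 1 × e) = ⨁ D j × T(Z, e)` holds, and `T(A × Z, 1 × e) = 0` if and only if
`T(Z, e) = 0`. -/
def NCForRankOver (E : IntermediateField ℚ ℂ) (q r : ℕ) {I : Type} (f : I → ℤ[X]) : Prop :=
  ∀ (k : Type) [Field k] (𝒱 : VarClass k) (C : TheoryData.{0, 0, 0} 𝒱 ℚ) [IsChow C],
    IsoInvariant C → ∀ (K : Type) [Field K] [IsAlgClosed K] [CharZero K]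
    (H : WeilTheoryData.{0, 0, 0} C K) [IsWeil H] (s : ℕ) (A Z : 𝒱.Obj) (πA : A ⟶ A)
    (πZ : Z ⟶ Z), IsSituation H E q r s f πA πZ →
      ∃ (J : Type) (_ : Fintype J) (deg : J → ℕ) (D : J → C.A A),
        (∀ j, DivisorProduct C (deg j) (D j)) ∧ ∀ T : MotivicData C, IsMotivic T →
          T.IsExhausted → ActsAsPower T (prodMap πA πZ) (q ^ s) →
            ∀ e : C.A (Z.prod Z), IsIdempotent C e →
              T.KunnethFor A e D ∧ (T.Trivial (relative C A e) ↔ T.Trivial e)

end Pool.Agent.W484.CK
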