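import Mathlib
import Pool.Agent.W484.CK.NC

/-!
# Noncommutative motives: numerical equivalence
-/

set_option autoImplicit false

open CategoryTheory AlgebraicGeometry

universe u v w

namespace Pool.Agent.W484.CK

open Polynomial Pool.Agent.H914 Pool.Agent.H914.VarClass Pool.Agent.H914.VarClass.Obj
  Pool.Agent.W492.BB

variable {k : Type u} [Field k] {𝒱 : VarClass k} {C : TheoryData.{u, v, 0} 𝒱 ℚ} {K : Type w}
  [Field K]

/-- The element `x` lies in `K_0(Z, e)_ℚ`, the image of the idempotent `e` in the Chow groups. -/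
def InKZero {Z : 𝒱.Obj} (e : C.A (Z.prod Z)) (x : C.A Z) : Prop := C.act e x = x

/-- The class `x` (of arbitrary degree) is numerically trivial: all the intersection numbers `x · w`
are zero. For `x` in `K_0(Z, e)` this means that `x` lies in the kernel of the Euler pairing
of `K_0(Z, e)`: by duality, the Euler pairings `χ(y, x)`, `y` in `K_0(Z, e)`, are the intersection
numbers of `x` with the elements of the image of the transpose of `e`, and `e x = x`. -/
def IsNumTrivial (H : WeilTheoryData.{u, v, w} C K) {Z : 𝒱.Obj} (x : C.A Z) : Prop :=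
  ∀ w : C.A Z, H.tr Z (H.cl (C.mul x w)) = 0

/-- The kernel of the Euler pairing of `K_0(Z, e)_ℚ` is zero. -/
def IsNondegenerate (H : WeilTheoryData.{u, v, w} C K) {Z : 𝒱.Obj} (e : C.A (Z.prod Z)) : Prop :=
  ∀ x : C.A Z, InKZero e x → IsNumTrivial H x → x = 0

/-- The Kunneth formula `K_0(A × Z, 1 × e)_ℚ = ⨁ D j × K_0(Z, e)_ℚ`, and the same for the kernels of
the Euler pairings. -/
structure KZeroKunneth (H : WeilTheoryData.{u, v, w} C K) (A : 𝒱.Obj) {Z : 𝒱.Obj}
    (e : C.A (Z.prod Z)) {J : Type} [Fintype J] (D : J → C.A A) : Prop where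
  mem : ∀ (j : J) (z : C.A Z), InKZero e z → InKZero (relative C A e) (times C (D j) z)
  unique : ∀ x : C.A (A.prod Z), InKZero (relative C A e) x →
    ∃! z : J → C.A Z, (∀ j, InKZero e (z j)) ∧ x = ∑ j, times C (D j) (z j)
  kernel : ∀ z : J → C.A Z,
    IsNumTrivial H (∑ j, times C (D j) (z j)) ↔ ∀ j, IsNumTrivial H (z j)

/-- `NCNumForRankOver E q r f`: for the Chow groups `C` with rational
coefficients of all classes `𝒱` of varieties over fields `k` (finite, in the intended use),
every Weil cohomology theory `H` with coefficients in an algebraically closed field `K` of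
characteristic zero and all `A`, `Z` as in `IsSituation` there are products `D j`
of `deg j` divisor classes on `A`, finitely many, such that the following holds for
all direct summands `(Z, e)` of the noncommutative motive of `Z`: the Kunneth formula
`K_0(A × Z, 1 × e)_ℚ = ⨁ D j × K_0(Z, e)_ℚ` holds, the same for the kernels of the Euler
pairings, and the Euler pairing of `K_0(A × Z, 1 × e)_ℚ` is nondegenerate if and only if the
one of `K_0(Z, e)_ℚ` is. -/
def NCNumForRankOver (E : IntermediateField ℚ ℂ) (q r : ℕ) {I : Type} (f : I → ℤ[X]) : Prop :=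
  ∀ (k : Type) [Field k] (𝒱 : VarClass k) (C : TheoryData.{0, 0, 0} 𝒱 ℚ) [IsChow C],
    IsoInvariant C → ∀ (K : Type) [Field K] [IsAlgClosed K] [CharZero K]
    (H : WeilTheoryData.{0, 0, 0} C K) [IsWeil H] (s : ℕ) (A Z : 𝒱.Obj) (πA : A ⟶ A)
    (πZ : Z ⟶ Z), IsSituation H E q r s f πA πZ → IsFrobenius C (prodMap πA πZ) (q ^ s) →
      ∃ (J : Type) (_ : Fintype J) (deg : J → ℕ) (D : J → C.A A),
        (∀ j, DivisorProduct C (deg j) (D j)) ∧ ∀ e : C.A (Z.prod Z), IsIdempotent C e →
          KZeroKunneth H A e D ∧ (IsNondegenerate H (relative C A e) ↔ IsNondegenerate H e)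

end Pool.Agent.W484.CK
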