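import Mathlib
import Pool.Agent.W484.CK.NCChow
import Pool.Agent.W484.CK.Main
import Pool.Agent.W484.CK.Dual2

/-!
# Noncommutative motives and products with almost all abelian varieties
-/

set_option autoImplicit false
set_option linter.unusedSectionVars false

open CategoryTheory AlgebraicGeometry

universe u v w

namespace Pool.Agent.W484.CK

open Module Polynomial Pool.Agent.H914 Pool.Agent.H914.VarClass Pool.Agent.H914.VarClass.Obj
  Pool.Agent.W492.BB Pool.Agent.W550.Corr Pool.Agent.W484.TB Pool.Agent.W484.HS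
  Pool.Agent.W521.Frob Pool.Agent.W521.Count Pool.Agent.W521.Bad Pool.Agent.W521.Descent
  Pool.Agent.W521.Density

variable {k : Type u} [Field k] {𝒱 : VarClass k}

section identity

variable {F : Type w} [Field F] {δ : ℤ} (T : TheoryData.{u, v, w} 𝒱 F) [hT : IsTheory T δ]
  {A W X Y Z V : 𝒱.Obj}

include hT in
theorem extR_extBy (b : T.A A) (e : T.A (V.prod Z)) :
    T.extR (CH.extBy T Z b) V e =
      T.pull (snd V (A.prod Z)) (T.pull (fst A Z) b) * T.pull (prodMap (𝟙 V) (snd A Z)) e := by
  rw [TheoryData.extR, CH.extBy, T.base_snd, ← T.proj_right, ← T.push_comp,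
    ← T.pull_comp (prodMap (𝟙 V) _)]
  have e1 : prodMap (𝟙 V) (Obj.lift (snd A Z) (𝟙 (A.prod Z))) ≫ u12 V Z (A.prod Z) =
      prodMap (𝟙 V) (snd A Z) := by
    apply prod_ext <;> simp [u12]
  have e2 : prodMap (𝟙 V) (Obj.lift (snd A Z) (𝟙 (A.prod Z))) ≫ u13 V Z (A.prod Z) = 𝟙 _ := by
    apply prod_ext <;> simp [u13]
  rw [e1, e2, T.push_id]

include hT in
theorem comp_relative [HasIso T] (hcomm : ∀ {X : 𝒱.Obj} (a b : T.A X), a * b = b * a)
    (b : T.A A) (e : T.A (Z.prod Z)) :
    T.comp (CH.extBy T Z b) (T.push (Obj.lift (prodMap (𝟙 A) (fst Z Z)) (prodMap (𝟙 A) (snd Z Z)))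
      (T.pull (snd A (Z.prod Z)) e)) = T.comp e (CH.extBy T Z b) := by
  have e0 : prodMap (𝟙 (A.prod Z)) (𝟙 (A.prod Z)) = 𝟙 _ := by
    apply prod_ext <;> simp
  rw [comp_eq_extR T e, extR_extBy, CH.extBy, CH.comp_span, e0, T.pull_id, ← T.proj_right,
    ← T.push_comp, ← T.pull_comp, ← T.pull_comp]
  set ψ : A.prod (Z.prod Z) ⟶ Z.prod (A.prod Z) :=
    Obj.lift (prodMap (𝟙 A) (fst Z Z)) (prodMap (𝟙 A) (snd Z Z)) ≫
      prodMap (snd A Z) (𝟙 (A.prod Z)) with hψ
  set φ : Z.prod (A.prod Z) ⟶ A.prod (Z.prod Z) :=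
    Obj.lift (snd Z (A.prod Z) ≫ fst A Z) (prodMap (𝟙 Z) (snd A Z)) with hφ
  have h1 : φ ≫ ψ = 𝟙 _ := by
    apply prod_ext
    · simp [hφ, hψ]
    · apply prod_ext <;> simp [hφ, hψ, comp_lift]
  have h2 : ψ ≫ φ = 𝟙 _ := by
    apply prod_ext
    · simp [hφ, hψ, comp_lift]
    · apply prod_ext <;> simp [hφ, hψ, comp_lift]
  rw [← pull_iso T φ ψ h1 h2, map_mul, ← T.pull_comp, ← T.pull_comp]
  have e1 : φ ≫ snd A (Z.prod Z) = prodMap (𝟙 Z) (snd A Z) := by
    simp [hφ]
  have e2 : φ ≫ (Obj.lift (prodMap (𝟙 A) (fst Z Z)) (prodMap (𝟙 A) (snd Z Z)) ≫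
      fst (A.prod Z) (A.prod Z)) ≫ fst A Z = snd Z (A.prod Z) ≫ fst A Z := by
    simp [hφ, comp_lift]
  rw [e1, e2, hcomm, ← T.pull_comp]

end identity

variable {C : TheoryData.{u, v, 0} 𝒱 ℚ} {K : Type w} [Field K] {H : WeilTheoryData.{u, v, w} C K}
  {A X Y Z : 𝒱.Obj} {J : Type} [Fintype J] {deg : J → ℕ} {D E : J → C.A A}

theorem hasIso_of_isoInvariant (h : IsoInvariant C) : HasIso C where
  push_one := h

section theoryT

variable [hC : IsChow C] (hI : IsoInvariant C) {T : MotivicData C} (hT : IsMotivic T)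

include hI hT in
theorem act_relative_ext (e : C.A (Z.prod Z)) (b : C.A A) (z : T.M Z) :
    T.app (relative C A e) (T.app (timesCorr C Z b) z) =
      T.app (timesCorr C Z b) (T.app e z) := by
  have h0 := hasIso_of_isoInvariant hI
  rw [← hT.app_comp, ← hT.app_comp]
  have h1 := comp_relative C (fun a b => chow_mul_comm a b) b e
  exact congrArg (fun Γ => T.app Γ z) h1

variable (h : CH.IsDual A Z deg D E) (hex : T.IsExhausted)
  (hK : ∀ (i : ℤ) (m : T.M (A.prod Z)), m ∈ T.gr (A.prod Z) i →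
    m = ∑ j, T.act (CH.extBy C Z (D j)) (T.act (CH.pairBy C Z (E j)) m))

include hex hK in
theorem expand_all (m : T.M (A.prod Z)) :
    m = ∑ j, T.act (CH.extBy C Z (D j)) (T.act (CH.pairBy C Z (E j)) m) := by
  obtain ⟨S, f, hf, rfl⟩ := hex (A.prod Z) m
  conv_lhs => rw [Finset.sum_congr rfl fun i _ => hK i (f i) (hf i)]
  rw [Finset.sum_comm]
  refine Finset.sum_congr rfl fun j _ => ?_
  rw [map_sum, map_sum]

include hT h in
open Classical in
theorem pair_ext_of (i j : J) (z : T.M Z) :
    T.act (CH.pairBy C Z (E j)) (T.act (CH.extBy C Z (D i)) z) = if i = j then z else 0 :=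
  CH.act_pair_ext (toCorr_isCorrTheory hT) h i j z

include hT h in
theorem pair_sum (j : J) (z : J → T.M Z) :
    T.act (CH.pairBy C Z (E j)) (∑ i, T.act (CH.extBy C Z (D i)) (z i)) = z j := by
  classical
  rw [map_sum, Finset.sum_congr rfl fun i _ => pair_ext_of hT h i j (z i), Finset.sum_ite_eq',
    if_pos (Finset.mem_univ _)]

include hI hT h hex hK in
theorem kunnethFor_of (e : C.A (Z.prod Z)) : T.KunnethFor A e D where
  fixed := fun j z hz => by
    change T.app e z = z at hz
    change T.app (relative C A e) (T.app (timesCorr C Z (D j)) z) = _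
    rw [act_relative_ext hI hT, hz]
  unique := fun m hm => by
    refine ⟨fun j => T.act (CH.pairBy C Z (E j)) m, ⟨fun j => ?_, expand_all hex hK m⟩,
      fun z hz => ?_⟩
    · have h1 := expand_all hex hK m
      have h2 : T.app (relative C A e) m = ∑ j, T.act (CH.extBy C Z (D j))
          (T.act e (T.act (CH.pairBy C Z (E j)) m)) := by
        conv_lhs => rw [h1]
        change T.act (relative C A e) _ = _
        rw [map_sum]
        exact Finset.sum_congr rfl fun j _ => act_relative_ext hI hT e (D j) _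
      have h3 := pair_sum hT h j fun j => T.act e (T.act (CH.pairBy C Z (E j)) m)
      rw [← h2, show T.app (relative C A e) m = m from hm] at h3
      exact h3.symm
    · funext j
      have h1 := pair_sum hT h j z
      rw [← h1]
      exact congrArg _ hz.2.symm

include hI hT h hex hK in
theorem trivial_iff [hJ : Nonempty J] (e : C.A (Z.prod Z)) :
    T.Trivial (relative C A e) ↔ T.Trivial e := by
  have hkf := kunnethFor_of hI hT h hex hK e
  constructor
  · intro h0 z hz
    obtain ⟨j⟩ := hJ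
    have h1 := h0 _ (hkf.fixed j z hz)
    have h2 := pair_ext_of hT h j j z
    rw [if_pos rfl] at h2
    rw [← h2]
    have h3 : T.act (CH.extBy C Z (D j)) z = 0 := h1
    rw [h3, map_zero]
  · intro h0 m hm
    obtain ⟨z, ⟨hz1, hz2⟩, -⟩ := hkf.unique m hm
    rw [hz2]
    refine Finset.sum_eq_zero fun j _ => ?_
    rw [h0 _ (hz1 j)]
    exact map_zero _

end theoryT

/-- The Chow groups as a theory. -/
noncomputable def chowMot (C : TheoryData.{u, v, 0} 𝒱 ℚ) : MotivicData C where
  M := C.A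
  gr := C.gr
  act := actB C

section chow

variable [hC : IsChow C]

theorem chowMot_isMotivic : IsMotivic (chowMot C) where
  app_mem := fun hΓ hm => CH.act_mem_chow hΓ hm
  app_comp := fun Γ Δ m => C.act_comp Γ Δ m
  app_id := fun m => act_dg C m

theorem exists_expansion (m : C.A X) : ∃ (S : Finset ℤ) (f : ℤ → C.A X),
    (∀ i, f i ∈ C.gr X i) ∧ m = ∑ i ∈ S, f i := by
  classical
  refine CH.homog_induction C (p := fun m => ∃ (S : Finset ℤ) (f : ℤ → C.A X),
    (∀ i, f i ∈ C.gr X i) ∧ m = ∑ i ∈ S, f i) ?_ ?_ m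
  · intro i a ha
    refine ⟨{i}, fun l => if l = i then a else 0, fun l => ?_, ?_⟩
    · show (if l = i then a else 0) ∈ C.gr X l
      by_cases hl : l = i
      · subst hl
        rw [if_pos rfl]
        exact ha
      · rw [if_neg hl]
        exact Submodule.zero_mem _
    · rw [Finset.sum_singleton, if_pos rfl]
  · rintro a b ⟨S, f, hf, rfl⟩ ⟨S', f', hf', rfl⟩
    refine ⟨S ∪ S', fun i => (if i ∈ S then f i else 0) + (if i ∈ S' then f' i else 0),
      fun i => ?_, ?_⟩
    · refine Submodule.add_mem _ ?_ ?_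
      · split_ifs
        · exact hf i
        · exact Submodule.zero_mem _
      · split_ifs
        · exact hf' i
        · exact Submodule.zero_mem _
    · rw [Finset.sum_add_distrib, Finset.sum_ite_mem, Finset.sum_ite_mem,
        Finset.union_inter_cancel_left, Finset.union_inter_cancel_right]

theorem chowMot_isExhausted : (chowMot C).IsExhausted := fun _ m => exists_expansion (C := C) m

theorem chowMot_actsAsPower {π : X ⟶ X} {Q : ℕ} (h : IsFrobenius C π Q) :
    ActsAsPower (chowMot C) π Q := fun i m hm => CH.act_frobenius (isFrobenius_bridge h) i m hm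

variable [CharZero K] [hH : IsWeil H] (h : CH.IsDual A Z deg D E)

theorem app_ext_chow (b : C.A A) (z : C.A Z) :
    (chowMot C).app (timesCorr C Z b) z = times C b z := CH.act_extBy C b z

theorem app_pair_chow (b : C.A A) (x : C.A (A.prod Z)) :
    (chowMot C).act (CH.pairBy C Z b) x = C.push (snd A Z) (C.pull (fst A Z) b * x) :=
  CH.act_pairBy C b x

include h in
theorem numTrivial_iff (z : J → C.A Z) :
    IsNumTrivial H (∑ j, times C (D j) (z j)) ↔ ∀ j, IsNumTrivial H (z j) := by
  constructor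
  · intro h0 j w
    have h1 := pair_sum (chowMot_isMotivic (C := C)) h j z
    have h2 : (∑ i, (chowMot C).act (CH.extBy C Z (D i)) (z i)) = ∑ i, times C (D i) (z i) :=
      Finset.sum_congr rfl fun i _ => app_ext_chow (D i) (z i)
    rw [h2] at h1
    have h3 : C.push (snd A Z) (C.pull (fst A Z) (E j) * ∑ i, times C (D i) (z i)) = z j :=
      (app_pair_chow _ _).symm.trans h1
    change H.tr Z (H.cl (z j * w)) = 0
    rw [← h3, ← C.proj_right, H.cl_push, H.tr_push]
    have h4 : C.pull (fst A Z) (E j) * (∑ i, times C (D i) (z i)) * C.pull (snd A Z) w =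
        (∑ i, times C (D i) (z i)) * (C.pull (fst A Z) (E j) * C.pull (snd A Z) w) := by
      rw [chow_mul_comm (C.pull (fst A Z) (E j)), mul_assoc]
    rw [h4]
    exact h0 _
  · intro h0 w
    change H.tr _ (H.cl ((∑ j, times C (D j) (z j)) * w)) = 0
    rw [Finset.sum_mul, map_sum, map_sum]
    refine Finset.sum_eq_zero fun j _ => ?_
    have h1 : times C (D j) (z j) * w =
        C.pull (snd A Z) (z j) * (C.pull (fst A Z) (D j) * w) := by
      change C.pull (fst A Z) (D j) * C.pull (snd A Z) (z j) * w = _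
      rw [chow_mul_comm (C.pull (fst A Z) (D j)), mul_assoc]
    rw [h1, ← H.tr_push (snd A Z), ← H.cl_push, C.proj_left]
    exact h0 j _

variable (hI : IsoInvariant C)
  (hK : ∀ (i : ℤ) (m : C.A (A.prod Z)), m ∈ C.gr (A.prod Z) i →
    m = ∑ j, (chowMot C).act (CH.extBy C Z (D j)) ((chowMot C).act (CH.pairBy C Z (E j)) m))

include hI h hK in
theorem kzeroKunneth_of (e : C.A (Z.prod Z)) : KZeroKunneth H A e D where
  mem := fun j z hz => by
    have h1 := (kunnethFor_of hI chowMot_isMotivic h chowMot_isExhausted hK e).fixed j z hz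
    rw [app_ext_chow] at h1
    exact h1
  unique := fun x hx => by
    have h1 := (kunnethFor_of hI chowMot_isMotivic h chowMot_isExhausted hK e).unique x hx
    obtain ⟨z, ⟨hz1, hz2⟩, hz3⟩ := h1
    have h2 : ∀ z' : J → C.A Z, (∑ i, (chowMot C).app (timesCorr C Z (D i)) (z' i)) =
        ∑ i, times C (D i) (z' i) := fun z' =>
      Finset.sum_congr rfl fun i _ => app_ext_chow (D i) (z' i)
    exact ⟨z, ⟨hz1, hz2.trans (h2 z)⟩, fun z' hz' => hz3 z' ⟨hz'.1, hz'.2.trans (h2 z').symm⟩⟩
  kernel := numTrivial_iff h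

include hI h hK in
theorem nondegenerate_iff [hJ : Nonempty J] (e : C.A (Z.prod Z)) :
    IsNondegenerate H (relative C A e) ↔ IsNondegenerate H e := by
  classical
  have hkz := kzeroKunneth_of (H := H) h hI hK e
  constructor
  · intro h0 z hz hnum
    obtain ⟨j⟩ := hJ
    have h1 : times C (D j) z = ∑ i, times C (D i) (if i = j then z else 0) := by
      rw [Finset.sum_eq_single j]
      · rw [if_pos rfl]
      · intro i _ hij
        rw [if_neg hij]
        change C.pull (fst A Z) (D i) * C.pull (snd A Z) 0 = 0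
        rw [map_zero, mul_zero]
      · intro hj
        exact absurd (Finset.mem_univ j) hj
    have h2 : times C (D j) z = 0 := by
      refine h0 _ (hkz.mem j z hz) ?_
      rw [h1]
      refine (numTrivial_iff h _).2 fun i => ?_
      by_cases hij : i = j
      · rw [if_pos hij]
        exact hnum
      · rw [if_neg hij]
        intro w
        change H.tr Z (H.cl (0 * w)) = 0
        rw [zero_mul, map_zero, map_zero]
    have h3 := (pair_ext_of (chowMot_isMotivic (C := C)) h j j z).trans (if_pos rfl)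
    have h4 : (chowMot C).act (CH.extBy C Z (D j)) z = 0 := (app_ext_chow (D j) z).trans h2
    rw [h4, map_zero] at h3
    exact h3.symm
  · intro h0 x hx hnum
    obtain ⟨z, ⟨hz1, hz2⟩, -⟩ := hkz.unique x hx
    rw [hz2] at hnum
    rw [hz2]
    refine Finset.sum_eq_zero fun j _ => ?_
    rw [h0 _ (hz1 j) ((numTrivial_iff h z).1 hnum j)]
    change C.pull (fst A Z) (D j) * C.pull (snd A Z) 0 = 0
    rw [map_zero, mul_zero]

end chow

section

variable {I : Type} [Finite I] (g : I → ℕ) (E : IntermediateField ℚ ℂ) [FiniteDimensional ℚ E]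
  {q : ℕ} (hq : 1 < q) (r : ℕ) (hr : ∀ i, r < g i)
  (x : (Σ i, Fin (g i)) → ℤ) (hx : GoodU (splitPrimes E) g q x)

include hq hr hx

theorem ncForRankOver_of_good : NCForRankOver E q r (fun i => weil q (polys g x i)) := by
  intro k _ 𝒱 C _ hI K _ _ _ H _ s A Z πA πZ hsit
  obtain ⟨J, hJ, deg, D, E', hne, hdual, hD, hE, hK⟩ := CH.kunneth_both g E hq r hr x hx
    (isStandard_bridge hsit.standard) hsit.pos (isAbelian_bridge hsit.abelian)
    (πZ := πZ) hsit.rank (nilpotence_bridge hsit.nilpotence)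
  refine ⟨J, hJ, deg, D, hD, fun T hT hex hπ e _ => ?_⟩
  have hT' := fun i m hm => (hK (toCorr T) (toCorr_isCorrTheory hT)
    (toCorr_actsAsPower hπ) i m hm).1
  exact ⟨kunnethFor_of hI hT hdual hex hT' e, trivial_iff hI hT hdual hex hT' e⟩

theorem ncNumForRankOver_of_good : NCNumForRankOver E q r (fun i => weil q (polys g x i)) := by
  intro k _ 𝒱 C _ hI K _ _ _ H _ s A Z πA πZ hsit hF
  obtain ⟨J, hJ, deg, D, E', hne, hdual, hD, hE, hK⟩ := CH.kunneth_both g E hq r hr x hx
    (isStandard_bridge hsit.standard) hsit.pos (isAbelian_bridge hsit.abelian)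
    (πZ := πZ) hsit.rank (nilpotence_bridge hsit.nilpotence)
  have hT' := fun i m hm => (hK (toCorr (chowMot C)) (toCorr_isCorrTheory chowMot_isMotivic)
    (toCorr_actsAsPower (chowMot_actsAsPower hF)) i m hm).1
  exact ⟨J, hJ, deg, D, hD, fun e _ => ⟨kzeroKunneth_of hdual hI hT' e,
    nondegenerate_iff hdual hI hT' e⟩⟩

end

end Pool.Agent.W484.CK
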