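import Mathlib
import Pool.Agent.W484.CK.Stm

/-!
# Bloch-Beilinson filtrations over finite fields: statements
-/

set_option autoImplicit false

open CategoryTheory AlgebraicGeometry

universe u v w

namespace Pool.Agent.W484.CK

open Polynomial Pool.Agent.H914 Pool.Agent.H914.VarClass Pool.Agent.H914.VarClass.Obj
  Pool.Agent.W492.BB

variable {k : Type u} [Field k] {𝒱 𝒵 : VarClass k}

/-- The class `𝒵` of varieties is contained in the class `𝒱`. -/
def IsSubclass (𝒵 𝒱 : VarClass k) : Prop := ∀ X, 𝒵.mem X → 𝒱.mem X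

/-- A variety of the class `𝒵`, as a variety of the larger class `𝒱`. -/
def incl (h : IsSubclass 𝒵 𝒱) (Z : 𝒵.Obj) : 𝒱.Obj := ⟨Z.V, h _ Z.mem⟩

/-- The restriction of the theory `T` to the subclass `𝒵`. -/
noncomputable def restrict {F : Type w} [Field F] (h : IsSubclass 𝒵 𝒱)
    (T : TheoryData.{u, v, w} 𝒱 F) : TheoryData.{u, v, w} 𝒵 F where
  A := fun Z => T.A (incl h Z)
  ring := fun Z => T.ring (incl h Z)
  algebra := fun Z => T.algebra (incl h Z)
  gr := fun Z => T.gr (incl h Z)
  pull := fun {X Y} f => T.pull (X := incl h X) (Y := incl h Y) f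
  push := fun {X Y} f => T.push (X := incl h X) (Y := incl h Y) f

variable {C : TheoryData.{u, v, 0} 𝒱 ℚ} {K : Type w} [Field K]

/-- The restriction of the Weil cohomology theory `H` to the subclass `𝒵`. -/
noncomputable def restrictWeil (h : IsSubclass 𝒵 𝒱) (H : WeilTheoryData.{u, v, w} C K) :
    WeilTheoryData.{u, v, w} (restrict h C) K where
  toTheoryData := restrict h H.toTheoryData
  tr := fun Z => H.tr (incl h Z)
  cl := fun {Z} => H.cl (X := incl h Z)

/-- A Bloch-Beilinson filtration exists on the Chow groups of the varieties of the class. -/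
def HasBB (H : WeilTheoryData.{u, v, w} C K) : Prop := ∃ F : Filtration C, IsBB H F

/-- The variety `X` is dominated by `Y`: there is a morphism `g` from `Y` to `X` (a surjective one)
and a class `w` on `Y` with `g_* w = 1`. -/
def Dominated (C : TheoryData.{u, v, 0} 𝒱 ℚ) (X Y : 𝒱.Obj) : Prop :=
  ∃ (g : Y ⟶ X) (w : C.A Y), C.down g w = 1

/-- The endomorphisms `π X` have the properties of the Frobenius endomorphisms over the field with
`Q` elements: they act on the Chow groups in the usual way, the Frobenius endomorphism of a product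
is the product of the Frobenius endomorphisms, and (Deligne) the eigenvalues in degree `l` are
algebraic numbers all of whose complex conjugates have the absolute value `Q ^ (l / 2)`. -/
structure IsFrobeniusSystem (H : WeilTheoryData.{u, v, w} C K) [CharZero K]
    (π : ∀ X : 𝒱.Obj, X ⟶ X) (Q : ℕ) : Prop where
  frobenius : ∀ X, IsFrobenius C (π X) Q
  prod : ∀ X Y, prodMap (π X) (π Y) = π (X.prod Y)
  weights : ∀ (X : 𝒱.Obj) (l : ℤ) (ρ : K) (a : H.A X), H.Deg l a → a ≠ 0 →
    H.up (π X) a = ρ • a →
    ∃ χ : ℚ[X], χ ≠ 0 ∧ aeval ρ χ = 0 ∧ ∀ z : ℂ, aeval z χ = 0 → ‖z‖ ^ 2 = (Q : ℝ) ^ l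

/-- `BBForRankOver E q r f`: the following holds for the Chow groups `C` with rational
coefficients of all classes `𝒱` of varieties over fields `k` (finite, in the intended use),
every Weil cohomology theory `H` with coefficients in an algebraically closed field `K` of
characteristic zero, with Frobenius endomorphisms `π X` over the field with `q ^ s` elements.
Let `𝒵` be a subclass (closed under products, like `𝒱`), such that every variety of the class `𝒱`
is dominated by a product `A × Z` with `Z` in `𝒵` and `A`, `Z` as in `IsSituation`. Then a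
Bloch-Beilinson filtration exists on the class `𝒱` if and only if it exists on the class `𝒵`, and
if and only if rational and homological equivalence coincide on the varieties in `𝒵`. -/
def BBForRankOver (E : IntermediateField ℚ ℂ) (q r : ℕ) {I : Type} (f : I → ℤ[X]) : Prop :=
  ∀ (k : Type) [Field k] (𝒱 𝒵 : VarClass k) (hle : IsSubclass 𝒵 𝒱)
    (C : TheoryData.{0, 0, 0} 𝒱 ℚ) [IsChow C] (K : Type) [Field K] [IsAlgClosed K] [CharZero K]
    (H : WeilTheoryData.{0, 0, 0} C K) [IsWeil H] (s : ℕ) (π : ∀ X : 𝒱.Obj, X ⟶ X),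
    IsFrobeniusSystem H π (q ^ s) →
    (∀ X : 𝒱.Obj, ∃ (A : 𝒱.Obj) (Z : 𝒵.Obj), IsSituation H E q r s f (π A) (π (incl hle Z)) ∧
      Dominated C X (A.prod (incl hle Z))) →
    (HasBB H ↔ HasBB (restrictWeil hle H)) ∧
      (HasBB H ↔ ∀ Z : 𝒵.Obj, RatEqHom H (incl hle Z))

end Pool.Agent.W484.CK
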