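import Mathlib
import Pool.Agent.W484.CK.BB
import Pool.Agent.W484.CK.Main

/-!
# Bloch-Beilinson filtrations over finite fields: lemmas
-/

set_option autoImplicit false
set_option linter.unusedSectionVars false

open CategoryTheory AlgebraicGeometry

universe u v w

namespace Pool.Agent.W484.CK

open Module Polynomial Pool.Agent.H914 Pool.Agent.H914.VarClass Pool.Agent.H914.VarClass.Obj
  Pool.Agent.W492.BB Pool.Agent.W550.Corr

section linear

variable {K : Type*} [Field K] {V : Type*} [AddCommGroup V] [Module K V]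

theorem coe_aeval_restrict {p : Submodule K V} (φ : End K V) (h : ∀ x ∈ p, φ x ∈ p) (P : K[X])
    (x : p) : ((aeval (φ.restrict h) P) x : V) = (aeval φ P) x := by
  induction P using Polynomial.induction_on' generalizing x with
  | add P Q hP hQ => simp [map_add, LinearMap.add_apply, hP, hQ]
  | monomial n a =>
    rw [aeval_monomial, aeval_monomial, Module.End.mul_apply, Module.End.mul_apply,
      Module.algebraMap_end_apply, Module.algebraMap_end_apply, Submodule.coe_smul]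
    congr 1
    induction n generalizing x with
    | zero => simp
    | succ n ih =>
      rw [pow_succ, pow_succ, Module.End.mul_apply, Module.End.mul_apply, ih]
      rfl

theorem exists_annihilator [FiniteDimensional K V] [IsAlgClosed K] [CharZero K] {p : Submodule K V}
    (φ : End K V) (h : ∀ x ∈ p, φ x ∈ p) (R : ℚ[X] → Prop) (h1 : R 1)
    (hmul : ∀ P Q, R P → R Q → R (P * Q))
    (hR : ∀ (ρ : K) (v : V), v ∈ p → v ≠ 0 → φ v = ρ • v → ∃ χ : ℚ[X], aeval ρ χ = 0 ∧ R χ) :
    ∃ M : ℚ[X], R M ∧ ∀ v ∈ p, (aeval φ (M.map (algebraMap ℚ K))) v = 0 := by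
  classical
  set ψ : End K p := φ.restrict h with hψ
  have hroot : ∀ ρ : K, ∃ χ : ℚ[X], R χ ∧ (ρ ∈ ψ.charpoly.roots → aeval ρ χ = 0) := by
    intro ρ
    by_cases hρ : ρ ∈ ψ.charpoly.roots
    · rw [mem_roots ψ.charpoly_monic.ne_zero] at hρ
      obtain ⟨v, hv⟩ := ((Module.End.hasEigenvalue_iff_isRoot_charpoly ψ ρ).2
        hρ).exists_hasEigenvector
      have h2 : φ (v : V) = ρ • (v : V) := by
        have h3 := congrArg (Subtype.val) hv.apply_eq_smul
        exact h3
      obtain ⟨χ, h4, h5⟩ := hR ρ v v.2 (fun h0 => hv.2 (Subtype.ext h0)) h2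
      exact ⟨χ, h5, fun _ => h4⟩
    · exact ⟨1, h1, fun h0 => absurd h0 hρ⟩
  choose c hc1 hc2 using hroot
  set M : ℚ[X] := (ψ.charpoly.roots.map c).prod with hM
  refine ⟨M, ?_, fun v hv => ?_⟩
  · rw [hM]
    generalize ψ.charpoly.roots = S
    induction S using Multiset.induction_on with
    | empty => simpa using h1
    | cons a S ih =>
      rw [Multiset.map_cons, Multiset.prod_cons]
      exact hmul _ _ (hc1 a) ih
  · have h2 : ψ.charpoly ∣ M.map (algebraMap ℚ K) := by
      rw [(IsAlgClosed.splits ψ.charpoly).eq_prod_roots_of_monic ψ.charpoly_monic, hM,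
        Polynomial.map_multiset_prod, Multiset.map_map]
      refine Multiset.prod_dvd_prod_of_dvd _ _ fun μ hμ => ?_
      rw [Function.comp_apply, dvd_iff_isRoot, IsRoot.def, Polynomial.eval_map, ← aeval_def]
      exact hc2 μ hμ
    obtain ⟨G, hG⟩ := h2
    have h3 : aeval ψ (M.map (algebraMap ℚ K)) = 0 := by
      rw [hG, map_mul, LinearMap.aeval_self_charpoly, zero_mul]
    have h4 := coe_aeval_restrict φ h (M.map (algebraMap ℚ K)) ⟨v, hv⟩
    rw [← hψ, h3] at h4
    exact h4.symm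

end linear

variable {k : Type u} [Field k] {𝒱 𝒵 : VarClass k} {C : TheoryData.{u, v, 0} 𝒱 ℚ} {K : Type w}
  [Field K] {H : WeilTheoryData.{u, v, w} C K}

section weights

variable [hC : IsChow C] [hH : IsWeil H] [IsAlgClosed K] [CharZero K] (hS : IsStandard H)
  {π : ∀ X : 𝒱.Obj, X ⟶ X} {Q : ℕ} (hQ : 1 < Q) (hπ : IsFrobeniusSystem H π Q)

include hQ hπ in
theorem weight_eq (X : 𝒱.Obj) (l : ℤ) (i : ℕ) (a : H.A X) (ha : H.Deg l a) (h0 : a ≠ 0)
    (he : H.up (π X) a = (Q : K) ^ i • a) : l = 2 * i := by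
  obtain ⟨χ, -, hχ, hz⟩ := hπ.weights X l _ a ha h0 he
  have h1 : χ.eval ((Q : ℚ) ^ i) = 0 := by
    have h2 : ((Q : K) ^ i) = algebraMap ℚ K ((Q : ℚ) ^ i) := by simp
    rw [h2, aeval_algebraMap_apply, coe_aeval_eq_eval] at hχ
    exact (map_eq_zero _).1 hχ
  have h3 : aeval ((Q : ℂ) ^ i) χ = 0 := by
    have h2 : ((Q : ℂ) ^ i) = algebraMap ℚ ℂ ((Q : ℚ) ^ i) := by simp
    rw [h2, aeval_algebraMap_apply, coe_aeval_eq_eval, h1, map_zero]
  have h4 := hz _ h3
  rw [norm_pow, Complex.norm_natCast, ← pow_mul, ← zpow_natCast] at h4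
  have h5 : (1 : ℝ) < Q := by exact_mod_cast hQ
  have h6 := zpow_right_injective₀ (by positivity) h5.ne' h4
  push_cast at h6
  omega

include hS hπ in
theorem exists_weight_poly (X : 𝒱.Obj) (l : ℤ) :
    ∃ M : ℚ[X], (∀ z : ℂ, aeval z M = 0 → ‖z‖ ^ 2 = (Q : ℝ) ^ l) ∧
      ∀ v ∈ H.gr X l, (aeval (CH.frob H (π X)) (M.map (algebraMap ℚ K))) v = 0 := by
  have hfin : Module.Finite K (H.A X) := hS.finite X
  refine exists_annihilator (CH.frob H (π X)) (fun x hx => H.pull_mem (π X) hx)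
    (fun M => ∀ z : ℂ, aeval z M = 0 → ‖z‖ ^ 2 = (Q : ℝ) ^ l) ?_ ?_ ?_
  · intro z hz
    rw [map_one] at hz
    exact absurd hz one_ne_zero
  · intro P P' hP hP' z hz
    rw [map_mul] at hz
    rcases mul_eq_zero.1 hz with h | h
    · exact hP z h
    · exact hP' z h
  · intro ρ v hv h0 he
    obtain ⟨χ, -, h2, h3⟩ := hπ.weights X l ρ v hv h0 he
    exact ⟨χ, h2, h3⟩

include hS hQ hπ in
/-- **Kunneth projectors** (Katz and Messing). -/
theorem kunnethConjecture : KunnethConjecture H := by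
  classical
  intro X m
  choose M hM1 hM2 using exists_weight_poly hS hπ X
  have hcop : IsCoprime (∏ l ∈ (Finset.Icc (0 : ℤ) (2 * X.dim)).erase m, M l) (M m) := by
    refine IsCoprime.prod_left fun l hl => ?_
    rw [Polynomial.isCoprime_iff_aeval_ne_zero_of_isAlgClosed ℚ ℂ]
    intro z
    by_contra hcon
    push Not at hcon
    have h2 := hM1 l z hcon.1
    rw [hM1 m z hcon.2] at h2
    have h5 : (1 : ℝ) < Q := by exact_mod_cast hQ
    have h6 := zpow_right_injective₀ (by positivity) h5.ne' h2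
    exact (Finset.mem_erase.1 hl).1 h6.symm
  obtain ⟨a, b, hab⟩ := hcop
  set N : ℚ[X] := ∏ l ∈ (Finset.Icc (0 : ℤ) (2 * X.dim)).erase m, M l with hN
  refine ⟨CH.polyC (π X) (a * N), CH.polyC_mem _ _, fun l c hc => ?_⟩
  rw [CH.act_cl_polyC]
  change c ∈ H.gr X l at hc
  by_cases hl : l = m
  · rw [if_pos hl]
    have h2 : a * N = 1 - b * M m := eq_sub_iff_add_eq.2 hab
    rw [h2, Polynomial.map_sub, Polynomial.map_one, Polynomial.map_mul, map_sub, map_one, map_mul,
      LinearMap.sub_apply, Module.End.one_apply, Module.End.mul_apply, hM2 m c (hl ▸ hc), map_zero,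
      sub_zero]
  · rw [if_neg hl]
    by_cases hl' : l ∈ Finset.Icc (0 : ℤ) (2 * X.dim)
    · have h2 : M l ∣ N := Finset.dvd_prod_of_mem _ (Finset.mem_erase.2 ⟨hl, hl'⟩)
      obtain ⟨N', hN'⟩ := h2
      rw [hN', mul_left_comm, mul_comm (M l), Polynomial.map_mul, map_mul, Module.End.mul_apply,
        hM2 l c hc, map_zero]
    · have h2 : c = 0 := by
        rcases lt_or_ge l 0 with h | h
        · have h3 := H.gr_neg X l h
          rw [h3, Submodule.mem_bot] at hc
          exact hc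
        · refine hS.coh_top X l c ?_ hc
          rw [Finset.mem_Icc, not_and_or] at hl'
          omega
      rw [h2, map_zero]

include hS hQ hπ in
theorem exists_kill (X : 𝒱.Obj) (i n : ℕ) (hn : 0 < n) :
    ∃ Γ : C.A (X.prod X), C.Deg X.dim Γ ∧ Kills H Γ (2 * i - n) ∧
      ∀ x : C.A X, C.Deg i x → C.act Γ x = x := by
  obtain ⟨M, hM1, hM2⟩ := exists_weight_poly hS hπ X (2 * i - n)
  have hM3 : M.eval ((Q : ℚ) ^ (i : ℤ)) ≠ 0 := by
    intro h0
    have h3 : aeval ((Q : ℂ) ^ i) M = 0 := by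
      have h2 : ((Q : ℂ) ^ i) = algebraMap ℚ ℂ ((Q : ℚ) ^ (i : ℤ)) := by simp
      rw [h2, aeval_algebraMap_apply, coe_aeval_eq_eval, h0, map_zero]
    have h4 := hM1 _ h3
    rw [norm_pow, Complex.norm_natCast, ← pow_mul, ← zpow_natCast] at h4
    have h5 : (1 : ℝ) < Q := by exact_mod_cast hQ
    have h6 := zpow_right_injective₀ (by positivity) h5.ne' h4
    push_cast at h6
    omega
  refine ⟨CH.polyC (π X) (Polynomial.C (M.eval ((Q : ℚ) ^ (i : ℤ)))⁻¹ * M), CH.polyC_mem _ _, ?_,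
    ?_⟩
  · intro a ha
    rw [CH.act_cl_polyC, Polynomial.map_mul, map_mul, Module.End.mul_apply, hM2 a ha, map_zero]
  · intro x hx
    have h1 := CH.act_polyC (CH.chowData_isCorrTheory (C := C))
      (CH.chowData_actsAsPower (isFrobenius_bridge (hπ.frobenius X))) (i := (i : ℤ)) (m := x) hx
      (Polynomial.C (M.eval ((Q : ℚ) ^ (i : ℤ)))⁻¹ * M)
    rw [eval_mul, eval_C, inv_mul_cancel₀ hM3] at h1
    exact h1.trans (one_smul ℚ x)

include hS hQ hπ in
/-- A filtration of one Chow group with the properties of Bloch and Beilinson is trivial. -/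
theorem eq_zero_of_filtration (X : 𝒱.Obj) (i : ℕ) (Fil : ℕ → C.A X → Prop)
    (hdeg : ∀ n x, Fil n x → C.Deg i x) (htop : ∀ x, Fil (i + 1) x → x = 0)
    (hmot : ∀ (n : ℕ) (Γ : C.A (X.prod X)), C.Deg X.dim Γ → Kills H Γ (2 * i - n) →
      ∀ x, Fil n x → Fil (n + 1) (C.act Γ x)) (x : C.A X) (hx : Fil 1 x) : x = 0 := by
  have h1 : ∀ n : ℕ, Fil (n + 1) x := by
    intro n
    induction n with
    | zero => exact hx
    | succ n ih =>
      obtain ⟨Γ, h1, h2, h3⟩ := exists_kill hS hQ hπ X i (n + 1) n.succ_pos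
      have h4 := hmot (n + 1) Γ h1 h2 x ih
      rwa [h3 x (hdeg _ x ih)] at h4
  exact htop x (h1 i)

end weights

section build

variable [CharZero K]

/-- The trivial filtration. -/
noncomputable def trivialFiltration (C : TheoryData.{u, v, 0} 𝒱 ℚ) : Filtration C where
  F := fun X i n => if n = 0 then C.gr X i else ⊥
  le_gr := by
    intro X i n
    by_cases h : n = 0
    · rw [if_pos h]
    · rw [if_neg h]
      exact bot_le
  anti := by
    intro X i n
    rw [if_neg n.succ_ne_zero]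
    exact bot_le

theorem mem_trivial_zero {X : 𝒱.Obj} {i : ℕ} {x : C.A X} :
    (trivialFiltration C).Mem i 0 x ↔ C.Deg i x := by
  change x ∈ (if (0 : ℕ) = 0 then C.gr X i else ⊥) ↔ _
  rw [if_pos rfl]

theorem mem_trivial_pos {X : 𝒱.Obj} {i n : ℕ} (hn : n ≠ 0) {x : C.A X} :
    (trivialFiltration C).Mem i n x ↔ x = 0 := by
  change x ∈ (if n = 0 then C.gr X i else ⊥) ↔ _
  rw [if_neg hn, Submodule.mem_bot]

theorem hasBB_of
    (hmul : ∀ {X : 𝒱.Obj} {i j : ℕ} {x y : C.A X}, C.Deg i x → C.Deg j y →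
      C.Deg ((i + j : ℕ) : ℤ) (C.mul x y))
    (hpull : ∀ {X Y : 𝒱.Obj} (f : X ⟶ Y) {i : ℕ} {y : C.A Y}, C.Deg i y → C.Deg i (C.up f y))
    (hpush : ∀ {X Y : 𝒱.Obj} (f : X ⟶ Y) {i j : ℕ} {x : C.A X}, i + Y.dim = j + X.dim →
      C.Deg i x → C.Deg j (C.down f x))
    (hact : ∀ {X : 𝒱.Obj} {i : ℕ} (Γ : C.A (X.prod X)) (x : C.A X), C.Deg X.dim Γ → C.Deg i x →
      C.Deg i (C.act Γ x) ∧ H.cl (C.act Γ x) = H.act (H.cl Γ) (H.cl x))
    (hcl : ∀ {X : 𝒱.Obj} {i : ℕ} {x : C.A X}, C.Deg i x → H.Deg (2 * (i : ℤ)) (H.cl x))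
    (hrat : ∀ X : 𝒱.Obj, RatEqHom H X) : HasBB H := by
  refine ⟨trivialFiltration C, ⟨⟨?_, ?_, ?_⟩, ⟨?_, ?_, ?_⟩, ?_⟩⟩
  · intro X i x
    exact mem_trivial_zero
  · intro X i x
    rw [mem_trivial_pos one_ne_zero]
    constructor
    · rintro rfl
      exact ⟨Submodule.zero_mem _, map_zero _⟩
    · rintro ⟨h1, h2⟩
      exact hrat X i x h1 h2
  · intro X i x hx
    exact (mem_trivial_pos i.succ_ne_zero).1 hx
  · intro X i j m n x y hx hy
    by_cases hm : m = 0
    · by_cases hn : n = 0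
      · subst hm
        subst hn
        exact mem_trivial_zero.2 (hmul (mem_trivial_zero.1 hx) (mem_trivial_zero.1 hy))
      · rw [(mem_trivial_pos hn).1 hy]
        change x * 0 ∈ _
        rw [mul_zero]
        exact Submodule.zero_mem _
    · rw [(mem_trivial_pos hm).1 hx]
      change 0 * y ∈ _
      rw [zero_mul]
      exact Submodule.zero_mem _
  · intro X Y f i n y hy
    by_cases hn : n = 0
    · subst hn
      exact mem_trivial_zero.2 (hpull f (mem_trivial_zero.1 hy))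
    · rw [(mem_trivial_pos hn).1 hy]
      change C.pull f 0 ∈ _
      rw [map_zero]
      exact Submodule.zero_mem _
  · intro X Y f i j n x hij hx
    by_cases hn : n = 0
    · subst hn
      exact mem_trivial_zero.2 (hpush f hij (mem_trivial_zero.1 hx))
    · rw [(mem_trivial_pos hn).1 hx]
      change C.push f 0 ∈ _
      rw [map_zero]
      exact Submodule.zero_mem _
  · intro _ X i n Γ hΓ hK x hx
    rw [mem_trivial_pos n.succ_ne_zero]
    by_cases hn : n = 0
    · subst hn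
      have h1 := mem_trivial_zero.1 hx
      obtain ⟨h2, h3⟩ := hact Γ x hΓ h1
      refine hrat X i _ h2 ?_
      rw [h3]
      refine hK _ ?_
      have h4 := hcl h1
      rwa [Nat.cast_zero, sub_zero]
    · rw [(mem_trivial_pos hn).1 hx]
      exact C.act_map_zero Γ

end build

end Pool.Agent.W484.CK
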