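import Mathlib
import Pool.Agent.W484.CK.BBLemmas

/-!
# Bloch-Beilinson filtrations over finite fields: the theorem
-/

set_option autoImplicit false
set_option linter.unusedSectionVars false

open CategoryTheory AlgebraicGeometry

universe u v w

namespace Pool.Agent.W484.CK

open Module Polynomial Pool.Agent.H914 Pool.Agent.H914.VarClass Pool.Agent.H914.VarClass.Obj
  Pool.Agent.W492.BB Pool.Agent.W550.Corr Pool.Agent.W484.TB Pool.Agent.W484.HS
  Pool.Agent.W521.Frob Pool.Agent.W521.Count Pool.Agent.W521.Bad Pool.Agent.W521.Descent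
  Pool.Agent.W521.Density

variable {k : Type u} [Field k] {𝒱 𝒵 : VarClass k} {C : TheoryData.{u, v, 0} 𝒱 ℚ} {K : Type w}
  [Field K] {H : WeilTheoryData.{u, v, w} C K}

section

variable [hC : IsChow C] [hH : IsWeil H] [IsAlgClosed K] [CharZero K] (hS : IsStandard H)
  {π : ∀ X : 𝒱.Obj, X ⟶ X} {Q : ℕ} (hQ : 1 < Q) (hπ : IsFrobeniusSystem H π Q)

include hS hQ hπ in
theorem ratEqHom_of_hasBB (h : HasBB H) (X : 𝒱.Obj) : RatEqHom H X := by
  obtain ⟨F, hF⟩ := h
  intro i z hz hcl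
  refine eq_zero_of_filtration hS hQ hπ X i (fun n x => F.Mem i n x) ?_ ?_ ?_ z ?_
  · intro n x hx
    exact F.le_gr X i n hx
  · intro x hx
    exact hF.bounded.top X i x hx
  · intro n Γ hΓ hK x hx
    exact hF.motivic (kunnethConjecture hS hQ hπ) X i n Γ hΓ hK x hx
  · exact (hF.bounded.one X i z).2 ⟨hz, hcl⟩

include hS hQ hπ in
theorem ratEqHom_of_hasBB_restrict (hle : IsSubclass 𝒵 𝒱) (h : HasBB (restrictWeil hle H))
    (Z : 𝒵.Obj) : RatEqHom H (incl hle Z) := by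
  obtain ⟨F, hF⟩ := h
  intro i z hz hcl
  have hKC : KunnethConjecture (restrictWeil hle H) := by
    intro X m
    exact kunnethConjecture hS hQ hπ (incl hle X) m
  refine eq_zero_of_filtration hS hQ hπ (incl hle Z) i (fun n x => F.Mem (X := Z) i n x)
    ?_ ?_ ?_ z ?_
  · intro n x hx
    exact F.le_gr Z i n hx
  · intro x hx
    exact hF.bounded.top Z i x hx
  · intro n Γ hΓ hK x hx
    exact hF.motivic hKC Z i n Γ hΓ hK x hx
  · exact (hF.bounded.one Z i z).2 ⟨hz, hcl⟩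

omit hH [IsAlgClosed K] in
theorem push_mem_nat {X Y : 𝒱.Obj} (f : X ⟶ Y) {i j : ℕ} {x : C.A X}
    (hij : i + Y.dim = j + X.dim) (hx : C.Deg i x) : C.Deg j (C.down f x) := by
  have h1 := C.push_mem f hx
  have h2 : (i : ℤ) + 1 * ((Y.dim : ℤ) - X.dim) = j := by omega
  rwa [h2] at h1

omit [IsAlgClosed K] in
theorem act_facts {X : 𝒱.Obj} {i : ℕ} (Γ : C.A (X.prod X)) (x : C.A X)
    (hΓ : C.Deg X.dim Γ) (hx : C.Deg i x) :
    C.Deg i (C.act Γ x) ∧ H.cl (C.act Γ x) = H.act (H.cl Γ) (H.cl x) := by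
  constructor
  · have h1 : C.Deg ((X.dim : ℤ) + 0) Γ := by rwa [add_zero]
    have h2 := CH.act_mem_chow h1 hx
    rwa [add_zero] at h2
  · rw [C.act_apply, H.cl_push, map_mul, H.cl_pull, H.act_apply]

omit [IsAlgClosed K] in
theorem hasBB_of_ratEqHom (h : ∀ X : 𝒱.Obj, RatEqHom H X) : HasBB H := by
  refine hasBB_of ?_ ?_ ?_ ?_ ?_ h
  · intro X i j x y hx hy
    have h1 := C.mul_mem hx hy
    push_cast
    exact h1
  · intro X Y f i y hy
    exact C.pull_mem f hy
  · intro X Y f i j x hij hx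
    exact push_mem_nat f hij hx
  · intro X i Γ x hΓ hx
    exact act_facts Γ x hΓ hx
  · intro X i x hx
    exact H.cl_mem hx

omit [IsAlgClosed K] in
theorem hasBB_restrict_of_ratEqHom (hle : IsSubclass 𝒵 𝒱)
    (h : ∀ Z : 𝒵.Obj, RatEqHom H (incl hle Z)) : HasBB (restrictWeil hle H) := by
  refine hasBB_of ?_ ?_ ?_ ?_ ?_ h
  · intro X i j x y hx hy
    have h1 := C.mul_mem (X := incl hle X) hx hy
    push_cast
    exact h1
  · intro X Y f i y hy
    exact C.pull_mem (X := incl hle X) (Y := incl hle Y) f hy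
  · intro X Y f i j x hij hx
    exact push_mem_nat (X := incl hle X) (Y := incl hle Y) f hij hx
  · intro X i Γ x hΓ hx
    exact act_facts (X := incl hle X) Γ x hΓ hx
  · intro X i x hx
    exact H.cl_mem (X := incl hle X) hx

omit [IsAlgClosed K] in
theorem ratEqHom_of_dominated {X Y : 𝒱.Obj} (h : Dominated C X Y) (hY : RatEqHom H Y) :
    RatEqHom H X := by
  obtain ⟨g, w, hw⟩ := h
  intro i z hz hcl
  have h1 : C.pull g z = 0 := hY i _ (C.pull_mem g hz) (by rw [H.cl_pull, hcl, map_zero])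
  have h2 := C.proj_right g w z
  rw [h1, mul_zero, map_zero] at h2
  change C.push g w = 1 at hw
  rw [hw, one_mul] at h2
  exact h2.symm

end

section

variable {I : Type} [Finite I] (g : I → ℕ) (E : IntermediateField ℚ ℂ) [FiniteDimensional ℚ E]
  {q : ℕ} (hq : 1 < q) (r : ℕ) (hr : ∀ i, r < g i)
  (x : (Σ i, Fin (g i)) → ℤ) (hx : GoodU (splitPrimes E) g q x)

include hq hr hx

theorem bbForRankOver_of_good : BBForRankOver E q r (fun i => weil q (polys g x i)) := by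
  intro k _ 𝒱 𝒵 hle C _ K _ _ _ H _ s π hπ hdom
  have hchow := chowForRankOver_of_good g E hq r hr x hx k 𝒱 C K H s
  have hQ : ∀ X : 𝒱.Obj, IsStandard H ∧ 1 < q ^ s := by
    intro X
    obtain ⟨A, Z, hs, -⟩ := hdom X
    exact ⟨hs.standard, Nat.one_lt_pow hs.pos.ne' hq⟩
  have h1 : HasBB H → ∀ X : 𝒱.Obj, RatEqHom H X := fun h X =>
    ratEqHom_of_hasBB (hQ X).1 (hQ X).2 hπ h X
  have h2 : (∀ Z : 𝒵.Obj, RatEqHom H (incl hle Z)) → ∀ X : 𝒱.Obj, RatEqHom H X := by
    intro h X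
    obtain ⟨A, Z, hs, hd⟩ := hdom X
    refine ratEqHom_of_dominated hd ?_
    have h3 : IsFrobenius C (prodMap (π A) (π (incl hle Z))) (q ^ s) := by
      rw [hπ.prod]
      exact hπ.frobenius _
    exact ((hchow A (incl hle Z) (π A) (π (incl hle Z)) hs h3).2.2).2 (h Z)
  refine ⟨⟨fun h => ?_, fun h => ?_⟩, ⟨fun h Z => h1 h (incl hle Z), fun h =>
    hasBB_of_ratEqHom (h2 h)⟩⟩
  · exact hasBB_restrict_of_ratEqHom hle fun Z => h1 h (incl hle Z)
  · exact hasBB_of_ratEqHom (h2 fun Z =>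
      ratEqHom_of_hasBB_restrict (hQ (incl hle Z)).1 (hQ (incl hle Z)).2 hπ hle h Z)

end

end Pool.Agent.W484.CK
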