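import Mathlib
import Pool.Agent.W484.CK.BB

/-!
# The conjectures of Murre: statements
-/

set_option autoImplicit false

open CategoryTheory AlgebraicGeometry

universe u v w

namespace Pool.Agent.W484.CK

open Polynomial Pool.Agent.H914 Pool.Agent.H914.VarClass Pool.Agent.H914.VarClass.Obj
  Pool.Agent.W492.BB

variable {k : Type u} [Field k] {𝒱 : VarClass k} {C : TheoryData.{u, v, 0} 𝒱 ℚ} {K : Type w}
  [Field K]

/-- `p` is an idempotent correspondence of degree zero of `X`, and defines the motive `(X, p)`. (The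
additional twist `n` of a general motive `(X, p, n)` only shifts the indices in the conjectures.) -/
structure IsProjector (C : TheoryData.{u, v, 0} 𝒱 ℚ) {X : 𝒱.Obj} (p : C.A (X.prod X)) : Prop where
  deg : C.Deg X.dim p
  idem : compose C p p = p

/-- The motive `(X, p)` is the direct sum of the motives `(X, P i)`, `i` an integer, almost all of
them zero, and `(X, P i)` has the cohomology `H^i(X, p)`, for every `i`: a Chow-Kunneth
decomposition. -/
structure IsChowKunneth (H : WeilTheoryData.{u, v, w} C K) {X : 𝒱.Obj} (p : C.A (X.prod X))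
    (P : ℤ → C.A (X.prod X)) : Prop where
  projector : ∀ i, IsProjector C (P i)
  orthogonal : ∀ i j, i ≠ j → compose C (P i) (P j) = 0
  sum : ∃ S : Finset ℤ, (∀ i, i ∉ S → P i = 0) ∧ ∑ i ∈ S, P i = p
  cohomology : ∀ (i m : ℤ) (a : H.A X), H.Deg m a →
    H.act (H.cl (P i)) a = if m = i then H.act (H.cl p) a else 0

/-- The class `x` lies in the step `F^ν CH^j(X, p) = ⨁ CH^j(X, P i)`, `i ≤ 2 j - ν`, of the
filtration given by the Chow-Kunneth decomposition. -/
def InStep {X : 𝒱.Obj} (p : C.A (X.prod X)) (P : ℤ → C.A (X.prod X)) (j ν : ℤ) (x : C.A X) :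
    Prop :=
  C.Deg j x ∧ C.act p x = x ∧ ∀ i : ℤ, 2 * j - ν < i → C.act (P i) x = 0

/-- The conjectures of Murre for the motive `(X, p)`. With cohomological indices they are:
(A) there is a Chow-Kunneth decomposition;
(B) it can be taken with `CH^j(X, P i) = 0` for `i > 2 j`;
(D) at the same time with `CH^j(X, P (2 j))_hom = 0`;
(C) all Chow-Kunneth decompositions define the same filtrations. -/
structure IsMurre (H : WeilTheoryData.{u, v, w} C K) {X : 𝒱.Obj} (p : C.A (X.prod X)) :
    Prop where
  decomposition : ∃ P : ℤ → C.A (X.prod X), IsChowKunneth H p P ∧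
    (∀ (i j : ℤ) (x : C.A X), C.Deg j x → 2 * j < i → C.act (P i) x = 0) ∧
    ∀ (j : ℤ) (x : C.A X), C.Deg j x → C.act (P (2 * j)) x = x → H.cl x = 0 → x = 0
  unique : ∀ P P' : ℤ → C.A (X.prod X), IsChowKunneth H p P → IsChowKunneth H p P' →
    ∀ (j ν : ℤ) (x : C.A X), InStep p P j ν x ↔ InStep p P' j ν x

/-- The conjectures of Murre hold for all motives `(X, p)`. -/
def MurreFor (H : WeilTheoryData.{u, v, w} C K) (X : 𝒱.Obj) : Prop :=
  ∀ p : C.A (X.prod X), IsProjector C p → IsMurre H p

/-- Push-forwards along isomorphisms preserve the fundamental class. -/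
def PreservesOne (C : TheoryData.{u, v, 0} 𝒱 ℚ) : Prop :=
  ∀ {X Y : 𝒱.Obj} (f : X ⟶ Y) (g : Y ⟶ X), f ≫ g = 𝟙 X → g ≫ f = 𝟙 Y → C.down f 1 = 1

/-- `MurreForRankOver E q r f`: the following holds for the Chow groups `C` with rational
coefficients of all classes `𝒱` of varieties over fields `k` (finite, in the intended use),
every Weil cohomology theory `H` with coefficients in an algebraically closed field `K` of
characteristic zero, with Frobenius endomorphisms `π X` over the field with `q ^ s` elements, all
`A`, `Z` as in `IsSituation`, and all varieties `X` dominated by `A × Z`, with `Nilpotence` for `Z`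
and `X`: the conjectures of Murre hold for all motives `(A × Z, p)` if and only if they hold for all
motives `(Z, p)`; this is the case if and only if rational and homological equivalence coincide on
`Z`; and then the conjectures of Murre hold for all motives `(X, p)`. -/
def MurreForRankOver (E : IntermediateField ℚ ℂ) (q r : ℕ) {I : Type} (f : I → ℤ[X]) : Prop :=
  ∀ (k : Type) [Field k] (𝒱 : VarClass k) (C : TheoryData.{0, 0, 0} 𝒱 ℚ) [IsChow C],
    PreservesOne C → ∀ (K : Type) [Field K] [IsAlgClosed K] [CharZero K]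
    (H : WeilTheoryData.{0, 0, 0} C K) [IsWeil H] (s : ℕ) (π : ∀ X : 𝒱.Obj, X ⟶ X),
    IsFrobeniusSystem H π (q ^ s) →
    ∀ A Z : 𝒱.Obj, IsSituation H E q r s f (π A) (π Z) → Nilpotence H Z →
      (MurreFor H (A.prod Z) ↔ MurreFor H Z) ∧ (MurreFor H Z ↔ RatEqHom H Z) ∧
      ∀ X : 𝒱.Obj, Dominated C X (A.prod Z) → Nilpotence H X → MurreFor H Z → MurreFor H X

end Pool.Agent.W484.CK
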