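import Mathlib
import Pool.Agent.W484.CK.Murre
import Pool.Agent.W484.CK.BBLemmas

/-!
# The ring of self-correspondences, and the Frobenius endomorphism
-/

set_option autoImplicit false
set_option linter.unusedSectionVars false

open CategoryTheory AlgebraicGeometry

universe u v w

namespace Pool.Agent.W484.CK

open Module Polynomial Pool.Agent.H914 Pool.Agent.H914.VarClass Pool.Agent.H914.VarClass.Obj
  Pool.Agent.W492.BB Pool.Agent.W550.Corr

variable {k : Type u} [Field k] {𝒱 : VarClass k}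

theorem hasIso_of {C : TheoryData.{u, v, 0} 𝒱 ℚ} (h : PreservesOne C) : HasIso C where
  push_one := h

section cograph

variable {F : Type w} [Field F] {δ : ℤ} (T : TheoryData.{u, v, w} 𝒱 F) [hT : IsTheory T δ]
  {W X Y Z V : 𝒱.Obj}

include hT in
theorem extR_cograph (f : X ⟶ Y) (c : T.A (V.prod Y)) :
    T.extR (T.cograph f) V c = T.pull (prodMap (𝟙 V) f) c := by
  rw [TheoryData.extR, TheoryData.cograph, T.base_snd, ← T.proj_right, ← T.push_comp, map_one,
    one_mul, ← T.pull_comp]
  have e1 : prodMap (𝟙 V) (Obj.lift f (𝟙 X)) ≫ u12 V Y X = prodMap (𝟙 V) f := by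
    apply prod_ext <;> simp [u12]
  have e2 : prodMap (𝟙 V) (Obj.lift f (𝟙 X)) ≫ u13 V Y X = 𝟙 _ := by
    apply prod_ext <;> simp [u13]
  rw [e1, e2, T.push_id]

include hT in
theorem comp_cograph_right [HasIso T] (f : Y ⟶ X) (Γ : T.A (V.prod X)) :
    T.comp Γ (T.cograph f) = T.pull (prodMap (𝟙 V) f) Γ := by
  rw [comp_eq_extR, extR_cograph]

end cograph

section commute

variable {C : TheoryData.{u, v, 0} 𝒱 ℚ} [hC : IsChow C] [HasIso C] {X Y : 𝒱.Obj}

theorem comp_frob_comm {π : X ⟶ X} {Q : ℕ} (hQ : Q ≠ 0) (hπ : CH.IsFrobenius C π Q)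
    (hππ : CH.IsFrobenius C (prodMap π π) Q) {Γ : C.A (X.prod X)} (hΓ : C.Deg X.dim Γ) :
    C.comp (C.cograph π) Γ = C.comp Γ (C.cograph π) := by
  rw [CH.comp_cograph, comp_cograph_right]
  have h1 : C.pull (prodMap π π) Γ = (Q : ℚ) ^ X.dim • Γ := hππ.chow X.dim Γ hΓ
  have h2 : prodMap π (𝟙 X) ≫ prodMap (𝟙 X) π = prodMap π π := by
    apply prod_ext <;> simp
  have h3 : C.push (prodMap π (𝟙 X)) 1 = (Q : ℚ) ^ X.dim • (1 : C.A (X.prod X)) := by
    have h4 := C.base_fst π X 1
    have h5 : C.push π 1 = (Q : ℚ) ^ X.dim • (1 : C.A X) := hπ.degree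
    rw [h5, map_smul, map_one (C.pull (fst X X))] at h4
    exact h4.symm
  have h4 : C.push (prodMap π (𝟙 X)) (C.pull (prodMap π π) Γ) =
      (Q : ℚ) ^ X.dim • C.pull (prodMap (𝟙 X) π) Γ := by
    rw [← h2, C.pull_comp]
    have h5 := C.proj_right (prodMap π (𝟙 X)) 1 (C.pull (prodMap (𝟙 X) π) Γ)
    rw [one_mul, h3, smul_mul_assoc, one_mul] at h5
    exact h5
  rw [h1, map_smul] at h4
  have hQ0 : ((Q : ℚ) ^ X.dim) ≠ 0 := pow_ne_zero _ (by exact_mod_cast hQ)
  exact smul_right_injective _ hQ0 h4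

end commute

/-- The ring of self-correspondences of `X`. -/
def SC (C : TheoryData.{u, v, 0} 𝒱 ℚ) (X : 𝒱.Obj) : Type v := C.A (X.prod X)

namespace SC

variable {C : TheoryData.{u, v, 0} 𝒱 ℚ} {X : 𝒱.Obj}

noncomputable instance : AddCommGroup (SC C X) := inferInstanceAs (AddCommGroup (C.A (X.prod X)))

noncomputable instance : Module ℚ (SC C X) := inferInstanceAs (Module ℚ (C.A (X.prod X)))

noncomputable instance [hC : IsChow C] [HasIso C] : Ring (SC C X) :=
  { (inferInstance : AddCommGroup (SC C X)) with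
    mul := fun a b => C.comp a b
    one := dg C X
    mul_assoc := fun a b c => comp_assoc C a b c
    one_mul := fun a => dg_comp C a
    mul_one := fun a => comp_dg C a
    left_distrib := fun a b c => comp_add C a b c
    right_distrib := fun a b c => add_comp C a b c
    zero_mul := fun a => zero_comp C a
    mul_zero := fun a => comp_zero C a }

variable [hC : IsChow C] [HasIso C]

/-- A self-correspondence, as an element of the ring. -/
def of (a : C.A (X.prod X)) : SC C X := a

theorem of_comp (a b : C.A (X.prod X)) : of (C.comp a b) = of a * of b := rfl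

theorem of_inj {a b : C.A (X.prod X)} (h : of a = of b) : a = b := h

noncomputable instance : Algebra ℚ (SC C X) :=
  Algebra.ofModule (fun r x y => by
    have h1 := LinearMap.congr_fun (map_smul (compL C (X := X) (Y := X) (Z := X)) r x) y
    exact h1) (fun r x y => map_smul (compL C (X := X) (Y := X) (Z := X) x) r y)

theorem pow_eq (a : C.A (X.prod X)) (n : ℕ) : of a ^ n = of (CH.powC C a n) := by
  induction n with
  | zero => rfl
  | succ n ih => rw [pow_succ, ih]; rfl

/-- The Frobenius correspondence. -/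
noncomputable def fr (C : TheoryData.{u, v, 0} 𝒱 ℚ) (π : X ⟶ X) : SC C X := of (C.cograph π)

theorem fr_pow (π : X ⟶ X) (n : ℕ) : fr C π ^ n = of (C.cograph (CH.iter π n)) := by
  induction n with
  | zero => rfl
  | succ n ih =>
    rw [pow_succ', ih, fr, ← of_comp, CH.cograph_comp]
    rfl

theorem aeval_fr (π : X ⟶ X) (P : ℚ[X]) : aeval (fr C π) P = of (CH.polyC (C := C) π P) := by
  rw [aeval_def, eval₂_eq_sum, Polynomial.sum, CH.polyC]
  refine Finset.sum_congr rfl fun l _ => ?_
  rw [← Algebra.smul_def, fr_pow]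
  rfl

end SC

end Pool.Agent.W484.CK
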