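import Mathlib
import Pool.Agent.W484.CK.SelfCorr
import Pool.Agent.W484.CK.BBMain

/-!
# The conjectures of Murre over finite fields
-/

set_option autoImplicit false
set_option linter.unusedSectionVars false

open CategoryTheory AlgebraicGeometry

universe u v w

namespace Pool.Agent.W484.CK

open Module Polynomial Pool.Agent.H914 Pool.Agent.H914.VarClass Pool.Agent.H914.VarClass.Obj
  Pool.Agent.W492.BB Pool.Agent.W550.Corr Pool.Agent.W484.TB Pool.Agent.W484.HS
  Pool.Agent.W521.Frob Pool.Agent.W521.Count Pool.Agent.W521.Bad Pool.Agent.W521.Descent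
  Pool.Agent.W521.Density

section ring

variable {R : Type*} [Ring R] [Algebra ℚ R]

theorem commute_aeval {a φ : R} (h : Commute a φ) (P : ℚ[X]) : Commute a (aeval φ P) := by
  induction P using Polynomial.induction_on' with
  | add P Q hP hQ => rw [map_add]; exact hP.add_right hQ
  | monomial n c =>
    rw [aeval_monomial]
    exact Commute.mul_right (Algebra.commutes c a).symm (h.pow_right n)

theorem aeval_eq_zero_of_dvd {ι : Type*} {φ : R} {I : Finset ι} {m : ι → ℚ[X]}
    (hcop : ∀ i ∈ I, ∀ j ∈ I, i ≠ j → IsCoprime (m i) (m j)) (h0 : aeval φ (∏ i ∈ I, m i) = 0)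
    {P : ℚ[X]} (hP : ∀ i ∈ I, m i ∣ P) : aeval φ P = 0 := by
  obtain ⟨G, hG⟩ := Finset.prod_dvd_of_coprime (t := I) (s := m) (z := P)
    (fun i hi j hj hij => hcop i hi j hj hij) hP
  rw [hG, map_mul, h0, zero_mul]

theorem exists_idempotents {ι : Type*} [DecidableEq ι] {φ : R} {I : Finset ι} {m : ι → ℚ[X]}
    (hcop : ∀ i ∈ I, ∀ j ∈ I, i ≠ j → IsCoprime (m i) (m j))
    (h0 : aeval φ (∏ i ∈ I, m i) = 0) :
    ∃ r : ι → ℚ[X], (∀ i, i ∉ I → r i = 0) ∧ (∀ i ∈ I, m i ∣ 1 - r i) ∧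
      (∀ i, ∀ l ∈ I, l ≠ i → m l ∣ r i) ∧
      (∀ i, aeval φ (r i) * aeval φ (r i) = aeval φ (r i)) ∧
      (∀ i j, i ≠ j → aeval φ (r i) * aeval φ (r j) = 0) ∧ ∑ i ∈ I, aeval φ (r i) = 1 := by
  have h1 : ∀ i, ∃ r : ℚ[X], (i ∉ I → r = 0) ∧ (i ∈ I → m i ∣ 1 - r) ∧
      ∀ l ∈ I, l ≠ i → m l ∣ r := by
    intro i
    by_cases hi : i ∈ I
    · have h2 : IsCoprime (m i) (∏ l ∈ I.erase i, m l) := by
        refine IsCoprime.prod_right fun l hl => ?_
        exact hcop i hi l (Finset.mem_of_mem_erase hl) (Finset.ne_of_mem_erase hl).symm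
      obtain ⟨a, b, hab⟩ := h2
      refine ⟨b * ∏ l ∈ I.erase i, m l, fun h => absurd hi h, fun _ => ⟨a, ?_⟩, fun l hl hli => ?_⟩
      · rw [← hab]
        ring
      · exact Dvd.dvd.mul_left (Finset.dvd_prod_of_mem _ (Finset.mem_erase.2 ⟨hli, hl⟩)) _
    · exact ⟨0, fun _ => rfl, fun h => absurd h hi, fun _ _ _ => dvd_zero _⟩
  choose r hr1 hr2 hr3 using h1
  refine ⟨r, hr1, hr2, hr3, fun i => ?_, fun i j hij => ?_, ?_⟩
  · rw [← map_mul, ← sub_eq_zero, ← map_sub]
    refine aeval_eq_zero_of_dvd hcop h0 fun l hl => ?_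
    by_cases hli : l = i
    · subst hli
      obtain ⟨c, hc⟩ := hr2 l hl
      exact ⟨-(r l * c), by linear_combination -(r l) * hc⟩
    · obtain ⟨c, hc⟩ := hr3 i l hl hli
      exact ⟨c * r i - c, by linear_combination (r i - 1) * hc⟩
  · rw [← map_mul]
    refine aeval_eq_zero_of_dvd hcop h0 fun l hl => ?_
    by_cases hli : l = i
    · subst hli
      exact Dvd.dvd.mul_left (hr3 j l hl hij) _
    · exact Dvd.dvd.mul_right (hr3 i l hl hli) _
  · rw [← map_sum, ← sub_eq_zero, ← map_one (aeval φ : ℚ[X] →ₐ[ℚ] R), ← map_sub]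
    refine aeval_eq_zero_of_dvd hcop h0 fun l hl => ?_
    rw [← Finset.add_sum_erase I r hl]
    have h2 : m l ∣ ∑ x ∈ I.erase l, r x := Finset.dvd_sum fun x hx =>
      hr3 x l hl (Finset.ne_of_mem_erase hx).symm
    obtain ⟨c, hc⟩ := h2
    obtain ⟨d, hd⟩ := hr2 l hl
    exact ⟨c - d, by linear_combination hc - hd⟩

end ring

variable {k : Type u} [Field k] {𝒱 : VarClass k} {C : TheoryData.{u, v, 0} 𝒱 ℚ} {K : Type w}
  [Field K] {H : WeilTheoryData.{u, v, w} C K}

section

variable [hC : IsChow C] [hH : IsWeil H] [hI : HasIso C] [IsAlgClosed K] [CharZero K]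
  (hS : IsStandard H) {π : ∀ X : 𝒱.Obj, X ⟶ X} {Q : ℕ} (hQ : 1 < Q)
  (hπ : IsFrobeniusSystem H π Q) {X : 𝒱.Obj} (hnil : Nilpotence H X)

include hS in
omit hI [IsAlgClosed K] [CharZero K] in
theorem eq_zero_outside {l : ℤ} (hl : l ∉ Finset.Icc (0 : ℤ) (2 * X.dim)) {c : H.A X}
    (hc : c ∈ H.gr X l) : c = 0 := by
  rcases lt_or_ge l 0 with h | h
  · have h3 := H.gr_neg X l h
    rw [h3, Submodule.mem_bot] at hc
    exact hc
  · refine hS.coh_top X l c ?_ hc
    rw [Finset.mem_Icc, not_and_or] at hl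
    omega

include hQ in
omit hH hC hI in
theorem coprime_of_weights {P P' : ℚ[X]} {l m : ℤ} (hlm : l ≠ m)
    (h1 : ∀ z : ℂ, aeval z P = 0 → ‖z‖ ^ 2 = (Q : ℝ) ^ l)
    (h2 : ∀ z : ℂ, aeval z P' = 0 → ‖z‖ ^ 2 = (Q : ℝ) ^ m) : IsCoprime P P' := by
  rw [Polynomial.isCoprime_iff_aeval_ne_zero_of_isAlgClosed ℚ ℂ]
  intro z
  by_contra hcon
  push Not at hcon
  have h3 := h1 z hcon.1
  rw [h2 z hcon.2] at h3
  have h5 : (1 : ℝ) < Q := by exact_mod_cast hQ
  exact hlm (zpow_right_injective₀ (by positivity) h5.ne' h3).symm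

include hπ hQ in
theorem commute_fr {Γ : C.A (X.prod X)} (hΓ : C.Deg X.dim Γ) :
    Commute (SC.of Γ) (SC.fr C (π X)) := by
  have h1 := isFrobenius_bridge (hπ.frobenius X)
  have h2 := isFrobenius_bridge (hπ.frobenius (X.prod X))
  rw [← hπ.prod] at h2
  exact congrArg SC.of (comp_frob_comm (by omega) h1 h2 hΓ).symm

omit hI [IsAlgClosed K] in
theorem act_aeval_cl (P : ℚ[X]) (a : H.A X) :
    H.act (H.cl (CH.polyC (C := C) (π X) P)) a =
      (aeval (CH.frob H (π X)) (P.map (algebraMap ℚ K))) a := CH.act_cl_polyC _ _ _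

omit hI [IsAlgClosed K] [CharZero K] in
theorem actH_mem_zero {Γ : C.A (X.prod X)} (hΓ : C.Deg X.dim Γ) {m : ℤ} {a : H.A X}
    (ha : a ∈ H.gr X m) : H.act (H.cl Γ) a ∈ H.gr X m := by
  have h1 := H.cl_mem hΓ
  have h2 := H.push_mem (snd X X) (H.mul_mem h1 (H.pull_mem (fst X X) ha))
  have h3 : 2 * (X.dim : ℤ) + m + 2 * ((X.dim : ℤ) - (X.prod X).dim) = m := by
    rw [Obj.dim_prod]
    push_cast
    ring
  rw [h3] at h2
  exact h2

omit hI [IsAlgClosed K] in
theorem aeval_kill {M P : ℚ[X]} (hMP : M ∣ P) {a : H.A X}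
    (ha : (aeval (CH.frob H (π X)) (M.map (algebraMap ℚ K))) a = 0) :
    (aeval (CH.frob H (π X)) (P.map (algebraMap ℚ K))) a = 0 := by
  obtain ⟨c, rfl⟩ := hMP
  rw [mul_comm, Polynomial.map_mul, map_mul, Module.End.mul_apply, ha, map_zero]

include hS hQ hπ hnil in
/-- **Chow-Kunneth decompositions exist.** -/
theorem exists_chowKunneth {p : C.A (X.prod X)} (hp : IsProjector C p) :
    ∃ P, IsChowKunneth H p P := by
  classical
  choose M hM1 hM2 using exists_weight_poly hS hπ X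
  set I : Finset ℤ := Finset.Icc (0 : ℤ) (2 * X.dim) with hIdef
  set G : ℚ[X] := ∏ l ∈ I, M l with hG
  have hGH : ∀ a : H.A X, H.act (H.cl (CH.polyC (C := C) (π X) G)) a = 0 := by
    intro a
    refine CH.homog_induction H.toTheoryData
      (p := fun a => H.act (H.cl (CH.polyC (C := C) (π X) G)) a = 0) ?_ ?_ a
    · intro l a ha
      beta_reduce
      by_cases hl : l ∈ I
      · rw [act_aeval_cl]
        exact aeval_kill (Finset.dvd_prod_of_mem _ hl) (hM2 l a ha)
      · rw [eq_zero_outside hS hl ha, H.act_map_zero]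
    · intro a b ha hb
      beta_reduce at ha hb ⊢
      rw [act_map_add, ha, hb, add_zero]
  obtain ⟨n, hn⟩ := hnil (CH.polyC (C := C) (π X) G) (CH.polyC_mem _ _) hGH
  have hn' : aeval (SC.fr C (π X)) (∏ l ∈ I, M l ^ (n + 1)) = 0 := by
    rw [Finset.prod_pow, ← hG, map_pow, SC.aeval_fr, pow_succ, SC.pow_eq, ← iterate_eq, hn]
    exact zero_comp C _
  have hcop : ∀ i ∈ I, ∀ j ∈ I, i ≠ j → IsCoprime (M i ^ (n + 1)) (M j ^ (n + 1)) :=
    fun i _ j _ hij => (coprime_of_weights hQ hij (hM1 i) (hM1 j)).pow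
  obtain ⟨r, hr1, hr2, hr3, hr4, hr5, hr6⟩ := exists_idempotents hcop hn'
  have hcomm : ∀ i, Commute (SC.of p) (aeval (SC.fr C (π X)) (r i)) := fun i =>
    commute_aeval (commute_fr hQ hπ hp.deg) _
  have hpp : SC.of p * SC.of p = SC.of p := congrArg SC.of hp.idem
  have hPi : ∀ i, SC.of (C.comp p (CH.polyC (π X) (r i))) =
      SC.of p * aeval (SC.fr C (π X)) (r i) := fun i => by rw [SC.of_comp, SC.aeval_fr]
  have hmul : ∀ i j, SC.of (C.comp p (CH.polyC (π X) (r i))) *
      SC.of (C.comp p (CH.polyC (π X) (r j))) = SC.of p *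
        (aeval (SC.fr C (π X)) (r i) * aeval (SC.fr C (π X)) (r j)) := by
    intro i j
    rw [hPi, hPi, mul_assoc, ← mul_assoc (aeval (SC.fr C (π X)) (r i)), ← (hcomm i).eq, mul_assoc,
      ← mul_assoc (SC.of p) (SC.of p), hpp]
  refine ⟨fun i => C.comp p (CH.polyC (π X) (r i)), ⟨fun i => ⟨?_, ?_⟩,
    fun i j hij => ?_, ⟨I, fun i hi => ?_, ?_⟩, fun i m a ha => ?_⟩⟩
  · exact CH.comp_mem hp.deg (CH.polyC_mem _ _)
  · have h1 := hmul i i
    rw [hr4, ← hPi] at h1
    exact SC.of_inj h1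
  · have h1 := hmul i j
    rw [hr5 i j hij, mul_zero] at h1
    exact SC.of_inj h1
  · beta_reduce
    have h1 := hPi i
    rw [hr1 i hi, map_zero, mul_zero] at h1
    rw [hr1 i hi]
    exact SC.of_inj h1
  · have h1 : ∑ i ∈ I, SC.of (C.comp p (CH.polyC (π X) (r i))) = SC.of p := by
      rw [Finset.sum_congr rfl fun i _ => hPi i, ← Finset.mul_sum, hr6, mul_one]
    exact h1
  · beta_reduce
    rw [CH.act_cl_comp, act_aeval_cl]
    have hb := actH_mem_zero (H := H) hp.deg ha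
    set b := H.act (H.cl p) a with hbdef
    by_cases hm : m ∈ I
    · by_cases hmi : m = i
      · subst hmi
        rw [if_pos rfl]
        obtain ⟨c, hc⟩ := hr2 m hm
        have h2 : r m = 1 - M m ^ (n + 1) * c := by rw [← hc]; ring
        rw [h2, Polynomial.map_sub, Polynomial.map_one, map_sub, map_one, LinearMap.sub_apply,
          Module.End.one_apply, aeval_kill (Dvd.dvd.mul_right (dvd_pow_self (M m) n.succ_ne_zero) c)
            (hM2 m b hb), sub_zero]
      · rw [if_neg hmi]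
        exact aeval_kill ((dvd_pow_self (M m) n.succ_ne_zero).trans (hr3 i m hm hmi))
          (hM2 m b hb)
    · have hb0 : b = 0 := eq_zero_outside hS hm hb
      rw [hb0, map_zero, ite_self]

include hS hQ hπ hnil in
/-- The components of a cycle of codimension `j` of weight different from `2 j` are zero. -/
theorem act_component {p : C.A (X.prod X)} (hp : IsProjector C p) {P : ℤ → C.A (X.prod X)}
    (hP : IsChowKunneth H p P) {i j : ℤ} (hij : i ≠ 2 * j) {x : C.A X} (hx : C.Deg j x) :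
    C.act (P i) x = 0 := by
  obtain ⟨M, hM1, hM2⟩ := exists_weight_poly hS hπ X i
  have hev : M.eval ((Q : ℚ) ^ j) ≠ 0 := by
    intro h0
    have h3 : aeval ((Q : ℂ) ^ j) M = 0 := by
      have h2 : ((Q : ℂ) ^ j) = algebraMap ℚ ℂ ((Q : ℚ) ^ j) := by simp
      rw [h2, aeval_algebraMap_apply, coe_aeval_eq_eval, h0, map_zero]
    have h4 := hM1 _ h3
    rw [norm_zpow, Complex.norm_natCast, ← zpow_natCast, ← zpow_mul] at h4
    have h5 : (1 : ℝ) < Q := by exact_mod_cast hQ
    have h6 := zpow_right_injective₀ (by positivity) h5.ne' h4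
    push_cast at h6
    omega
  have hcomm : Commute (SC.of (P i)) (aeval (SC.fr C (π X)) M) :=
    commute_aeval (commute_fr hQ hπ (hP.projector i).deg) _
  set Γ : C.A (X.prod X) := C.comp (P i) (CH.polyC (π X) M) with hΓ
  have hΓ' : SC.of Γ = SC.of (P i) * aeval (SC.fr C (π X)) M := by
    rw [hΓ, SC.of_comp, SC.aeval_fr]
  have hdeg : C.Deg X.dim Γ := CH.comp_mem (hP.projector i).deg (CH.polyC_mem _ _)
  have hH : ∀ a : H.A X, H.act (H.cl Γ) a = 0 := by
    intro a
    refine CH.homog_induction H.toTheoryData (p := fun a => H.act (H.cl Γ) a = 0) ?_ ?_ a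
    · intro l a ha
      beta_reduce
      rw [hΓ, CH.act_cl_comp, act_aeval_cl, hP.cohomology i l a ha]
      by_cases hl : l = i
      · subst hl
        rw [if_pos rfl]
        exact hM2 _ (actH_mem_zero hp.deg ha)
      · rw [if_neg hl, map_zero]
    · intro a b ha hb
      beta_reduce at ha hb ⊢
      rw [act_map_add, ha, hb, add_zero]
  obtain ⟨n, hn⟩ := hnil _ hdeg hH
  have hpi : IsIdempotentElem (SC.of (P i)) := congrArg SC.of (hP.projector i).idem
  have h1 : SC.of (C.comp (P i) (CH.polyC (π X) (M ^ (n + 1)))) = SC.of 0 := by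
    have h2 : SC.of Γ ^ (n + 1) = SC.of 0 := by
      rw [pow_succ, SC.pow_eq, ← iterate_eq, hn]
      exact zero_comp C _
    rw [hΓ', hcomm.mul_pow, hpi.pow_succ_eq, ← map_pow, SC.aeval_fr, ← SC.of_comp] at h2
    exact h2
  have hy : C.act (P i) x ∈ C.gr X j := by
    have h2 : C.Deg ((X.dim : ℤ) + 0) (P i) := by
      rw [add_zero]
      exact (hP.projector i).deg
    have h3 := CH.act_mem_chow h2 hx
    rwa [add_zero] at h3
  have h2 : C.act (C.comp (P i) (CH.polyC (π X) (M ^ (n + 1)))) x = 0 := by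
    rw [SC.of_inj h1]
    exact C.act_zero x
  rw [C.act_comp] at h2
  have h3 := CH.act_polyC (CH.chowData_isCorrTheory (C := C))
    (CH.chowData_actsAsPower (isFrobenius_bridge (hπ.frobenius X))) (i := j)
    (m := C.act (P i) x) hy (M ^ (n + 1))
  have h4 : ((M ^ (n + 1)).eval ((Q : ℚ) ^ j)) • C.act (P i) x = 0 := h3.symm.trans h2
  rw [eval_pow] at h4
  exact (smul_eq_zero.1 h4).resolve_left (pow_ne_zero _ hev)

include hS hQ hπ hnil in
theorem eq_act_middle {p : C.A (X.prod X)} (hp : IsProjector C p) {P : ℤ → C.A (X.prod X)}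
    (hP : IsChowKunneth H p P) {j : ℤ} {x : C.A X} (hx : C.Deg j x) (hpx : C.act p x = x) :
    C.act (P (2 * j)) x = x := by
  obtain ⟨S, hS1, hS2⟩ := hP.sum
  have h1 : ∑ i ∈ S, C.act (P i) x = x := by
    rw [← act_sum, hS2, hpx]
  by_cases hj : 2 * j ∈ S
  · rw [← Finset.add_sum_erase S _ hj, Finset.sum_eq_zero fun i hi =>
      act_component hS hQ hπ hnil hp hP (Finset.ne_of_mem_erase hi) hx, add_zero] at h1
    exact h1
  · rw [Finset.sum_eq_zero fun i hi => act_component hS hQ hπ hnil hp hP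
      (fun h => hj (h ▸ hi)) hx] at h1
    rw [← h1]
    exact C.act_map_zero _

include hS hQ hπ hnil in
theorem inStep_iff {p : C.A (X.prod X)} (hp : IsProjector C p) {P : ℤ → C.A (X.prod X)}
    (hP : IsChowKunneth H p P) (j ν : ℤ) (x : C.A X) :
    InStep p P j ν x ↔ C.Deg j x ∧ C.act p x = x ∧ (ν ≤ 0 ∨ x = 0) := by
  constructor
  · rintro ⟨h1, h2, h3⟩
    refine ⟨h1, h2, ?_⟩
    by_cases hν : ν ≤ 0
    · exact Or.inl hν
    · right
      rw [← eq_act_middle hS hQ hπ hnil hp hP h1 h2]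
      exact h3 _ (by omega)
  · rintro ⟨h1, h2, h3⟩
    refine ⟨h1, h2, fun i hi => ?_⟩
    rcases h3 with h3 | h3
    · exact act_component hS hQ hπ hnil hp hP (by omega) h1
    · rw [h3]
      exact C.act_map_zero _

include hS hQ hπ hnil in
theorem isMurre_of (h : RatEqHom H X) {p : C.A (X.prod X)} (hp : IsProjector C p) :
    IsMurre H p where
  decomposition := by
    obtain ⟨P, hP⟩ := exists_chowKunneth hS hQ hπ hnil hp
    refine ⟨P, hP, fun i j x hx hij => act_component hS hQ hπ hnil hp hP (by omega) hx,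
      fun j x hx _ hcl => ?_⟩
    rcases lt_or_ge j 0 with hj | hj
    · have h1 := C.gr_neg X j hj
      change x ∈ C.gr X j at hx
      rw [h1, Submodule.mem_bot] at hx
      exact hx
    · obtain ⟨n, rfl⟩ := Int.eq_ofNat_of_zero_le hj
      exact h n x hx hcl
  unique := fun P P' hP hP' j ν x =>
    (inStep_iff hS hQ hπ hnil hp hP j ν x).trans (inStep_iff hS hQ hπ hnil hp hP' j ν x).symm

omit hH [IsAlgClosed K] [CharZero K] in
theorem isProjector_one : IsProjector C (dg C X) where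
  deg := by
    have h1 := C.push_mem (Obj.lift (𝟙 X) (𝟙 X)) (C.one_mem X)
    have h2 : (0 : ℤ) + 1 * (((X.prod X).dim : ℤ) - X.dim) = X.dim := by
      rw [Obj.dim_prod]
      push_cast
      ring
    rw [h2] at h1
    exact h1
  idem := comp_dg C _

include hS hQ hπ hnil in
theorem murreFor_iff : MurreFor H X ↔ RatEqHom H X := by
  constructor
  · intro h i z hz hcl
    have hp := isProjector_one (C := C) (X := X)
    obtain ⟨P, hP, -, hD⟩ := (h _ hp).decomposition
    refine hD i z hz ?_ hcl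
    refine eq_act_middle hS hQ hπ hnil hp hP hz ?_
    exact act_dg C z
  · intro h p hp
    exact isMurre_of hS hQ hπ hnil h hp

end

section

variable {I : Type} [Finite I] (g : I → ℕ) (E : IntermediateField ℚ ℂ) [FiniteDimensional ℚ E]
  {q : ℕ} (hq : 1 < q) (r : ℕ) (hr : ∀ i, r < g i)
  (x : (Σ i, Fin (g i)) → ℤ) (hx : GoodU (splitPrimes E) g q x)

include hq hr hx

theorem murreForRankOver_of_good : MurreForRankOver E q r (fun i => weil q (polys g x i)) := by
  intro k _ 𝒱 C _ hone K _ _ _ H _ s π hπ A Z hsit hnZ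
  have hiso : HasIso C := hasIso_of hone
  have hQ : 1 < q ^ s := Nat.one_lt_pow hsit.pos.ne' hq
  have h3 : IsFrobenius C (prodMap (π A) (π Z)) (q ^ s) := by
    rw [hπ.prod]
    exact hπ.frobenius _
  have hchow := (chowForRankOver_of_good g E hq r hr x hx k 𝒱 C K H s A Z (π A) (π Z) hsit h3).2.2
  have h1 := murreFor_iff hsit.standard hQ hπ hsit.nilpotence
  have h2 := murreFor_iff hsit.standard hQ hπ hnZ
  refine ⟨by rw [h1, h2, hchow], h2, fun X hX hnX h => ?_⟩
  exact (murreFor_iff hsit.standard hQ hπ hnX).2 (ratEqHom_of_dominated hX (hchow.2 (h2.1 h)))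

end

end Pool.Agent.W484.CK
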