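import Mathlib
import Pool.Agent.W484.CK.Stm

/-!
# Theories with values in abelian groups, for instance unramified cohomology: the property
-/

set_option autoImplicit false

open CategoryTheory AlgebraicGeometry

universe u v w

namespace Pool.Agent.W484.CK

open Polynomial Pool.Agent.H914 Pool.Agent.H914.VarClass Pool.Agent.H914.VarClass.Obj
  Pool.Agent.W492.BB

variable {k : Type u} [Field k] {𝒱 : VarClass k}

/-- The abelian group `G` has finite exponent. -/
def FiniteExponent (G : Type v) [AddCommGroup G] : Prop := ∃ N : ℕ, 0 < N ∧ ∀ m : G, N • m = 0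

/-- Data of a theory with values in abelian groups on which the groups of cycles with integral
coefficients act: groups `M^i(X)`, and a relation `Acts i l Γ φ` between the class
`Γ` in `CH(X × Y)` with rational coefficients and the homomorphism `φ : M^i(X) → M^l(Y)`. It means:
`φ` is the action of a cycle with integral coefficients, of codimension `dim X + l - i`, whose
class with rational coefficients is `Γ`. -/
structure GroupData (C : TheoryData.{u, v, 0} 𝒱 ℚ) where
  /-- the group `M^i(X)` -/
  M : 𝒱.Obj → ℤ → Type v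
  [group : ∀ X i, AddCommGroup (M X i)]
  /-- the action of cycles with integral coefficients -/
  Acts : ∀ {X Y : 𝒱.Obj} (i l : ℤ), C.A (X.prod Y) → (M X i →+ M Y l) → Prop

attribute [instance] GroupData.group

namespace GroupData

variable {C : TheoryData.{u, v, 0} 𝒱 ℚ} (T : GroupData C) {X Y : 𝒱.Obj}

/-- A multiple of the class `Γ` is the class of a cycle with integral coefficients. -/
def IsDefined (i l : ℤ) (Γ : C.A (X.prod Y)) : Prop :=
  ∃ N : ℕ, 0 < N ∧ ∃ φ : T.M X i →+ T.M Y l, T.Acts i l ((N : ℚ) • Γ) φ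

/-- The homomorphism `φ` is zero up to a positive integer. -/
def IsTorsion (i l : ℤ) (φ : T.M X i →+ T.M Y l) : Prop := ∃ N : ℕ, 0 < N ∧ N • φ = 0

end GroupData

/-- The formal properties of a theory with values in abelian groups: a multiple of every class of
codimension `dim X + l - i` with rational coefficients comes from a cycle with integral
coefficients; the action is additive and compatible with composition and identities; and if the class
with rational coefficients of a cycle is zero, then the cycle is torsion modulo rational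
equivalence, hence also its action. Examples: the Chow groups, the higher Chow groups and the
`K`-groups with integral coefficients, etale motivic cohomology, and, for fixed `n`, the groups
`M^i(X) = H^(i-n)(X, ℋ^(i+1)(ℚ/ℤ(i)))` of Bloch and Ogus, which vanish for `i < n`
and are the unramified cohomology groups `H^(n+1)_nr(X, ℚ/ℤ(n))` for `i = n`. -/
structure IsGroupTheory {C : TheoryData.{u, v, 0} 𝒱 ℚ} (T : GroupData C) : Prop where
  exists_acts : ∀ {X Y : 𝒱.Obj} (i l : ℤ) (Γ : C.A (X.prod Y)), C.Deg (X.dim + (l - i)) Γ →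
    T.IsDefined i l Γ
  acts_add : ∀ {X Y : 𝒱.Obj} {i l : ℤ} {Γ Δ : C.A (X.prod Y)} {φ ψ : T.M X i →+ T.M Y l},
    T.Acts i l Γ φ → T.Acts i l Δ ψ → T.Acts i l (Γ + Δ) (φ + ψ)
  acts_neg : ∀ {X Y : 𝒱.Obj} {i l : ℤ} {Γ : C.A (X.prod Y)} {φ : T.M X i →+ T.M Y l},
    T.Acts i l Γ φ → T.Acts i l (-Γ) (-φ)
  acts_comp : ∀ {X Y Z : 𝒱.Obj} {i l n : ℤ} {Γ : C.A (X.prod Y)} {Δ : C.A (Y.prod Z)}
    {φ : T.M X i →+ T.M Y l} {ψ : T.M Y l →+ T.M Z n}, T.Acts i l Γ φ → T.Acts l n Δ ψ →
      T.Acts i n (compose C Γ Δ) (ψ.comp φ)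
  acts_id : ∀ (X : 𝒱.Obj) (i : ℤ), T.Acts i i (diagonal C X) (AddMonoidHom.id _)
  torsion : ∀ {X Y : 𝒱.Obj} {i l : ℤ} {φ : T.M X i →+ T.M Y l}, T.Acts i l 0 φ →
    T.IsTorsion i l φ

/-- The endomorphism `π` acts on `M^i(X)`, `i ≥ 0`, as multiplication by `Q ^ i`; here `π^*` is the
action of the transposed graph. -/
def FrobeniusActs {C : TheoryData.{u, v, 0} 𝒱 ℚ} (T : GroupData C) {X : 𝒱.Obj} (π : X ⟶ X)
    (Q : ℕ) : Prop :=
  ∀ i : ℕ, T.Acts i i (C.down (Obj.lift π (𝟙 X)) 1) (Q ^ i • AddMonoidHom.id (T.M X i))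

/-- The comparison of `A × Z` and `Z`, for a dual pair of products `D j` of `deg j` divisors:
for all `i ≥ 0` the group `M^i(A × Z)` has finite exponent if and only if all the groups
`M^(i - deg j)(Z)` have. If moreover all groups `M^i(X)` with `i < n` are zero, then
`M^n(A × Z)` has finite exponent if and only if `M^n(Z)` has; and if groups `M^n(X)` of finite
exponent are finite, then `M^n(A × Z)` is finite if and only if `M^n(Z)` is finite. -/
structure SameFiniteness {C : TheoryData.{u, v, 0} 𝒱 ℚ} (T : GroupData C) (A Z : 𝒱.Obj) {J : Type}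
    (deg : J → ℕ) : Prop where
  exponent : ∀ i : ℕ, FiniteExponent (T.M (A.prod Z) i) ↔
    ∀ j, FiniteExponent (T.M Z (i - deg j))
  lowest : ∀ n : ℕ, (∀ (X : 𝒱.Obj) (i : ℤ), i < n → Subsingleton (T.M X i)) →
    (FiniteExponent (T.M (A.prod Z) n) ↔ FiniteExponent (T.M Z n))
  finite : ∀ n : ℕ, (∀ (X : 𝒱.Obj) (i : ℤ), i < n → Subsingleton (T.M X i)) →
    (∀ X : 𝒱.Obj, FiniteExponent (T.M X n) → Finite (T.M X n)) →
      (Finite (T.M (A.prod Z) n) ↔ Finite (T.M Z n))

/-- `GroupForRankOver E q r f`: for the Chow groups `C` with rational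
coefficients of all classes `𝒱` of varieties over fields `k` (finite, in the intended use),
every Weil cohomology theory `H` with coefficients in an algebraically closed field `K` of
characteristic zero and all `A`, `Z` as in `IsSituation` there are products `D j`
of `deg j` divisor classes on `A`, finitely many, such that the comparison `SameFiniteness` of
`A × Z` and `Z` holds for all theories `T` with values in abelian groups on which the cycles with
integral coefficients act, and such that the Frobenius endomorphism of `A × Z` acts on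
`T^i(A × Z)` as multiplication by `q ^ (s i)`. -/
def GroupForRankOver (E : IntermediateField ℚ ℂ) (q r : ℕ) {I : Type} (f : I → ℤ[X]) : Prop :=
  ∀ (k : Type) [Field k] (𝒱 : VarClass k) (C : TheoryData.{0, 0, 0} 𝒱 ℚ) [IsChow C]
    (K : Type) [Field K] [IsAlgClosed K] [CharZero K] (H : WeilTheoryData.{0, 0, 0} C K)
    [IsWeil H] (s : ℕ) (A Z : 𝒱.Obj) (πA : A ⟶ A) (πZ : Z ⟶ Z),
      IsSituation H E q r s f πA πZ →
        ∃ (J : Type) (_ : Fintype J) (deg : J → ℕ) (D : J → C.A A),
          (∀ j, DivisorProduct C (deg j) (D j)) ∧ (∃ j, deg j = 0) ∧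
            ∀ T : GroupData C, IsGroupTheory T → FrobeniusActs T (prodMap πA πZ) (q ^ s) →
              SameFiniteness T A Z deg

end Pool.Agent.W484.CK
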