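import Mathlib
import Pool.Agent.W484.CK.Dual2

/-!
# Theories on which homogeneous correspondences act
-/

set_option autoImplicit false
set_option linter.unusedSectionVars false

open CategoryTheory AlgebraicGeometry

universe u v w

namespace Pool.Agent.W484.CH

open Module Polynomial Pool.Agent.H914 Pool.Agent.H914.VarClass Pool.Agent.H914.VarClass.Obj
  Pool.Agent.W492.BB Pool.Agent.W550.Corr Pool.Agent.W484.TB Pool.Agent.W484.HS
  Pool.Agent.W521.Frob Pool.Agent.W521.Count Pool.Agent.W521.Bad Pool.Agent.W521.Descent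
  Pool.Agent.W521.Density

variable {k : Type u} [Field k] {𝒱 : VarClass k}

/-- Spaces `M^i(X)` with maps `M^i(X) → M^l(Y)`. -/
structure HData (C : TheoryData.{u, v, 0} 𝒱 ℚ) where
  M : 𝒱.Obj → ℤ → Type v
  [group : ∀ X i, AddCommGroup (M X i)]
  [module : ∀ X i, Module ℚ (M X i)]
  act : ∀ {X Y : 𝒱.Obj} (i l : ℤ), C.A (X.prod Y) → (M X i →ₗ[ℚ] M Y l)

attribute [instance] HData.group HData.module

/-- Homogeneous correspondences act. -/
structure IsHTheory {C : TheoryData.{u, v, 0} 𝒱 ℚ} (T : HData C) : Prop where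
  act_add : ∀ {X Y : 𝒱.Obj} {i l : ℤ} {Γ Δ : C.A (X.prod Y)}, C.Deg (X.dim + (l - i)) Γ →
    C.Deg (X.dim + (l - i)) Δ → T.act i l (Γ + Δ) = T.act i l Γ + T.act i l Δ
  act_smul : ∀ {X Y : 𝒱.Obj} {i l : ℤ} (c : ℚ) {Γ : C.A (X.prod Y)}, C.Deg (X.dim + (l - i)) Γ →
    T.act i l (c • Γ) = c • T.act i l Γ
  act_comp : ∀ {X Y Z : 𝒱.Obj} {i l n : ℤ} {Γ : C.A (X.prod Y)} {Δ : C.A (Y.prod Z)},
    C.Deg (X.dim + (l - i)) Γ → C.Deg (Y.dim + (n - l)) Δ →
      T.act i n (C.comp Γ Δ) = T.act l n Δ ∘ₗ T.act i l Γ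
  act_id : ∀ (X : 𝒱.Obj) (i : ℤ), T.act i i (dg C X) = LinearMap.id

variable {C : TheoryData.{u, v, 0} 𝒱 ℚ} {T : HData C} (hT : IsHTheory T) {A X Y Z : 𝒱.Obj}

include hT in
theorem IsHTheory.act_sum {ι : Type*} (s : Finset ι) {i l : ℤ} (Γ : ι → C.A (X.prod Y))
    (h : ∀ t ∈ s, C.Deg (X.dim + (l - i)) (Γ t)) :
    T.act i l (∑ t ∈ s, Γ t) = ∑ t ∈ s, T.act i l (Γ t) := by
  classical
  induction s using Finset.induction_on with
  | empty =>
    rw [Finset.sum_empty, Finset.sum_empty]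
    have h1 := hT.act_smul (i := i) (l := l) (0 : ℚ) (Submodule.zero_mem (C.gr (X.prod Y) _))
    rwa [zero_smul, zero_smul] at h1
  | insert t s ht ih =>
    rw [Finset.sum_insert ht, Finset.sum_insert ht, hT.act_add (h t (Finset.mem_insert_self t s))
      (Submodule.sum_mem _ fun a ha => h a (Finset.mem_insert_of_mem ha)),
      ih fun a ha => h a (Finset.mem_insert_of_mem ha)]

variable [hC : IsChow C]

include hT in
theorem IsHTheory.act_iter {π : X ⟶ X} {c : ℚ} {i : ℤ}
    (hπ : T.act i i (C.cograph π) = c • LinearMap.id) (l : ℕ) :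
    T.act i i (C.cograph (iter π l)) = c ^ l • LinearMap.id := by
  have hdeg : ∀ f : X ⟶ X, C.Deg (X.dim + (i - i)) (C.cograph f) := fun f => by
    rw [sub_self, add_zero]
    exact cograph_mem f
  induction l with
  | zero =>
    rw [pow_zero, one_smul]
    exact hT.act_id X i
  | succ l ih =>
    rw [iter, ← cograph_comp, hT.act_comp (hdeg _) (hdeg _), hπ, ih, pow_succ', mul_smul]
    ext m
    simp [smul_smul, mul_comm]

include hT in
theorem IsHTheory.act_polyC {π : X ⟶ X} {c : ℚ} {i : ℤ}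
    (hπ : T.act i i (C.cograph π) = c • LinearMap.id) (P : ℚ[X]) :
    T.act i i (polyC π P) = P.eval c • LinearMap.id := by
  have hdeg : ∀ f : X ⟶ X, C.Deg (X.dim + (i - i)) (C.cograph f) := fun f => by
    rw [sub_self, add_zero]
    exact cograph_mem f
  rw [polyC, hT.act_sum _ _ fun l _ => Submodule.smul_mem _ _ (hdeg _), Polynomial.eval_eq_sum,
    Polynomial.sum, Finset.sum_smul]
  refine Finset.sum_congr rfl fun l _ => ?_
  rw [hT.act_smul _ (hdeg _), hT.act_iter hπ, smul_smul]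

variable {K : Type w} [Field K] [CharZero K] {H : WeilTheoryData.{u, v, w} C K} [hH : IsWeil H]
  {J : Type} [Fintype J] {deg : J → ℕ} {D E : J → C.A A}

include hT in
theorem IsHTheory.core {π : X ⟶ X} {c : ℚ} {i : ℤ}
    (hπ : T.act i i (C.cograph π) = c • LinearMap.id) (hnil : Nilpotence H X)
    (p : C.A (X.prod X)) (hpd : C.Deg X.dim p)
    (hpp : T.act i i p ∘ₗ T.act i i p = T.act i i p)
    (P : ℚ[X]) (hP : P.eval c ≠ 0)
    (hkill : ∀ w : H.A X, H.act (H.cl p) (H.act (H.cl (polyC π P)) w) =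
      H.act (H.cl (polyC π P)) w) (m : T.M X i) :
    T.act i i p m = m := by
  set Θ := C.comp (polyC π P) (dg C X - p) with hΘ
  have hdg : C.Deg X.dim (dg C X) := by
    have h1 := C.push_mem (Obj.lift (𝟙 X) (𝟙 X)) (C.one_mem X)
    have h2 : (0 : ℤ) + 1 * (((X.prod X).dim : ℤ) - X.dim) = X.dim := by
      rw [Obj.dim_prod]
      push_cast
      ring
    rw [h2] at h1
    exact h1
  have hsub : C.Deg X.dim (dg C X - p) := Submodule.sub_mem _ hdg hpd
  have hΘd : C.Deg X.dim Θ := comp_mem (polyC_mem π P) hsub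
  have h0 : ∀ {a : C.A (X.prod X)}, C.Deg X.dim a → C.Deg (X.dim + (i - i)) a := by
    intro a ha
    rwa [sub_self, add_zero]
  have hΘ0 : ∀ w : H.A X, H.act (H.cl Θ) w = 0 := by
    intro w
    rw [hΘ, act_cl_comp, map_sub, H.act_sub, act_cl_dg, hkill, sub_self]
  obtain ⟨n, hn⟩ := hnil Θ hΘd hΘ0
  have hneg : T.act i i (dg C X - p) = LinearMap.id - T.act i i p := by
    have h1 := hT.act_add (h0 hsub) (h0 hpd)
    rw [sub_add_cancel, hT.act_id] at h1
    rw [h1]
    abel
  set y := m - T.act i i p m with hy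
  have hy0 : T.act i i p y = 0 := by
    rw [hy, map_sub]
    have := LinearMap.congr_fun hpp m
    rw [LinearMap.comp_apply] at this
    rw [this, sub_self]
  have hΘy : T.act i i Θ y = P.eval c • y := by
    rw [hΘ, hT.act_comp (h0 (polyC_mem π P)) (h0 hsub), hT.act_polyC hπ, hneg,
      LinearMap.comp_apply, LinearMap.smul_apply, LinearMap.id_apply, map_smul,
      LinearMap.sub_apply, LinearMap.id_apply, hy0, sub_zero]
  have hpowd : ∀ n : ℕ, C.Deg X.dim (powC C Θ n) := by
    intro n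
    induction n with
    | zero => exact hdg
    | succ n ih => exact comp_mem ih hΘd
  have hpow : ∀ n : ℕ, T.act i i (powC C Θ n) y = P.eval c ^ n • y := by
    intro n
    induction n with
    | zero =>
      rw [pow_zero, one_smul]
      change T.act i i (dg C X) y = y
      rw [hT.act_id]
      rfl
    | succ n ih =>
      rw [powC, hT.act_comp (h0 (hpowd n)) (h0 hΘd), LinearMap.comp_apply, ih, map_smul, hΘy,
        smul_smul, pow_succ]
  have h1 := hpow n
  have h2 : T.act i i (0 : C.A (X.prod X)) = 0 := by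
    have h3 := hT.act_smul (i := i) (l := i) (0 : ℚ) (h0 hdg)
    rwa [zero_smul, zero_smul] at h3
  rw [hn, h2, LinearMap.zero_apply] at h1
  have h3 := (smul_eq_zero.1 h1.symm).resolve_left (pow_ne_zero _ hP)
  rw [hy, sub_eq_zero] at h3
  exact h3.symm

theorem ext_deg (h : IsDual A Z deg D E) (i : ℤ) (j : J) :
    C.Deg (Z.dim + (i - (i - deg j))) (extBy C Z (D j)) := by
  have h1 := extBy_mem (Z := Z) (h.left j)
  rwa [sub_sub_cancel]

theorem pair_deg (h : IsDual A Z deg D E) (i : ℤ) (j : J) :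
    C.Deg ((A.prod Z).dim + ((i - deg j) - i)) (pairBy C Z (E j)) := by
  have h1 := pairBy_mem (Z := Z) (h.right j)
  rwa [sub_sub_cancel_left]

include hT in
theorem IsHTheory.act_proj (h : IsDual A Z deg D E) (i : ℤ) :
    T.act i i (proj Z D E) =
      ∑ j, T.act (i - deg j) i (extBy C Z (D j)) ∘ₗ T.act i (i - deg j) (pairBy C Z (E j)) := by
  rw [proj, hT.act_sum]
  · exact Finset.sum_congr rfl fun j _ => hT.act_comp (pair_deg h i j) (ext_deg h i j)
  · intro j _
    have h1 : C.Deg ((A.prod Z).dim + -(deg j : ℤ)) (pairBy C Z (E j)) := pairBy_mem (h.right j)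
    have h2 : C.Deg (Z.dim + (deg j : ℤ)) (extBy C Z (D j)) := extBy_mem (h.left j)
    have h3 := C.push_mem (t13 (A.prod Z) Z (A.prod Z)) (C.mul_mem
      (C.pull_mem (t23 (A.prod Z) Z (A.prod Z)) h2)
      (C.pull_mem (fst ((A.prod Z).prod Z) (A.prod Z)) h1))
    have h4 : (Z.dim : ℤ) + deg j + ((A.prod Z).dim + -(deg j : ℤ)) +
        1 * ((((A.prod Z).prod (A.prod Z)).dim : ℤ) - (((A.prod Z).prod Z).prod (A.prod Z)).dim) =
        (A.prod Z).dim + (i - i) := by
      simp only [Obj.dim_prod]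
      push_cast
      ring
    rw [h4] at h3
    exact h3

include hT in
theorem IsHTheory.pair_ext_same (h : IsDual A Z deg D E) (i : ℤ) (j : J) (z : T.M Z (i - deg j)) :
    T.act i (i - deg j) (pairBy C Z (E j)) (T.act (i - deg j) i (extBy C Z (D j)) z) = z := by
  have h1 := hT.act_comp (ext_deg h i j) (pair_deg h i j)
  rw [comp_extBy_same h, hT.act_id] at h1
  exact (LinearMap.congr_fun h1 z).symm

include hT in
theorem IsHTheory.pair_ext_ne (h : IsDual A Z deg D E) (i : ℤ) (j l : J) (hjl : j ≠ l)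
    (z : T.M Z (i - deg j)) :
    T.act i (i - deg l) (pairBy C Z (E l)) (T.act (i - deg j) i (extBy C Z (D j)) z) = 0 := by
  have h1 := hT.act_comp (ext_deg h i j) (pair_deg h i l)
  rw [comp_extBy_ne h j l hjl] at h1
  have h2 : T.act (i - deg j) (i - deg l) (0 : C.A (Z.prod Z)) = 0 := by
    have h3 := hT.act_smul (i := i - deg j) (l := i - deg l) (0 : ℚ)
      (Submodule.zero_mem (C.gr (Z.prod Z) _))
    rwa [zero_smul, zero_smul] at h3
  rw [h2] at h1
  exact (LinearMap.congr_fun h1 z).symm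

include hT in
/-- **The Kunneth formula.** -/
theorem IsHTheory.kunneth (h : IsDual A Z deg D E) {π : A.prod Z ⟶ A.prod Z} {c : ℚ} {i : ℤ}
    (hπ : T.act i i (C.cograph π) = c • LinearMap.id) (hnil : Nilpotence H (A.prod Z))
    (P : ℚ[X]) (hP : P.eval c ≠ 0)
    (hkill : ∀ w : H.A (A.prod Z), H.act (H.cl (proj Z D E)) (H.act (H.cl (polyC π P)) w) =
      H.act (H.cl (polyC π P)) w) (m : T.M (A.prod Z) i) :
    m = ∑ j, T.act (i - deg j) i (extBy C Z (D j)) (T.act i (i - deg j) (pairBy C Z (E j)) m) := by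
  classical
  have hpp : T.act i i (proj Z D E) ∘ₗ T.act i i (proj Z D E) = T.act i i (proj Z D E) := by
    ext m
    rw [hT.act_proj h, LinearMap.comp_apply, LinearMap.sum_apply, LinearMap.sum_apply]
    refine Finset.sum_congr rfl fun l _ => ?_
    rw [LinearMap.comp_apply, LinearMap.comp_apply]
    congr 1
    rw [map_sum, Finset.sum_eq_single l]
    · rw [LinearMap.comp_apply, hT.pair_ext_same h]
    · intro j _ hjl
      rw [LinearMap.comp_apply, hT.pair_ext_ne h i j l hjl]
    · intro hl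
      exact absurd (Finset.mem_univ l) hl
  have h1 := hT.core hπ hnil (proj Z D E) (proj_mem h) hpp P hP hkill m
  conv_lhs => rw [← h1, hT.act_proj h]
  rw [LinearMap.sum_apply]
  rfl

end Pool.Agent.W484.CH
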