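import Mathlib
import Pool.Agent.W484.CK.Group
import Pool.Agent.W484.CK.HData
import Pool.Agent.W484.CK.Kill
import Pool.Agent.W484.CK.Main

/-!
# Theories with values in abelian groups: proofs
-/

set_option autoImplicit false
set_option linter.unusedSectionVars false

open CategoryTheory AlgebraicGeometry

universe u v w

namespace Pool.Agent.W484.CK

open Module Polynomial Pool.Agent.H914 Pool.Agent.H914.VarClass Pool.Agent.H914.VarClass.Obj
  Pool.Agent.W492.BB Pool.Agent.W550.Corr Pool.Agent.W484.TB Pool.Agent.W484.HS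
  Pool.Agent.W521.Frob Pool.Agent.W521.Count Pool.Agent.W521.Bad Pool.Agent.W521.Descent
  Pool.Agent.W521.Density

section functor

variable {M M' M'' : Type v} [AddCommGroup M] [AddCommGroup M'] [AddCommGroup M'']

/-- Sequences in `M`, tensored with the rational numbers. -/
abbrev VV (M : Type v) [AddCommGroup M] : Type v := TensorProduct ℤ ℚ (ℕ → M)

/-- Functoriality. -/
noncomputable def VV.map (φ : M →+ M') : VV M →ₗ[ℚ] VV M' :=
  LinearMap.baseChange ℚ (φ.toIntLinearMap.compLeft ℕ)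

theorem VV.map_add (φ ψ : M →+ M') : VV.map (φ + ψ) = VV.map φ + VV.map ψ := by
  unfold VV.map
  rw [← LinearMap.baseChange_add]
  rfl

theorem VV.map_comp (φ : M →+ M') (ψ : M' →+ M'') :
    VV.map (ψ.comp φ) = VV.map ψ ∘ₗ VV.map φ := by
  unfold VV.map
  rw [← LinearMap.baseChange_comp]
  rfl

theorem VV.map_id : VV.map (AddMonoidHom.id M) = LinearMap.id := by
  unfold VV.map
  exact LinearMap.baseChange_id

/-- Functoriality, additive in the homomorphism. -/
noncomputable def VV.mapHom (M M' : Type v) [AddCommGroup M] [AddCommGroup M'] :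
    (M →+ M') →+ (VV M →ₗ[ℚ] VV M') :=
  AddMonoidHom.mk' VV.map VV.map_add

theorem VV.map_nsmul (n : ℕ) (φ : M →+ M') : VV.map (n • φ) = (n : ℚ) • VV.map φ := by
  have h1 := _root_.map_nsmul (VV.mapHom M M') n φ
  rw [Nat.cast_smul_eq_nsmul]
  exact h1

theorem VV.map_zsmul (n : ℤ) (φ : M →+ M') : VV.map (n • φ) = (n : ℚ) • VV.map φ := by
  have h1 := _root_.map_zsmul (VV.mapHom M M') n φ
  exact h1.trans (Int.cast_smul_eq_zsmul ℚ n (VV.map φ)).symm

theorem VV.map_sub (φ ψ : M →+ M') : VV.map (φ - ψ) = VV.map φ - VV.map ψ :=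
  _root_.map_sub (VV.mapHom M M') φ ψ

theorem VV.map_eq_zero {φ : M →+ M'} {N : ℕ} (hN : 0 < N) (h : N • φ = 0) : VV.map φ = 0 := by
  have h1 := VV.map_nsmul N φ
  have h2 : VV.map (0 : M →+ M') = 0 := map_zero (VV.mapHom M M')
  rw [h, h2] at h1
  exact (smul_eq_zero.1 h1.symm).resolve_left (by exact_mod_cast hN.ne')

theorem VV.eq_zero_iff : (∀ y : VV M, y = 0) ↔ FiniteExponent M := by
  constructor
  · intro h
    by_contra hne
    have h1 : ∀ k : ℕ, ∃ m : M, (k + 1).factorial • m ≠ 0 := by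
      intro k
      by_contra h2
      push Not at h2
      exact hne ⟨_, Nat.factorial_pos _, h2⟩
    choose m hm using h1
    have h2 : (TensorProduct.mk ℤ ℚ (ℕ → M) 1) m = 0 := h _
    have h3 : IsLocalizedModule (nonZeroDivisors ℤ) (TensorProduct.mk ℤ ℚ (ℕ → M) 1) :=
      (isLocalizedModule_iff_isBaseChange (nonZeroDivisors ℤ) ℚ _).2
        (TensorProduct.isBaseChange ℤ (ℕ → M) ℚ)
    obtain ⟨c, hc⟩ := (IsLocalizedModule.eq_zero_iff (nonZeroDivisors ℤ)
      (TensorProduct.mk ℤ ℚ (ℕ → M) 1)).1 h2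
    have hc0 : (c : ℤ) ≠ 0 := nonZeroDivisors.coe_ne_zero c
    set n := (c : ℤ).natAbs with hn
    have hn0 : n ≠ 0 := Int.natAbs_ne_zero.2 hc0
    have h4 : (c : ℤ) • m n = 0 := congrFun hc n
    have h5 : n • m n = 0 := by
      have h6 : ((n : ℕ) : ℤ) • m n = 0 := by
        rcases Int.natAbs_eq (c : ℤ) with h7 | h7
        · rw [hn, ← h7, h4]
        · have h8 : ((n : ℕ) : ℤ) = -(c : ℤ) := by omega
          rw [h8, neg_smul, h4, neg_zero]
      rwa [natCast_zsmul] at h6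
    obtain ⟨d, hd⟩ : n ∣ (n + 1).factorial := Nat.dvd_factorial (Nat.pos_of_ne_zero hn0) (by omega)
    apply hm n
    rw [hd, mul_comm, mul_smul, h5, smul_zero]
  · rintro ⟨N, hN, h⟩ y
    have h1 : N • AddMonoidHom.id M = 0 := by
      ext m
      exact h m
    have h2 := VV.map_eq_zero hN h1
    rw [VV.map_id] at h2
    exact LinearMap.congr_fun h2 y

end functor

variable {k : Type u} [Field k] {𝒱 : VarClass k} {C : TheoryData.{u, v, 0} 𝒱 ℚ} {X Y Z A : 𝒱.Obj}
  {T : GroupData C} (hT : IsGroupTheory T)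

include hT in
theorem acts_nsmul {i l : ℤ} {Γ : C.A (X.prod Y)} {φ : T.M X i →+ T.M Y l} (h : T.Acts i l Γ φ)
    {n : ℕ} (hn : 0 < n) : T.Acts i l ((n : ℚ) • Γ) (n • φ) := by
  induction n, Nat.succ_le_of_lt hn using Nat.le_induction with
  | base =>
    change T.Acts i l (((1 : ℕ) : ℚ) • Γ) (1 • φ)
    rw [Nat.cast_one, one_smul, one_smul]
    exact h
  | succ n hn ih =>
    have h1 := hT.acts_add (ih (by omega)) h
    rw [Nat.cast_succ, add_smul, one_smul, add_smul, one_smul]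
    exact h1

include hT in
theorem acts_sub {i l : ℤ} {Γ Δ : C.A (X.prod Y)} {φ ψ : T.M X i →+ T.M Y l}
    (h : T.Acts i l Γ φ) (h' : T.Acts i l Δ ψ) : T.Acts i l (Γ - Δ) (φ - ψ) := by
  rw [sub_eq_add_neg, sub_eq_add_neg]
  exact hT.acts_add h (hT.acts_neg h')

include hT in
theorem acts_zero {i l : ℤ} {Γ : C.A (X.prod Y)} {φ : T.M X i →+ T.M Y l} (h : T.Acts i l Γ φ) :
    T.Acts i l (0 : C.A (X.prod Y)) (0 : T.M X i →+ T.M Y l) := by
  have h1 := acts_sub hT h h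
  rwa [sub_self, sub_self] at h1

include hT in
theorem acts_zsmul {i l : ℤ} {Γ : C.A (X.prod Y)} {φ : T.M X i →+ T.M Y l} (h : T.Acts i l Γ φ)
    (n : ℤ) : T.Acts i l ((n : ℚ) • Γ) (n • φ) := by
  rcases lt_trichotomy n 0 with hn | hn | hn
  · obtain ⟨m, rfl⟩ : ∃ m : ℕ, n = -(m : ℤ) := ⟨n.natAbs, by omega⟩
    have h1 := hT.acts_neg (acts_nsmul hT h (n := m) (by omega))
    rw [neg_smul, natCast_zsmul]
    push_cast
    rw [neg_smul]
    exact h1
  · subst hn
    rw [zero_smul, Int.cast_zero, zero_smul]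
    exact acts_zero hT h
  · obtain ⟨m, rfl⟩ : ∃ m : ℕ, n = (m : ℤ) := ⟨n.natAbs, by omega⟩
    have h1 := acts_nsmul hT h (n := m) (by omega)
    rw [natCast_zsmul]
    push_cast
    exact h1

/-- `φ`, divided by `N`, represents the action of `Γ`. -/
def Rep (T : GroupData C) (i l : ℤ) (Γ : C.A (X.prod Y)) (f : VV (T.M X i) →ₗ[ℚ] VV (T.M Y l)) :
    Prop :=
  ∃ N : ℕ, 0 < N ∧ ∃ φ : T.M X i →+ T.M Y l, T.Acts i l ((N : ℚ) • Γ) φ ∧
    f = (N : ℚ)⁻¹ • VV.map φ

include hT in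
theorem exists_rep {i l : ℤ} {Γ : C.A (X.prod Y)} (h : C.Deg (X.dim + (l - i)) Γ) :
    ∃ f, Rep T i l Γ f := by
  obtain ⟨N, hN, φ, hφ⟩ := hT.exists_acts i l Γ h
  exact ⟨_, N, hN, φ, hφ, rfl⟩

include hT in
theorem rep_unique {i l : ℤ} {Γ : C.A (X.prod Y)} {f f' : VV (T.M X i) →ₗ[ℚ] VV (T.M Y l)}
    (h : Rep T i l Γ f) (h' : Rep T i l Γ f') : f = f' := by
  obtain ⟨N, hN, φ, hφ, rfl⟩ := h
  obtain ⟨N', hN', φ', hφ', rfl⟩ := h'
  have h1 := acts_sub hT (acts_nsmul hT hφ hN') (acts_nsmul hT hφ' hN)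
  rw [smul_smul, smul_smul, mul_comm (N' : ℚ), sub_self] at h1
  obtain ⟨d, hd, h2⟩ := hT.torsion h1
  have h3 := VV.map_eq_zero hd h2
  rw [VV.map_sub, VV.map_nsmul, VV.map_nsmul, sub_eq_zero] at h3
  have hNq : (N : ℚ) ≠ 0 := by exact_mod_cast hN.ne'
  have hNq' : (N' : ℚ) ≠ 0 := by exact_mod_cast hN'.ne'
  have h4 : VV.map φ = ((N' : ℚ)⁻¹ * N) • VV.map φ' := by
    rw [mul_smul, ← h3, smul_smul, inv_mul_cancel₀ hNq', one_smul]
  rw [h4, smul_smul]
  congr 1
  field_simp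

include hT in
theorem rep_add {i l : ℤ} {Γ Δ : C.A (X.prod Y)} {f f' : VV (T.M X i) →ₗ[ℚ] VV (T.M Y l)}
    (h : Rep T i l Γ f) (h' : Rep T i l Δ f') : Rep T i l (Γ + Δ) (f + f') := by
  obtain ⟨N, hN, φ, hφ, rfl⟩ := h
  obtain ⟨N', hN', φ', hφ', rfl⟩ := h'
  have hNq : (N : ℚ) ≠ 0 := by exact_mod_cast hN.ne'
  have hNq' : (N' : ℚ) ≠ 0 := by exact_mod_cast hN'.ne'
  refine ⟨N * N', Nat.mul_pos hN hN', N' • φ + N • φ', ?_, ?_⟩
  · have h1 := hT.acts_add (acts_nsmul hT hφ hN') (acts_nsmul hT hφ' hN)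
    rw [smul_smul, smul_smul, mul_comm (N' : ℚ), ← smul_add] at h1
    push_cast
    exact h1
  · rw [VV.map_add, VV.map_nsmul, VV.map_nsmul, smul_add, smul_smul, smul_smul]
    push_cast
    congr 2 <;> field_simp

include hT in
theorem rep_smul {i l : ℤ} {Γ : C.A (X.prod Y)} {f : VV (T.M X i) →ₗ[ℚ] VV (T.M Y l)}
    (c : ℚ) (h : Rep T i l Γ f) : Rep T i l (c • Γ) (c • f) := by
  obtain ⟨N, hN, φ, hφ, rfl⟩ := h
  have hNq : (N : ℚ) ≠ 0 := by exact_mod_cast hN.ne'
  have hc : (c.den : ℚ) ≠ 0 := by exact_mod_cast c.den_nz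
  have hcc : (c.den : ℚ) * c = c.num := by
    rw [mul_comm]
    exact Rat.mul_den_eq_num c
  refine ⟨N * c.den, Nat.mul_pos hN c.den_pos, c.num • φ, ?_, ?_⟩
  · have h1 := acts_zsmul hT hφ c.num
    have h2 : ((N * c.den : ℕ) : ℚ) • c • Γ = (c.num : ℚ) • (N : ℚ) • Γ := by
      rw [smul_smul, smul_smul, ← hcc]
      push_cast
      congr 1
      ring
    rw [h2]
    exact h1
  · rw [VV.map_zsmul, smul_smul, smul_smul, ← hcc]
    push_cast
    congr 1
    field_simp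

include hT in
theorem rep_comp [_hC : IsChow C] {i l n : ℤ} {Γ : C.A (X.prod Y)} {Δ : C.A (Y.prod Z)}
    {f : VV (T.M X i) →ₗ[ℚ] VV (T.M Y l)} {f' : VV (T.M Y l) →ₗ[ℚ] VV (T.M Z n)}
    (h : Rep T i l Γ f) (h' : Rep T l n Δ f') : Rep T i n (C.comp Γ Δ) (f' ∘ₗ f) := by
  obtain ⟨N, hN, φ, hφ, rfl⟩ := h
  obtain ⟨N', hN', φ', hφ', rfl⟩ := h'
  refine ⟨N * N', Nat.mul_pos hN hN', φ'.comp φ, ?_, ?_⟩
  · have h1 := hT.acts_comp hφ hφ'
    have h2 : compose C ((N : ℚ) • Γ) ((N' : ℚ) • Δ) = ((N * N' : ℕ) : ℚ) • C.comp Γ Δ := by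
      change C.comp ((N : ℚ) • Γ) ((N' : ℚ) • Δ) = _
      have h3 := LinearMap.congr_fun (map_smul (compL C (X := X) (Y := Y) (Z := Z)) (N : ℚ) Γ)
        ((N' : ℚ) • Δ)
      have h4 := map_smul (compL C (X := X) (Y := Y) (Z := Z) Γ) (N' : ℚ) Δ
      have h5 : C.comp ((N : ℚ) • Γ) ((N' : ℚ) • Δ) = (N : ℚ) • C.comp Γ ((N' : ℚ) • Δ) := h3
      have h6 : C.comp Γ ((N' : ℚ) • Δ) = (N' : ℚ) • C.comp Γ Δ := h4
      rw [h5, h6, smul_smul]
      push_cast
      rfl
    rw [← h2]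
    exact h1
  · rw [VV.map_comp, LinearMap.comp_smul, LinearMap.smul_comp, smul_smul]
    push_cast
    rw [mul_inv, mul_comm (N : ℚ)⁻¹]

open Classical in
/-- The theory with values in vector spaces. -/
noncomputable def toH (hT : IsGroupTheory T) : CH.HData C where
  M := fun X i => VV (T.M X i)
  act := fun {X Y} i l Γ => if h : C.Deg (X.dim + (l - i)) Γ then
    (exists_rep (X := X) (Y := Y) hT h).choose else 0

theorem toH_act {i l : ℤ} {Γ : C.A (X.prod Y)} (h : C.Deg (X.dim + (l - i)) Γ)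
    {f : VV (T.M X i) →ₗ[ℚ] VV (T.M Y l)} (hf : Rep T i l Γ f) : (toH hT).act i l Γ = f := by
  have h1 : (toH hT).act i l Γ = (exists_rep (X := X) (Y := Y) hT h).choose := dif_pos h
  rw [h1]
  exact rep_unique hT (exists_rep hT h).choose_spec hf

theorem toH_rep {i l : ℤ} {Γ : C.A (X.prod Y)} (h : C.Deg (X.dim + (l - i)) Γ) :
    Rep T i l Γ ((toH hT).act i l Γ) := by
  obtain ⟨f, hf⟩ := exists_rep hT h
  rw [toH_act hT h hf]
  exact hf

theorem toH_isHTheory [_hC : IsChow C] : CH.IsHTheory (toH hT) where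
  act_add := fun h h' => toH_act hT (Submodule.add_mem _ h h')
    (rep_add hT (toH_rep hT h) (toH_rep hT h'))
  act_smul := fun c _ h => toH_act hT (Submodule.smul_mem _ c h) (rep_smul hT c (toH_rep hT h))
  act_comp := by
    intro X Y Z i l n Γ Δ h h'
    refine toH_act hT ?_ (rep_comp hT (toH_rep hT h) (toH_rep hT h'))
    have h3 := C.push_mem (t13 X Y Z) (C.mul_mem (C.pull_mem (t23 X Y Z) h')
      (C.pull_mem (fst (X.prod Y) Z) h))
    have h4 : (Y.dim : ℤ) + (n - l) + (X.dim + (l - i)) +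
        1 * (((X.prod Z).dim : ℤ) - ((X.prod Y).prod Z).dim) = X.dim + (n - i) := by
      simp only [Obj.dim_prod]
      push_cast
      ring
    rw [h4] at h3
    exact h3
  act_id := by
    intro X i
    have hdg : C.Deg (X.dim + (i - i)) (dg C X) := by
      have h1 := C.push_mem (Obj.lift (𝟙 X) (𝟙 X)) (C.one_mem X)
      have h2 : (0 : ℤ) + 1 * (((X.prod X).dim : ℤ) - X.dim) = X.dim + (i - i) := by
        rw [Obj.dim_prod]
        push_cast
        ring
      rw [h2] at h1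
      exact h1
    refine toH_act hT hdg ⟨1, one_pos, AddMonoidHom.id _, ?_, ?_⟩
    · rw [Nat.cast_one, one_smul]
      exact hT.acts_id X i
    · rw [VV.map_id, Nat.cast_one, inv_one, one_smul]
      rfl

theorem toH_frobenius [hC : IsChow C] {π : X ⟶ X} {Q : ℕ} (h : FrobeniusActs T π Q) (i : ℕ) :
    (toH hT).act i i (C.cograph π) = ((Q : ℚ) ^ i) • LinearMap.id := by
  have hdeg : C.Deg (X.dim + ((i : ℤ) - i)) (C.cograph π) := by
    rw [sub_self, add_zero]
    exact CH.cograph_mem π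
  refine toH_act hT hdeg ⟨1, one_pos, Q ^ i • AddMonoidHom.id _, ?_, ?_⟩
  · rw [Nat.cast_one, one_smul]
    exact h i
  · rw [VV.map_nsmul, VV.map_id, Nat.cast_one, inv_one, one_smul]
    push_cast
    rfl

variable {K : Type w} [Field K] [CharZero K] {H : WeilTheoryData.{u, v, w} C K} [hC : IsChow C]
  [hH : IsWeil H] {J : Type} [Fintype J] {deg : J → ℕ} {D E : J → C.A A}

include hT in
theorem sameFiniteness_of (h : CH.IsDual A Z deg D E) (h0 : ∃ j, deg j = 0)
    {π : A.prod Z ⟶ A.prod Z} {Q : ℕ} (hπ : FrobeniusActs T π Q)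
    (hnil : CH.Nilpotence H (A.prod Z))
    (hP : ∀ i : ℤ, ∃ P : ℚ[X], P.eval ((Q : ℚ) ^ i) ≠ 0 ∧
      ∀ w : H.A (A.prod Z), H.act (H.cl (CH.proj Z D E)) (H.act (H.cl (CH.polyC π P)) w) =
            H.act (H.cl (CH.polyC π P)) w) : SameFiniteness T A Z deg := by
  have hH := toH_isHTheory (C := C) hT
  have hexp : ∀ i : ℕ, FiniteExponent (T.M (A.prod Z) i) ↔
      ∀ j, FiniteExponent (T.M Z (i - deg j)) := by
    intro i
    obtain ⟨P, hP0, hkill⟩ := hP i
    rw [← VV.eq_zero_iff]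
    constructor
    · intro h1 j
      rw [← VV.eq_zero_iff]
      intro y
      have h2 := hH.pair_ext_same h i j y
      rw [← h2]
      have h3 : (toH hT).act ((i : ℤ) - deg j) i (CH.extBy C Z (D j)) y = 0 := h1 _
      rw [h3, map_zero]
      rfl
    · intro h1 y
      have h2 := hH.kunneth h (toH_frobenius hT hπ i) hnil P (by
        rw [← zpow_natCast]
        exact hP0) hkill y
      rw [h2]
      refine Finset.sum_eq_zero fun j _ => ?_
      have h3 : (toH hT).act (i : ℤ) (i - deg j) (CH.pairBy C Z (E j)) y = 0 :=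
        VV.eq_zero_iff.2 (h1 j) _
      rw [h3, map_zero]
      rfl
  have hlow : ∀ n : ℕ, (∀ (X : 𝒱.Obj) (i : ℤ), i < n → Subsingleton (T.M X i)) →
      (FiniteExponent (T.M (A.prod Z) n) ↔ FiniteExponent (T.M Z n)) := by
    intro n hn
    rw [hexp n]
    constructor
    · intro h1
      obtain ⟨j, hj⟩ := h0
      have h2 := h1 j
      rw [hj] at h2
      have h3 : ∀ l : ℤ, l = n → FiniteExponent (T.M Z l) → FiniteExponent (T.M Z n) := by
        rintro l rfl h
        exact h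
      exact h3 _ (by push_cast; ring) h2
    · intro h1 j
      by_cases hj : deg j = 0
      · have h3 : ∀ l : ℤ, l = n → FiniteExponent (T.M Z l) := by
          rintro l rfl
          exact h1
        exact h3 _ (by rw [hj]; push_cast; ring)
      · have h2 : (n : ℤ) - deg j < n := by omega
        have h3 := hn Z _ h2
        exact ⟨1, one_pos, fun m => Subsingleton.elim _ _⟩
  have hfin : ∀ G : Type v, ∀ [AddCommGroup G], Finite G → FiniteExponent G := by
    intro G _ hG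
    refine ⟨Nat.card G, Nat.card_pos, fun m => ?_⟩
    exact card_nsmul_eq_zero'
  exact ⟨hexp, hlow, fun n hn hf => ⟨fun h1 => hf Z ((hlow n hn).1 (hfin _ h1)),
    fun h1 => hf _ ((hlow n hn).2 (hfin _ h1))⟩⟩

section

variable {I : Type} [Finite I] (g : I → ℕ) (E : IntermediateField ℚ ℂ) [FiniteDimensional ℚ E]
  {q : ℕ} (hq : 1 < q) (r : ℕ) (hr : ∀ i, r < g i)
  (x : (Σ i, Fin (g i)) → ℤ) (hx : GoodU (splitPrimes E) g q x)

include hq hr hx

theorem groupForRankOver_of_good : GroupForRankOver E q r (fun i => weil q (polys g x i)) := by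
  intro k _ 𝒱 C _ K _ _ _ H _ s A Z πA πZ hsit
  obtain ⟨J, hJ, deg, D, E', h0, hdual, hD, hE, hK⟩ := CH.kunneth_kill g E hq r hr x hx
    (isStandard_bridge hsit.standard) hsit.pos (isAbelian_bridge hsit.abelian)
    (πZ := πZ) hsit.rank
  exact ⟨J, hJ, deg, D, hD, h0, fun T hT hπ => sameFiniteness_of hT hdual h0 hπ
    (nilpotence_bridge hsit.nilpotence) hK⟩

end

end Pool.Agent.W484.CK
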