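import Mathlib
import Pool.Agent.W484.CK.Motivic

/-!
# Pairings between theories on which correspondences act: the property
-/

set_option autoImplicit false

open CategoryTheory AlgebraicGeometry

universe u v w

namespace Pool.Agent.W484.CK

open Polynomial Pool.Agent.H914 Pool.Agent.H914.VarClass Pool.Agent.H914.VarClass.Obj
  Pool.Agent.W492.BB

variable {k : Type u} [Field k] {𝒱 : VarClass k}

/-- The transpose of a correspondence: its image under `X × Y ≅ Y × X`. -/
noncomputable def transpose (C : TheoryData.{u, v, 0} 𝒱 ℚ) {X Y : 𝒱.Obj} (Γ : C.A (X.prod Y)) :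
    C.A (Y.prod X) :=
  C.down (Obj.lift (snd X Y) (fst X Y)) Γ

/-- Data of two theories `T`, `T'` and bilinear pairings `T(X) × T'(X) → ℚ`. -/
structure PairingData (C : TheoryData.{u, v, 0} 𝒱 ℚ) where
  /-- the first theory -/
  T : MotivicData C
  /-- the second theory -/
  T' : MotivicData C
  /-- the pairing `⟨x, y⟩` of `x` in `T(X)` and `y` in `T'(X)` -/
  pair : ∀ X : 𝒱.Obj, T.M X →ₗ[ℚ] T'.M X →ₗ[ℚ] ℚ

/-- The value `⟨x, y⟩` of the pairing. -/
noncomputable abbrev PairingData.val {C : TheoryData.{u, v, 0} 𝒱 ℚ} (P : PairingData C) {X : 𝒱.Obj}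
    (x : P.T.M X) (y : P.T'.M X) : ℚ := P.pair X x y

/-- The linear forms on `M(X)`. -/
abbrev MotivicData.Form {C : TheoryData.{u, v, 0} 𝒱 ℚ} (T : MotivicData C) (X : 𝒱.Obj) : Type v :=
  T.M X →ₗ[ℚ] ℚ

/-- The value of a linear form. -/
noncomputable abbrev MotivicData.value {C : TheoryData.{u, v, 0} 𝒱 ℚ} {T : MotivicData C}
    {X : 𝒱.Obj} (φ : T.Form X) (x : T.M X) : ℚ := φ x

/-- Correspondences act on both theories, and transposed correspondences are adjoint for the
pairings: `⟨Γ x, y⟩ = ⟨x, Γ^t y⟩`. Example, for a fixed integer `m`: `T^n(X) = H^(2n-m)(X, ℚ(n))`,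
`T'^n(X) = H^(2n+m)(X, ℚ(n))` (motivic cohomology), and `⟨x, y⟩` is the degree of the cup product
`x · y`; for `m = 0` this is the intersection pairing of the Chow groups. -/
structure IsPairing {C : TheoryData.{u, v, 0} 𝒱 ℚ} (P : PairingData C) : Prop where
  left : IsMotivic P.T
  right : IsMotivic P.T'
  adjoint : ∀ {X Y : 𝒱.Obj} (Γ : C.A (X.prod Y)) (x : P.T.M X) (y : P.T'.M Y),
    P.val (P.T.app Γ x) y = P.val x (P.T'.app (transpose C Γ) y)

/-- The pairing of `T^n(X)` and `T'^(dim X - n)(X)` is perfect: every linear form on `T^n(X)` (that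
is, the restriction of every linear form `φ` on `T(X)`) is `x ↦ ⟨x, y⟩` for a unique `y` in
`T'^(dim X - n)(X)`, and vice versa. -/
structure IsPerfect {C : TheoryData.{u, v, 0} 𝒱 ℚ} (P : PairingData C) (X : 𝒱.Obj) (n : ℤ) :
    Prop where
  left : ∀ φ : P.T.Form X, ∃! y : P.T'.M X, P.T'.Deg (X.dim - n) y ∧
    ∀ x : P.T.M X, P.T.Deg n x → MotivicData.value φ x = P.val x y
  right : ∀ ψ : P.T'.Form X, ∃! x : P.T.M X, P.T.Deg n x ∧
    ∀ y : P.T'.M X, P.T'.Deg (X.dim - n) y → MotivicData.value ψ y = P.val x y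

/-- The pairing of `A × Z` is an orthogonal sum of copies of the pairing of `Z`:
`⟨∑ D j × z j, ∑ D' j × w j⟩ = ∑ ⟨z j, w j⟩`. -/
def IsOrthogonalSum {C : TheoryData.{u, v, 0} 𝒱 ℚ} (P : PairingData C) (A Z : 𝒱.Obj) {J : Type}
    [Fintype J] (D D' : J → C.A A) : Prop :=
  ∀ (z : J → P.T.M Z) (w : J → P.T'.M Z),
    P.val (∑ j, P.T.app (timesCorr C Z (D j)) (z j))
      (∑ j, P.T'.app (timesCorr C Z (D' j)) (w j)) = ∑ j, P.val (z j) (w j)

/-- `D` is a linear combination of products of `n` divisor classes. -/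
def DivisorCombination (C : TheoryData.{u, v, 0} 𝒱 ℚ) {A : 𝒱.Obj} (n : ℕ) (D : C.A A) : Prop :=
  D ∈ Submodule.span ℚ {D | DivisorProduct C n D}

/-- The classes `D j` are products of `deg j ≤ dim A` divisor classes on `A`, and the `D' j` linear
combinations of products of `dim A - deg j` divisor classes. -/
def IsFamily (C : TheoryData.{u, v, 0} 𝒱 ℚ) {A : 𝒱.Obj} {J : Type} (deg : J → ℕ)
    (D D' : J → C.A A) : Prop :=
  ∀ j, deg j ≤ A.dim ∧ DivisorProduct C (deg j) (D j) ∧ DivisorCombination C (A.dim - deg j) (D' j)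

/-- The Kunneth formulas `T^i(A × Z) = ⨁ D j × T^(i - deg j)(Z)` and
`T'^i(A × Z) = ⨁ D' j × T'^(i - dim A + deg j)(Z)` hold, and the pairing of `A × Z` is the
orthogonal sum of the corresponding pairings of `Z`. -/
structure HasDualKunneth {C : TheoryData.{u, v, 0} 𝒱 ℚ} (P : PairingData C) (A Z : 𝒱.Obj)
    {J : Type} [Fintype J] (deg : J → ℕ) (D D' : J → C.A A) : Prop where
  left : HasKunneth P.T A Z deg D
  right : HasKunneth P.T' A Z (fun j => A.dim - deg j) D'
  orthogonal : IsOrthogonalSum P A Z D D'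

/-- The pairing of `A × Z` is perfect in degree `n` if and only if the pairing of
`Z` is perfect in the degrees `n - deg j`, and perfect in all degrees if and only if the pairing of
`Z` is perfect in all degrees. -/
structure PerfectIff {C : TheoryData.{u, v, 0} 𝒱 ℚ} (P : PairingData C) (A Z : 𝒱.Obj)
    {J : Type} (deg : J → ℕ) : Prop where
  one : ∀ n : ℤ, IsPerfect P (A.prod Z) n ↔ ∀ j, IsPerfect P Z (n - deg j)
  all : (∀ n : ℤ, IsPerfect P (A.prod Z) n) ↔ ∀ n : ℤ, IsPerfect P Z n

/-- There are `D j` and `D' j` as above, finitely many, such that the two properties above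
hold for all pairings `P` of theories on which the endomorphism `π` of `A × Z` acts as
multiplication by `Q ^ i` in degree `i`. -/
def PairingsSplit (C : TheoryData.{u, v, 0} 𝒱 ℚ) {A Z : 𝒱.Obj} (π : A.prod Z ⟶ A.prod Z) (Q : ℕ) :
    Prop :=
  ∃ (J : Type) (_ : Fintype J) (deg : J → ℕ) (D D' : J → C.A A), IsFamily C deg D D' ∧
    ∀ P : PairingData C, IsPairing P → ActsAsPower P.T π Q → ActsAsPower P.T' π Q →
      HasDualKunneth P A Z deg D D' ∧ PerfectIff P A Z deg

/-- `PairingForRankOver E q r f`: for the Chow groups `C` with rational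
coefficients of all classes `𝒱` of varieties over fields `k` (finite, in the intended use),
every Weil cohomology theory `H` with coefficients in an algebraically closed field `K` of
characteristic zero and all `A`, `Z` as in `IsSituation` there are products `D j`
of `deg j` divisor classes and combinations `D' j` of products of `dim A - deg j` divisor classes
on `A`, finitely many, such that the following holds for all pairings `P` of theories `T`, `T'` on
which the Frobenius endomorphism of `A × Z` acts as multiplication by `q ^ (s i)` in degree `i`,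
for instance the motivic cup product pairing of `H^i(X, ℚ(n))` and `H^(2d-i)(X, ℚ(d-n))`, with
`i - 2n` fixed: the Kunneth formulas `T^i(A × Z) = ⨁ D j × T^(i - deg j)(Z)` and
`T'^i(A × Z) = ⨁ D' j × T'^(i - dim A + deg j)(Z)` hold, the pairing of `A × Z` is the orthogonal
sum of the corresponding pairings of `Z`, it is perfect in degree `n` if and only if the pairing of
`Z` is perfect in the degrees `n - deg j`, and perfect in all degrees if and only if the pairing of
`Z` is perfect in all degrees. -/
def PairingForRankOver (E : IntermediateField ℚ ℂ) (q r : ℕ) {I : Type} (f : I → ℤ[X]) : Prop :=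
  ∀ (k : Type) [Field k] (𝒱 : VarClass k) (C : TheoryData.{0, 0, 0} 𝒱 ℚ) [IsChow C]
    (K : Type) [Field K] [IsAlgClosed K] [CharZero K] (H : WeilTheoryData.{0, 0, 0} C K)
    [IsWeil H] (s : ℕ) (A Z : 𝒱.Obj) (πA : A ⟶ A) (πZ : Z ⟶ Z),
      IsSituation H E q r s f πA πZ → PairingsSplit C (prodMap πA πZ) (q ^ s)

end Pool.Agent.W484.CK
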