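import Mathlib
import Pool.Agent.W484.CK.Pairing
import Pool.Agent.W484.CK.Main
import Pool.Agent.W484.CK.Dual2

/-!
# Perfect pairings on products with almost all abelian varieties
-/

set_option autoImplicit false
set_option linter.unusedSectionVars false

open CategoryTheory AlgebraicGeometry

universe u v w

namespace Pool.Agent.W484.CK

open Module Polynomial Pool.Agent.H914 Pool.Agent.H914.VarClass Pool.Agent.H914.VarClass.Obj
  Pool.Agent.W492.BB Pool.Agent.W550.Corr Pool.Agent.W484.TB Pool.Agent.W484.HS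
  Pool.Agent.W521.Frob Pool.Agent.W521.Count Pool.Agent.W521.Bad Pool.Agent.W521.Descent
  Pool.Agent.W521.Density

section linear

variable {V W : Type*} [AddCommGroup V] [Module ℚ V] [AddCommGroup W] [Module ℚ W]

/-- `W` is the space of linear forms on `V`. -/
def Half (β : V →ₗ[ℚ] W →ₗ[ℚ] ℚ) : Prop :=
  ∀ φ : V →ₗ[ℚ] ℚ, ∃! y : W, ∀ x, φ x = β x y

variable {J : Type} [Fintype J] {V' W' : J → Type*} [∀ j, AddCommGroup (V' j)]
  [∀ j, Module ℚ (V' j)] [∀ j, AddCommGroup (W' j)] [∀ j, Module ℚ (W' j)]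

theorem half_iff (β : V →ₗ[ℚ] W →ₗ[ℚ] ℚ) (β' : ∀ j, V' j →ₗ[ℚ] W' j →ₗ[ℚ] ℚ)
    (ι : ∀ j, V' j →ₗ[ℚ] V) (p : ∀ j, V →ₗ[ℚ] V' j) (κ : ∀ j, W' j →ₗ[ℚ] W)
    (r : ∀ j, W →ₗ[ℚ] W' j) (ha : ∀ x, ∑ j, ι j (p j x) = x) (hb : ∀ y, ∑ j, κ j (r j y) = y)
    (hc : ∀ j z y, β (ι j z) y = β' j z (r j y)) (hd : ∀ j x w, β x (κ j w) = β' j (p j x) w)
    (he : ∀ j z, p j (ι j z) = z) (hf : ∀ j w, r j (κ j w) = w) :
    Half β ↔ ∀ j, Half (β' j) := by
  constructor
  · intro h j φ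
    obtain ⟨y, hy, hy'⟩ := h (φ ∘ₗ p j)
    refine ⟨r j y, fun z => ?_, fun w hw => ?_⟩
    · rw [← hc, ← hy (ι j z), LinearMap.comp_apply, he]
    · have h1 := hy' (κ j w) fun x => by rw [hd, ← hw, LinearMap.comp_apply]
      rw [← h1, hf]
  · intro h φ
    choose w hw hw' using fun j => h j (φ ∘ₗ ι j)
    refine ⟨∑ j, κ j (w j), fun x => ?_, fun y hy => ?_⟩
    · rw [map_sum, Finset.sum_congr rfl fun j _ => by
        rw [hd, ← hw j (p j x), LinearMap.comp_apply], ← map_sum, ha]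
    · rw [← hb y]
      refine Finset.sum_congr rfl fun j _ => ?_
      rw [hw' j (r j y) fun z => by rw [← hc, ← hy, LinearMap.comp_apply]]

end linear

section pairing

variable {k : Type u} [Field k] {𝒱 : VarClass k} {C : TheoryData.{u, v, 0} 𝒱 ℚ} {K : Type w}
  [Field K] {H : WeilTheoryData.{u, v, w} C K} [hC : IsChow C] {A X Y Z : 𝒱.Obj}

theorem transpose_extBy (b : C.A A) : transpose C (CH.extBy C Z b) = CH.pairBy C Z b := by
  change C.push _ (C.push _ _) = _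
  rw [← C.push_comp, CH.pairBy]
  congr 1
  congr 1
  apply prod_ext <;> simp [comp_lift]

theorem transpose_pairBy (b : C.A A) : transpose C (CH.pairBy C Z b) = CH.extBy C Z b := by
  change C.push _ (C.push _ _) = _
  rw [← C.push_comp, CH.extBy]
  congr 1
  congr 1
  apply prod_ext <;> simp [comp_lift]

/-- The pairing of the two subspaces. -/
noncomputable def subPair (P : PairingData C) (X : 𝒱.Obj) (n : ℤ) :
    P.T.gr X n →ₗ[ℚ] P.T'.gr X (X.dim - n) →ₗ[ℚ] ℚ :=
  LinearMap.compl₁₂ (P.pair X) (Submodule.subtype _) (Submodule.subtype _)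

theorem subPair_apply (P : PairingData C) (X : 𝒱.Obj) (n : ℤ) (x : P.T.gr X n)
    (y : P.T'.gr X (X.dim - n)) : subPair P X n x y = P.pair X x y := rfl

theorem isPerfect_iff_half (P : PairingData C) (X : 𝒱.Obj) (n : ℤ) :
    IsPerfect P X n ↔ Half (subPair P X n) ∧ Half (subPair P X n).flip := by
  constructor
  · intro h
    constructor
    · intro φ
      obtain ⟨φ', hφ'⟩ := LinearMap.exists_extend φ
      obtain ⟨y, ⟨hy1, hy2⟩, hy3⟩ := h.left φ'
      refine ⟨⟨y, hy1⟩, fun x => ?_, fun w hw => ?_⟩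
      · rw [subPair_apply, ← hφ']
        exact hy2 x x.2
      · apply Subtype.ext
        refine hy3 w ⟨w.2, fun x hx => ?_⟩
        have h1 := hw ⟨x, hx⟩
        rw [← hφ'] at h1
        exact h1
    · intro φ
      obtain ⟨φ', hφ'⟩ := LinearMap.exists_extend φ
      obtain ⟨y, ⟨hy1, hy2⟩, hy3⟩ := h.right φ'
      refine ⟨⟨y, hy1⟩, fun x => ?_, fun w hw => ?_⟩
      · rw [LinearMap.flip_apply, subPair_apply, ← hφ']
        exact hy2 x x.2
      · apply Subtype.ext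
        refine hy3 w ⟨w.2, fun x hx => ?_⟩
        have h1 := hw ⟨x, hx⟩
        rw [← hφ'] at h1
        exact h1
  · rintro ⟨h1, h2⟩
    constructor
    · intro φ
      obtain ⟨y, hy, hy'⟩ := h1 (φ ∘ₗ Submodule.subtype _)
      refine ⟨y, ⟨y.2, fun x hx => hy ⟨x, hx⟩⟩, fun w hw => ?_⟩
      exact congrArg Subtype.val (hy' ⟨w, hw.1⟩ fun x => hw.2 x x.2)
    · intro φ
      obtain ⟨y, hy, hy'⟩ := h2 (φ ∘ₗ Submodule.subtype _)
      refine ⟨y, ⟨y.2, fun x hx => hy ⟨x, hx⟩⟩, fun w hw => ?_⟩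
      exact congrArg Subtype.val (hy' ⟨w, hw.1⟩ fun x => hw.2 x x.2)

variable {P : PairingData C} (hP : IsPairing P)

include hP

theorem pair_ext (D : C.A A) (z : P.T.M Z) (y : P.T'.M (A.prod Z)) :
    P.pair (A.prod Z) (P.T.act (CH.extBy C Z D) z) y =
      P.pair Z z (P.T'.act (CH.pairBy C Z D) y) := by
  have h1 := hP.adjoint (CH.extBy C Z D) z y
  rw [transpose_extBy] at h1
  exact h1

theorem pair_pairBy (D : C.A A) (x : P.T.M (A.prod Z)) (w : P.T'.M Z) :
    P.pair (A.prod Z) x (P.T'.act (CH.extBy C Z D) w) =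
      P.pair Z (P.T.act (CH.pairBy C Z D) x) w := by
  have h1 := hP.adjoint (CH.pairBy C Z D) x w
  rw [transpose_pairBy] at h1
  exact h1.symm

variable {J : Type} [Fintype J] {deg : J → ℕ} {D E : J → C.A A} (h : CH.IsDual A Z deg D E)
  (hT : ∀ (i : ℤ) (m : P.T.M (A.prod Z)), m ∈ P.T.gr (A.prod Z) i →
    m = ∑ j, P.T.act (CH.extBy C Z (D j)) (P.T.act (CH.pairBy C Z (E j)) m))
  (hT' : ∀ (i : ℤ) (m : P.T'.M (A.prod Z)), m ∈ P.T'.gr (A.prod Z) i →
    m = ∑ j, P.T'.act (CH.extBy C Z (E j)) (P.T'.act (CH.pairBy C Z (D j)) m))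

include h

open Classical in
theorem pair_ext_left (i j : J) (z : P.T.M Z) :
    P.T.act (CH.pairBy C Z (E j)) (P.T.act (CH.extBy C Z (D i)) z) = if i = j then z else 0 :=
  CH.act_pair_ext (toCorr_isCorrTheory hP.left) h i j z

open Classical in
theorem pair_ext_right (i j : J) (z : P.T'.M Z) :
    P.T'.act (CH.pairBy C Z (D j)) (P.T'.act (CH.extBy C Z (E i)) z) = if i = j then z else 0 :=
  CH.act_pair_ext (toCorr_isCorrTheory hP.right) h.symm i j z

theorem isOrthogonalSum_of : IsOrthogonalSum P A Z D E := by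
  classical
  intro z w
  change P.pair (A.prod Z) (∑ j, P.T.act (CH.extBy C Z (D j)) (z j))
    (∑ j, P.T'.act (CH.extBy C Z (E j)) (w j)) = _
  rw [map_sum]
  refine Finset.sum_congr rfl fun j _ => ?_
  rw [pair_pairBy hP, map_sum, Finset.sum_congr rfl fun i _ => pair_ext_left hP h i j (z i),
    Finset.sum_ite_eq', if_pos (Finset.mem_univ _)]

include hT hT'

theorem isPerfect_iff (n : ℤ) :
    IsPerfect P (A.prod Z) n ↔ ∀ j, IsPerfect P Z (n - deg j) := by
  classical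
  have hd1 : ∀ j, ∀ z ∈ P.T.gr Z (n - deg j),
      P.T.act (CH.extBy C Z (D j)) z ∈ P.T.gr (A.prod Z) n := by
    intro j z hz
    have h1 := CH.act_ext_mem (toCorr_isCorrTheory hP.left) h j hz
    rwa [sub_add_cancel] at h1
  have hd2 : ∀ j, ∀ x ∈ P.T.gr (A.prod Z) n,
      P.T.act (CH.pairBy C Z (E j)) x ∈ P.T.gr Z (n - deg j) := by
    intro j z hz
    have h1 := CH.act_pair_mem (toCorr_isCorrTheory hP.left) h j hz
    rwa [← sub_eq_add_neg] at h1
  have hdim : ((A.prod Z).dim : ℤ) = A.dim + Z.dim := by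
    rw [Obj.dim_prod]
    push_cast
    ring
  have hd3 : ∀ j, ∀ w ∈ P.T'.gr Z (Z.dim - (n - deg j)),
      P.T'.act (CH.extBy C Z (E j)) w ∈ P.T'.gr (A.prod Z) ((A.prod Z).dim - n) := by
    intro j z hz
    have h1 := CH.act_ext_mem (toCorr_isCorrTheory hP.right) h.symm j hz
    have h2 := h.le j
    have h3 : (Z.dim : ℤ) - (n - deg j) + ((A.dim - deg j : ℕ) : ℤ) = (A.prod Z).dim - n := by
      rw [hdim]
      omega
    rw [h3] at h1
    exact h1
  have hd4 : ∀ j, ∀ y ∈ P.T'.gr (A.prod Z) ((A.prod Z).dim - n),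
      P.T'.act (CH.pairBy C Z (D j)) y ∈ P.T'.gr Z (Z.dim - (n - deg j)) := by
    intro j z hz
    have h1 := CH.act_pair_mem (toCorr_isCorrTheory hP.right) h.symm j hz
    have h2 := h.le j
    have h3 : ((A.prod Z).dim : ℤ) - n + -((A.dim - deg j : ℕ) : ℤ) = Z.dim - (n - deg j) := by
      rw [hdim]
      omega
    rw [h3] at h1
    exact h1
  let β := subPair P (A.prod Z) n
  let β' := fun j => subPair P Z (n - deg j)
  let ι : ∀ j, P.T.gr Z (n - deg j) →ₗ[ℚ] P.T.gr (A.prod Z) n := fun j =>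
    LinearMap.restrict _ (hd1 j)
  let p : ∀ j, P.T.gr (A.prod Z) n →ₗ[ℚ] P.T.gr Z (n - deg j) := fun j =>
    LinearMap.restrict _ (hd2 j)
  let κ : ∀ j, P.T'.gr Z (Z.dim - (n - deg j)) →ₗ[ℚ] P.T'.gr (A.prod Z) ((A.prod Z).dim - n) :=
    fun j => LinearMap.restrict _ (hd3 j)
  let r : ∀ j, P.T'.gr (A.prod Z) ((A.prod Z).dim - n) →ₗ[ℚ] P.T'.gr Z (Z.dim - (n - deg j)) :=
    fun j => LinearMap.restrict _ (hd4 j)
  have ha : ∀ x, ∑ j, ι j (p j x) = x := by
    intro x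
    apply Subtype.ext
    rw [Submodule.coe_sum]
    exact (hT n x x.2).symm
  have hb : ∀ y, ∑ j, κ j (r j y) = y := by
    intro y
    apply Subtype.ext
    rw [Submodule.coe_sum]
    exact (hT' _ y y.2).symm
  have hc : ∀ j z y, β (ι j z) y = β' j z (r j y) := fun j z y =>
    pair_ext hP (D j) (z : P.T.M Z) (y : P.T'.M (A.prod Z))
  have hd : ∀ j x w, β x (κ j w) = β' j (p j x) w := fun j x w =>
    pair_pairBy hP (E j) (x : P.T.M (A.prod Z)) (w : P.T'.M Z)
  have he : ∀ j z, p j (ι j z) = z := by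
    intro j z
    apply Subtype.ext
    have h1 := pair_ext_left hP h j j (z : P.T.M Z)
    rw [if_pos rfl] at h1
    exact h1
  have hf : ∀ j w, r j (κ j w) = w := by
    intro j z
    apply Subtype.ext
    have h1 := pair_ext_right hP h j j (z : P.T'.M Z)
    rw [if_pos rfl] at h1
    exact h1
  have h1 := half_iff β β' ι p κ r ha hb hc hd he hf
  have h2 := half_iff β.flip (fun j => (β' j).flip) κ r ι p hb ha (fun j z y => hd j y z)
    (fun j x w => hc j w x) hf he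
  have h3 : IsPerfect P (A.prod Z) n ↔ Half β ∧ Half β.flip := isPerfect_iff_half P _ n
  have h4 : ∀ j, IsPerfect P Z (n - deg j) ↔ Half (β' j) ∧ Half (β' j).flip := fun j =>
    isPerfect_iff_half P _ _
  rw [h3, h1, h2]
  simp only [h4]
  exact ⟨fun h j => ⟨h.1 j, h.2 j⟩, fun h => ⟨fun j => (h j).1, fun j => (h j).2⟩⟩

end pairing

section

variable {I : Type} [Finite I] (g : I → ℕ) (E : IntermediateField ℚ ℂ) [FiniteDimensional ℚ E]
  {q : ℕ} (hq : 1 < q) (r : ℕ) (hr : ∀ i, r < g i)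
  (x : (Σ i, Fin (g i)) → ℤ) (hx : GoodU (splitPrimes E) g q x)

include hq hr hx

theorem pairingForRankOver_of_good :
    PairingForRankOver E q r (fun i => weil q (polys g x i)) := by
  intro k _ 𝒱 C _ K _ _ _ H _ s A Z πA πZ hsit
  obtain ⟨J, hJ, deg, D, E', hne, hdual, hD, hE, hK⟩ := CH.kunneth_both g E hq r hr x hx
    (isStandard_bridge hsit.standard) hsit.pos (isAbelian_bridge hsit.abelian)
    (πZ := πZ) hsit.rank (nilpotence_bridge hsit.nilpotence)
  refine ⟨J, hJ, deg, D, E', fun j => ⟨hdual.le j, hD j, hE j⟩, fun P hP h1 h2 => ?_⟩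
  have hT := fun i m hm => (hK (toCorr P.T) (toCorr_isCorrTheory hP.left)
    (toCorr_actsAsPower h1) i m hm).1
  have hT' := fun i m hm => (hK (toCorr P.T') (toCorr_isCorrTheory hP.right)
    (toCorr_actsAsPower h2) i m hm).2
  have h3 := isPerfect_iff hP hdual hT hT'
  refine ⟨⟨CH.hasKunneth_of hdual (toCorr_isCorrTheory hP.left) hT,
    CH.hasKunneth_of hdual.symm (toCorr_isCorrTheory hP.right) hT',
    isOrthogonalSum_of hP hdual⟩, h3, fun h n => ?_, fun h n => (h3 n).2 fun j => h _⟩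
  obtain ⟨j⟩ := hne
  have h4 := (h3 (n + deg j)).1 (h _) j
  rwa [add_sub_cancel_right] at h4

end

end Pool.Agent.W484.CK
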