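import Mathlib
import Pool.Agent.W484.CK.Dual2

/-!
# The Kunneth formula for eigenvectors of Frobenius in the cohomology
-/

set_option autoImplicit false
set_option linter.unusedSectionVars false

open CategoryTheory AlgebraicGeometry

universe u v w

namespace Pool.Agent.W484.CH

open Module Polynomial Pool.Agent.H914 Pool.Agent.H914.VarClass Pool.Agent.H914.VarClass.Obj
  Pool.Agent.W492.BB Pool.Agent.W550.Corr Pool.Agent.W484.TB Pool.Agent.W484.HS
  Pool.Agent.W521.Frob Pool.Agent.W521.Count Pool.Agent.W521.Bad Pool.Agent.W521.Descent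
  Pool.Agent.W521.Density

variable {k : Type u} [Field k] {𝒱 : VarClass k} {C : TheoryData.{u, v, 0} 𝒱 ℚ} {K : Type w}
  [Field K] [CharZero K] {H : WeilTheoryData.{u, v, w} C K} [hC : IsChow C] [hH : IsWeil H]
  {A Z X Y : 𝒱.Obj}

variable {I : Type} [Finite I] (g : I → ℕ) (E : IntermediateField ℚ ℂ) [FiniteDimensional ℚ E]
  {q : ℕ} (hq : 1 < q) (r : ℕ) (hr : ∀ i, r < g i)
  (x : (Σ i, Fin (g i)) → ℤ) (hx : GoodU (splitPrimes E) g q x)

include hq hr hx in
/-- **The Kunneth formula for eigenvectors of Frobenius.** -/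
theorem kunneth_eigen [IsAlgClosed K] (hS : IsStandard H) {s : ℕ} (hs : 0 < s) {πA : A ⟶ A}
    {πZ : Z ⟶ Z} (hA : IsAbelian H πA q s (fun i => weil q (polys g x i)))
    (hZ : EigenRankLE E r (frob H πZ)) :
    ∃ (J : Type) (_ : Fintype J) (deg : J → ℕ) (D E : J → C.A A), Nonempty J ∧
      IsDual A Z deg D E ∧
      (∀ j, D j ∈ DivProd C A (deg j)) ∧
      (∀ j, E j ∈ Submodule.span ℚ (DivProd C A (A.dim - deg j))) ∧
      ∀ (i : ℤ) (w : H.A (A.prod Z)),
        H.pull (prodMap πA πZ) w = ((q ^ s : ℕ) : K) ^ i • w →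
          H.act (H.cl (proj Z D E)) w = w ∧ H.act (H.cl (proj Z E D)) w = w := by
  obtain ⟨n, b, α, hb, hα, hgood⟩ := exists_good_basis g E hq r hr x hx hS hs hA
  have hQ1 : 1 < q ^ s := Nat.one_lt_pow hs.ne' hq
  have hX1 : (Polynomial.X - 1 : ℚ[X]) ≠ 0 := by
    have := Polynomial.X_sub_C_ne_zero (1 : ℚ)
    rwa [map_one] at this
  have h1 : ∀ t (c : ℤ), α t = ((q ^ s : ℕ) : K) ^ c →
      ∃ l : ℕ, α t = ((q ^ s : ℕ) : K) ^ l ∧ b t ∈ NK H A l := by
    intro t c hc
    exact hgood _ hX1 (rank_one E r) 1 (by rw [map_sub, aeval_X, map_one, sub_self]) t c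
      (by rw [mul_one]; exact hc)
  obtain ⟨J, hJ, deg, D, E', hdual, hD, hE, hN⟩ :=
    exists_dual2 hS hA.frobenius hQ1 b α hb h1 Z
  have hN' := span_dual hS hA.frobenius hQ1 b α hb h1 Z hdual hE hN
  have hne : Nonempty J := by
    by_contra hne
    rw [not_nonempty_iff] at hne
    have h2 := hN 0 (one_mem_NK (H := H) (A := A))
    have h3 : {c : H.A A | ∃ j, deg j = 0 ∧ c = H.cl (D j)} = ∅ := by
      ext c
      constructor
      · rintro ⟨j, -⟩
        exact hne.elim j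
      · intro h
        exact h.elim
    rw [h3, Submodule.span_empty, Submodule.mem_bot] at h2
    have := hS.nontrivial A
    exact one_ne_zero h2
  refine ⟨J, hJ, deg, D, E', hne, hdual, hD, hE, fun i w hw => ?_⟩
  obtain ⟨χ, hχ, hχe, hrank⟩ := hZ
  have hmix : w ∈ mix H A Z := by
    refine mem_mix (πZ := πZ) hS b α hb (Q := q ^ s) (by omega) i ?_ 1 _ ?_
    · intro t ρ v hv0 hv hc
      obtain ⟨l, -, hl⟩ := hgood χ hχ hrank ρ (hχe ρ v hv0 hv) t i hc
      exact ⟨l, hl⟩
    · rw [op, pow_one, LinearMap.sub_apply, LinearMap.smul_apply, Module.End.one_apply, sub_eq_zero]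
      exact hw
  exact ⟨act_proj_mix hdual hN hmix, act_proj_mix hdual.symm hN' hmix⟩

/-- The same, written out. -/
theorem eq_sum_of_act {J : Type} [Fintype J] {D E : J → C.A A} {w : H.A (A.prod Z)}
    (h : H.act (H.cl (proj Z D E)) w = w) :
    w = ∑ j, H.act (H.cl (extBy C Z (D j))) (H.act (H.cl (pairBy C Z (E j))) w) := by
  conv_lhs => rw [← h]
  rw [proj, map_sum, act_sum]
  exact Finset.sum_congr rfl fun j _ => act_cl_comp _ _ _

end Pool.Agent.W484.CH
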