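import Mathlib
import Pool.Agent.W484.CK.NCChow

/-!
# Noncommutative motives: homological and numerical equivalence
-/

set_option autoImplicit false

open CategoryTheory AlgebraicGeometry

universe u v w

namespace Pool.Agent.W484.CK

open Polynomial Pool.Agent.H914 Pool.Agent.H914.VarClass Pool.Agent.H914.VarClass.Obj
  Pool.Agent.W492.BB

variable {k : Type u} [Field k] {𝒱 : VarClass k} {C : TheoryData.{u, v, 0} 𝒱 ℚ} {K : Type w}
  [Field K] (H : WeilTheoryData.{u, v, w} C K) {A X Y Z : 𝒱.Obj}

/-- The situation of the theorem: `πA` is the Frobenius endomorphism of an abelian variety `A` over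
the field with `q ^ s` elements, isogenous to a product of powers of abelian varieties coming from
the field with `q` elements with characteristic polynomials `f i`; `Z` is **any** variety over the
field with `q ^ s` elements, such that the eigenvalues of its Frobenius endomorphism `πZ` on the
cohomology lie up to powers in a group generated by the elements of the number field `E` and `r`
numbers; and `πA × πZ` acts on the Chow groups of `A × Z` in the usual way. -/
structure IsOpenSituation [CharZero K] (E : IntermediateField ℚ ℂ) (q r s : ℕ) {I : Type}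
    (f : I → ℤ[X]) (πA : A ⟶ A) (πZ : Z ⟶ Z) : Prop where
  standard : IsStandard H
  pos : 0 < s
  abelian : IsAbelian H πA q s f
  rank : EigenvaluesOfRank H E r πZ
  frobenius : IsFrobenius C (prodMap πA πZ) (q ^ s)

/-- Homological and numerical equivalence coincide on `K_0(Z, e)_ℚ`. -/
def HomEqNum {Z : 𝒱.Obj} (e : C.A (Z.prod Z)) : Prop :=
  ∀ x : C.A Z, InKZero e x → IsNumTrivial H x → H.cl x = 0

/-- The Kunneth formula `K_0(A × Z, 1 × e)_ℚ = ⨁ D j × K_0(Z, e)_ℚ` modulo homological
equivalence, and the same for the kernels of the Euler pairings. -/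
structure HomKunneth (A : 𝒱.Obj) {Z : 𝒱.Obj} (e : C.A (Z.prod Z)) {J : Type} [Fintype J]
    (D : J → C.A A) : Prop where
  mem : ∀ (j : J) (z : C.A Z), InKZero e z → InKZero (relative C A e) (times C (D j) z)
  exists_sum : ∀ x : C.A (A.prod Z), InKZero (relative C A e) x →
    ∃ z : J → C.A Z, (∀ j, InKZero e (z j)) ∧ H.cl x = H.cl (∑ j, times C (D j) (z j))
  independent : ∀ z : J → C.A Z, H.cl (∑ j, times C (D j) (z j)) = 0 ↔ ∀ j, H.cl (z j) = 0
  kernel : ∀ z : J → C.A Z,
    IsNumTrivial H (∑ j, times C (D j) (z j)) ↔ ∀ j, IsNumTrivial H (z j)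

/-- `NCHomForRankOver E q r f`: for the Chow groups `C` with rational
coefficients of all classes `𝒱` of varieties over fields `k` (finite, in the intended use),
every Weil cohomology theory `H` with coefficients in an algebraically closed field `K` of
characteristic zero and all `A`, `Z` as in `IsOpenSituation` there are products `D j`
of `deg j` divisor classes on `A`, finitely many, such that the following holds for
all direct summands `(Z, e)` of the noncommutative motive of `Z`: the Kunneth formula
`K_0(A × Z, 1 × e)_ℚ = ⨁ D j × K_0(Z, e)_ℚ` holds modulo homological equivalence, the same for the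
kernels of the Euler pairings, and homological and numerical equivalence coincide on
`K_0(A × Z, 1 × e)_ℚ` if and only if they coincide on `K_0(Z, e)_ℚ`. -/
def NCHomForRankOver (E : IntermediateField ℚ ℂ) (q r : ℕ) {I : Type} (f : I → ℤ[X]) : Prop :=
  ∀ (k : Type) [Field k] (𝒱 : VarClass k) (C : TheoryData.{0, 0, 0} 𝒱 ℚ) [IsChow C],
    IsoInvariant C → ∀ (K : Type) [Field K] [IsAlgClosed K] [CharZero K]
    (H : WeilTheoryData.{0, 0, 0} C K) [IsWeil H] (s : ℕ) (A Z : 𝒱.Obj) (πA : A ⟶ A)
    (πZ : Z ⟶ Z), IsOpenSituation H E q r s f πA πZ →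
      ∃ (J : Type) (_ : Fintype J) (deg : J → ℕ) (D : J → C.A A),
        (∀ j, DivisorProduct C (deg j) (D j)) ∧ ∀ e : C.A (Z.prod Z), IsIdempotent C e →
          HomKunneth H A e D ∧ (HomEqNum H (relative C A e) ↔ HomEqNum H e)

end Pool.Agent.W484.CK
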