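import Mathlib
import Pool.Agent.W484.CK.NCHom

/-!
# Noncommutative motives: the Tate conjecture
-/

set_option autoImplicit false

open CategoryTheory AlgebraicGeometry

universe u v w

namespace Pool.Agent.W484.CK

open Polynomial Pool.Agent.H914 Pool.Agent.H914.VarClass Pool.Agent.H914.VarClass.Obj
  Pool.Agent.W492.BB

variable {k : Type u} [Field k] {𝒱 : VarClass k} {C : TheoryData.{u, v, 0} 𝒱 ℚ} {K : Type w}
  [Field K] (H : WeilTheoryData.{u, v, w} C K) {A X Y Z : 𝒱.Obj}

/-- `w` is homogeneous of even degree `2 i`, and an eigenvector of Frobenius with eigenvalue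
`Q ^ i`. -/
def IsTateVector (π : Z ⟶ Z) (Q : ℕ) (w : H.A Z) : Prop :=
  ∃ i : ℕ, H.Deg (2 * i) w ∧ H.up π w = (Q : K) ^ i • w

/-- `w` is an element of the sum of the spaces of Frobenius invariants of the groups
`H^(2i)(Z)(i)`. -/
def IsTateClass (π : Z ⟶ Z) (Q : ℕ) (w : H.A Z) : Prop := InSpan H (IsTateVector H π Q) w

/-- `c` is the class of an element of `K_0(Z, e)_ℚ`. -/
def IsKZeroClass {Z : 𝒱.Obj} (e : C.A (Z.prod Z)) (c : H.A Z) : Prop :=
  ∃ x : C.A Z, InKZero e x ∧ c = H.cl x

/-- The Tate conjecture for the direct summand `(Z, e)` of the noncommutative motive of `Z`: the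
elements of its cohomology (the image of `e` in the cohomology of `Z`) which are
Frobenius invariant are linear combinations of classes of elements of `K_0(Z, e)_ℚ`. -/
def NCTateConjecture (π : Z ⟶ Z) (Q : ℕ) (e : C.A (Z.prod Z)) : Prop :=
  ∀ w : H.A Z, IsTateClass H π Q w → H.act (H.cl e) w = w → InSpan H (IsKZeroClass H e) w

/-- The Kunneth formula for the Frobenius invariants: those in the cohomology of `(A × Z, 1 × e)` are
the sums of the products of the classes of the `D j` with those in the cohomology
of `(Z, e)`, in a unique way. -/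
def TateKunneth (πA : A ⟶ A) (πZ : Z ⟶ Z) (Q : ℕ) (e : C.A (Z.prod Z)) {J : Type} [Fintype J]
    (D : J → C.A A) : Prop :=
  ∀ w : H.A (A.prod Z), (IsTateClass H (prodMap πA πZ) Q w ∧
    H.act (H.cl (relative C A e)) w = w) ↔ ∃! y : J → H.A Z,
      (∀ j, IsTateClass H πZ Q (y j) ∧ H.act (H.cl e) (y j) = y j) ∧
        w = ∑ j, H.mul (H.up (fst A Z) (H.cl (D j))) (H.up (snd A Z) (y j))

/-- `NCTateForRankOver E q r f`: for the Chow groups `C` with rational
coefficients of all classes `𝒱` of varieties over fields `k` (finite, in the intended use),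
every Weil cohomology theory `H` with coefficients in an algebraically closed field `K` of
characteristic zero and all `A`, `Z` as in `IsOpenSituation` there are products `D j`
of `deg j` divisor classes on `A`, finitely many, such that the following holds for
all direct summands `(Z, e)` of the noncommutative motive of `Z`: the Kunneth formula for the
Frobenius invariants in the cohomology of `(A × Z, 1 × e)` holds, and the Tate conjecture holds
for `(A × Z, 1 × e)` if and only if it holds for `(Z, e)`. -/
def NCTateForRankOver (E : IntermediateField ℚ ℂ) (q r : ℕ) {I : Type} (f : I → ℤ[X]) : Prop :=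
  ∀ (k : Type) [Field k] (𝒱 : VarClass k) (C : TheoryData.{0, 0, 0} 𝒱 ℚ) [IsChow C],
    IsoInvariant C → ∀ (K : Type) [Field K] [IsAlgClosed K] [CharZero K]
    (H : WeilTheoryData.{0, 0, 0} C K) [IsWeil H] (s : ℕ) (A Z : 𝒱.Obj) (πA : A ⟶ A)
    (πZ : Z ⟶ Z), IsOpenSituation H E q r s f πA πZ →
      ∃ (J : Type) (_ : Fintype J) (deg : J → ℕ) (D : J → C.A A),
        (∀ j, DivisorProduct C (deg j) (D j)) ∧ ∀ e : C.A (Z.prod Z), IsIdempotent C e →
          TateKunneth H πA πZ (q ^ s) e D ∧
            (NCTateConjecture H (prodMap πA πZ) (q ^ s) (relative C A e) ↔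
              NCTateConjecture H πZ (q ^ s) e)

end Pool.Agent.W484.CK
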